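import Mathlib

/-!
# The 2-adic valuation of the number of binary partitions in 11 colours is at most 4

Modulo 32 one has `F_11 = ∏ (1 - x^(2^i))^(-11) = (1 - x)^16 T(x)^5`, `T = ∏ (1 - x^(2^i))`, and
`T(x) = (1 - x) T(x^2)`.  So the residues are produced by a finite automaton whose states are
polynomials modulo 32; there are 70 states and none of them has constant coefficient 0.
-/

set_option autoImplicit false

namespace Run7.h928.Bin

open Polynomial

abbrev R := ZMod 32

/-- polynomial with given coefficients -/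
noncomputable def ser : List R → R[X]
  | [] => 0
  | a :: L => C a + X * ser L

/-- multiplication by `1 - X` (with a carry) -/
def m1 : R → List R → List R
  | c, [] => [-c]
  | c, a :: L => (a - c) :: m1 a L

lemma ser_m1 (L : List R) : ∀ c : R, ser (m1 c L) = (1 - X) * ser L - C c := by
  induction L with
  | nil => intro c; simp [m1, ser]
  | cons a L ih =>
    intro c
    simp only [m1, ser, ih a, map_sub]
    ring

mutual
/-- coefficients at even places -/
def ev : List R → List R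
  | [] => []
  | a :: L => a :: od L
/-- coefficients at odd places -/
def od : List R → List R
  | [] => []
  | _ :: L => ev L
end

lemma ser_split (L : List R) :
    ser L = expand R 2 (ser (ev L)) + X * expand R 2 (ser (od L)) := by
  induction L with
  | nil => simp [ev, od, ser]
  | cons a L ih =>
    rw [ev, od, ser, ih, ser]
    simp only [map_add, map_mul, expand_C, expand_X]
    ring

/-- multiplication by `(1 - X)^5` -/
def m5 (L : List R) : List R := m1 0 (m1 0 (m1 0 (m1 0 (m1 0 L))))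

lemma ser_m5 (L : List R) : ser (m5 L) = (1 - X)^5 * ser L := by
  unfold m5
  simp only [ser_m1, map_zero, sub_zero]
  ring

/-- the states -/
def states : List (List R) := [
  [1, 16, 24, 16, 28, 16, 8, 16, 6, 16, 8, 16, 28, 16, 24, 16, 1],
  [1, 18, 1, 24, 2, 12, 10, 24, 29, 18, 21],
  [11, 14, 3, 8, 22, 20, 30, 8, 31, 14, 31],
  [1, 17, 5, 5, 3, 19, 23, 23],
  [13, 29, 1, 1, 7, 23, 11, 11],
  [11, 11, 23, 7, 1, 1, 29, 13],
  [23, 23, 19, 3, 5, 5, 17, 1],
  [1, 26, 23, 12, 31, 26, 9],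
  [12, 12, 24, 24, 28, 28],
  [13, 18, 11, 28, 19, 18, 21],
  [28, 28, 24, 24, 12, 12],
  [11, 14, 13, 4, 21, 14, 19],
  [20, 20, 8, 8, 4, 4],
  [23, 6, 1, 20, 9, 6, 31],
  [4, 4, 8, 8, 20, 20],
  [1, 31, 10, 30, 5, 19],
  [21, 19, 18, 6, 9, 23],
  [12, 20, 24, 8, 28, 4],
  [16, 0, 0, 0, 16],
  [13, 19, 2, 6, 1, 23],
  [17, 23, 10, 14, 21, 11],
  [28, 4, 24, 8, 12, 20],
  [11, 21, 14, 10, 23, 17],
  [23, 1, 6, 2, 19, 13],
  [20, 12, 8, 24, 4, 28],
  [23, 9, 6, 18, 19, 21],
  [19, 5, 30, 10, 31, 1],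
  [4, 28, 8, 24, 20, 12],
  [1, 25, 2, 26, 29, 13],
  [26, 24, 28, 24, 26],
  [21, 5, 10, 18, 1, 9],
  [10, 24, 28, 24, 10],
  [24, 0, 16, 0, 24],
  [13, 5, 26, 18, 25, 9],
  [18, 24, 12, 24, 18],
  [17, 1, 2, 10, 13, 21],
  [2, 24, 12, 24, 2],
  [11, 19, 22, 30, 31, 15],
  [30, 8, 20, 8, 30],
  [23, 7, 14, 6, 27, 19],
  [14, 8, 20, 8, 14],
  [8, 0, 16, 0, 8],
  [23, 31, 14, 22, 27, 11],
  [22, 8, 4, 8, 22],
  [19, 3, 6, 30, 7, 31],
  [6, 8, 4, 8, 6],
  [1, 15, 26, 14, 21, 19],
  [20, 0, 8, 0, 4],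
  [26, 8, 12, 8, 10],
  [22, 24, 20, 24, 6],
  [21, 3, 2, 22, 25, 23],
  [28, 0, 24, 0, 12],
  [10, 8, 12, 8, 26],
  [6, 24, 20, 24, 22],
  [13, 3, 18, 22, 17, 23],
  [4, 0, 8, 0, 20],
  [18, 8, 28, 8, 2],
  [30, 24, 4, 24, 14],
  [17, 7, 26, 30, 5, 11],
  [12, 0, 24, 0, 28],
  [2, 8, 28, 8, 18],
  [14, 24, 4, 24, 30],
  [11, 5, 30, 26, 7, 17],
  [23, 17, 22, 18, 3, 13],
  [23, 25, 22, 2, 3, 21],
  [19, 21, 14, 26, 15, 1],
  [20, 16, 24, 16, 20],
  [28, 16, 8, 16, 28],
  [4, 16, 24, 16, 4],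
  [12, 16, 8, 16, 12]]

lemma states_closed : ∀ L ∈ states, ev (m5 L) ∈ states ∧ od (m5 L) ∈ states ∧ L.headD 0 ≠ 0 := by
  decide +kernel

/-- `∏_{i<N} (1 - x^(2^i))` -/
noncomputable def T (N : ℕ) : R[X] := ∏ i ∈ Finset.range N, (1 - X^(2^i))

lemma T_succ' (N : ℕ) : T (N+1) = (1 - X) * expand R 2 (T N) := by
  unfold T
  rw [Finset.prod_range_succ', mul_comm, map_prod]
  congr 1
  · simp
  · apply Finset.prod_congr rfl
    intro i _
    simp only [map_sub, map_one, map_pow, expand_X]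
    rw [← pow_mul, ← pow_succ']

lemma coeff_split_even (A B D : R[X]) (k : ℕ) :
    ((expand R 2 A + X * expand R 2 B) * expand R 2 D).coeff (2*k) = (A * D).coeff k := by
  have : (expand R 2 A + X * expand R 2 B) * expand R 2 D =
      expand R 2 (A * D) + X * expand R 2 (B * D) := by
    rw [map_mul, map_mul]; ring
  rw [this, coeff_add, mul_comm 2 k, coeff_expand_mul (by norm_num)]
  have h2 : (X * expand R 2 (B * D)).coeff (k * 2) = 0 := by
    cases k with
    | zero => simp
    | succ k =>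
      rw [show (k+1)*2 = (2*k+1) + 1 by ring, coeff_X_mul, coeff_expand (by norm_num)]
      rw [if_neg (by omega)]
  rw [h2, add_zero]

lemma coeff_split_odd (A B D : R[X]) (k : ℕ) :
    ((expand R 2 A + X * expand R 2 B) * expand R 2 D).coeff (2*k+1) = (B * D).coeff k := by
  have : (expand R 2 A + X * expand R 2 B) * expand R 2 D =
      expand R 2 (A * D) + X * expand R 2 (B * D) := by
    rw [map_mul, map_mul]; ring
  rw [this, coeff_add, coeff_X_mul, mul_comm 2 k, coeff_expand_mul (by norm_num),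
    coeff_expand (by norm_num), if_neg (by omega), zero_add]

lemma ser_coeff_zero (L : List R) : (ser L).coeff 0 = L.headD 0 := by
  cases L with
  | nil => simp [ser]
  | cons a L => simp [ser]

lemma key : ∀ N : ℕ, ∀ L ∈ states, ∀ n < 2^N, (ser L * (T N)^5).coeff n ≠ 0 := by
  intro N
  induction N with
  | zero =>
    intro L hL n hn
    have : n = 0 := by simpa using hn
    subst this
    have : T 0 = 1 := by simp [T]
    rw [this, one_pow, mul_one, ser_coeff_zero]
    exact (states_closed L hL).2.2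
  | succ N ih =>
    intro L hL n hn
    have hrew : ser L * (T (N+1))^5 =
        (expand R 2 (ser (ev (m5 L))) + X * expand R 2 (ser (od (m5 L)))) *
          expand R 2 ((T N)^5) := by
      rw [← ser_split, ser_m5, T_succ', map_pow]; ring
    rw [hrew]
    obtain ⟨h1, h2, -⟩ := states_closed L hL
    rcases Nat.even_or_odd' n with ⟨k, rfl | rfl⟩
    · rw [coeff_split_even]
      exact ih _ h1 k (by rw [pow_succ] at hn; omega)
    · rw [coeff_split_odd]
      exact ih _ h2 k (by rw [pow_succ] at hn; omega)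

/-! ### the congruence `T^16 (1-X)^16 = (1 - X^(2^N))^16` modulo 32 -/

lemma pow32 (Y : R[X]) : (1 - Y)^32 = (1 - Y^2)^16 := by
  have h32 : (32 : R[X]) = 0 := by
    have h1 : (C (32 : R) : R[X]) = 32 := map_ofNat C 32
    have h0 : (32 : R) = 0 := by decide
    rw [← h1, h0, map_zero]
  have hs : ∀ A Z : R[X], (A + 2*Z)^2 = A^2 + 4*(A*Z+Z^2) := by intro A Z; ring
  have hs4 : ∀ A Z : R[X], (A + 4*Z)^2 = A^2 + 8*(A*Z+2*Z^2) := by intro A Z; ring
  have hs8 : ∀ A Z : R[X], (A + 8*Z)^2 = A^2 + 16*(A*Z+4*Z^2) := by intro A Z; ring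
  have hs16 : ∀ A Z : R[X], (A + 16*Z)^2 = A^2 + 32*(A*Z+8*Z^2) := by intro A Z; ring
  have h1 : (1 - Y)^2 = (1 - Y^2) + 2*(Y^2 - Y) := by ring
  have e : (1 - Y)^32 = (((((1 - Y)^2)^2)^2)^2)^2 := by
    simp only [← pow_mul]
  rw [e, h1, hs, hs4, hs8, hs16, h32, zero_mul, add_zero]
  simp only [← pow_mul]

lemma T_pow (N : ℕ) : (T N)^16 * (1 - X)^16 = (1 - X^(2^N))^16 := by
  induction N with
  | zero => simp [T]
  | succ N ih =>
    have : T (N+1) = T N * (1 - X^(2^N)) := by
      unfold T; rw [Finset.prod_range_succ]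
    rw [this, mul_pow]
    calc (T N)^16 * (1 - X^(2^N))^16 * (1 - X)^16 = ((T N)^16 * (1 - X)^16) * (1 - X^(2^N))^16 := by
          ring
      _ = (1 - X^(2^N))^32 := by rw [ih]; ring
      _ = (1 - (X^(2^N))^2)^16 := pow32 _
      _ = (1 - X^(2^(N+1)))^16 := by rw [← pow_mul, ← pow_succ]

/-! ### the power series -/

/-- the partition generating function with `N` part sizes, over `R` -/
noncomputable def B (N : ℕ) : PowerSeries R :=
  ∏ i ∈ Finset.range N, PowerSeries.mk (fun j : ℕ => if 2 ^ i ∣ j then (1 : R) else 0)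

lemma geom (d : ℕ) (hd : 0 < d) :
    PowerSeries.mk (fun j : ℕ => if d ∣ j then (1 : R) else 0) * (((1 - X^d : R[X])) : PowerSeries R)
      = 1 := by
  ext n
  rw [Polynomial.coe_sub, Polynomial.coe_one, Polynomial.coe_pow, Polynomial.coe_X, mul_sub,
    mul_one, map_sub, PowerSeries.coeff_mk, PowerSeries.coeff_mul_X_pow', PowerSeries.coeff_one]
  by_cases hn : d ≤ n
  · rw [if_pos hn, PowerSeries.coeff_mk]
    have : d ∣ n - d ↔ d ∣ n := by
      constructor
      · intro h
        have := Nat.dvd_add h (dvd_refl d)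
        rwa [Nat.sub_add_cancel hn] at this
      · intro h; exact Nat.dvd_sub h (dvd_refl d)
    simp only [this, sub_self]
    rw [if_neg (by omega)]
  · rw [if_neg hn, sub_zero]
    push Not at hn
    by_cases h0 : n = 0
    · subst h0; simp
    · rw [if_neg h0, if_neg]
      intro h
      exact absurd (Nat.le_of_dvd (Nat.pos_of_ne_zero h0) h) (by omega)

lemma B_mul_T (N : ℕ) : B N * ((T N : R[X]) : PowerSeries R) = 1 := by
  induction N with
  | zero => simp [B, T]
  | succ N ih =>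
    have h1 : B (N+1) = B N * PowerSeries.mk (fun j : ℕ => if 2 ^ N ∣ j then (1 : R) else 0) := by
      unfold B; rw [Finset.prod_range_succ]
    have h2 : T (N+1) = T N * (1 - X^(2^N)) := by
      unfold T; rw [Finset.prod_range_succ]
    rw [h1, h2, Polynomial.coe_mul]
    calc B N * PowerSeries.mk (fun j : ℕ => if 2 ^ N ∣ j then (1 : R) else 0) *
          ((T N : PowerSeries R) * ((1 - X^(2^N) : R[X]) : PowerSeries R))
        = (B N * (T N : PowerSeries R)) *
          (PowerSeries.mk (fun j : ℕ => if 2 ^ N ∣ j then (1 : R) else 0) *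
            ((1 - X^(2^N) : R[X]) : PowerSeries R)) := by ring
      _ = 1 := by rw [ih, geom _ (by positivity), one_mul]

lemma B_pow (N : ℕ) : (B N)^11 * (((1 - X^(2^N))^16 : R[X]) : PowerSeries R) =
    (((1 - X)^16 * (T N)^5 : R[X]) : PowerSeries R) := by
  have h := B_mul_T N
  rw [← T_pow N]
  simp only [Polynomial.coe_mul, Polynomial.coe_pow]
  calc B N ^ 11 * ((T N : PowerSeries R)^16 * ((1 - X : R[X]) : PowerSeries R)^16)
      = (B N * (T N : PowerSeries R))^11 * (((1 - X : R[X]) : PowerSeries R)^16 *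
          (T N : PowerSeries R)^5) := by ring
    _ = _ := by rw [h, one_pow, one_mul]

/-- the initial state is `(1 - X)^16` -/
lemma start_mem : m1 0 (m5 (m5 (m5 [1]))) ∈ states := by decide +kernel

lemma start_ser : ser (m1 0 (m5 (m5 (m5 [1])))) = (1 - X)^16 := by
  rw [ser_m1, ser_m5, ser_m5, ser_m5]
  simp only [ser, map_one, mul_zero, add_zero, mul_one, map_zero, sub_zero]
  ring

lemma pow_trunc (N n : ℕ) (hn : n < 2^N) (A : PowerSeries R) :
    PowerSeries.coeff n (A * (((1 - X^(2^N))^16 : R[X]) : PowerSeries R)) =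
      PowerSeries.coeff n A := by
  have h1 : ∃ q : R[X], (1 - X^(2^N))^16 = 1 + q * X^(2^N) := by
    have : (X^(2^N) : R[X]) ∣ (1 - X^(2^N))^16 - 1^16 := by
      have h2 := sub_dvd_pow_sub_pow (1 - X^(2^N) : R[X]) 1 16
      refine dvd_trans ?_ h2
      exact ⟨-1, by ring⟩
    obtain ⟨q, hq⟩ := this
    exact ⟨q, by linear_combination hq⟩
  obtain ⟨q, hq⟩ := h1
  rw [hq, Polynomial.coe_add, Polynomial.coe_one, mul_add, mul_one, map_add, Polynomial.coe_mul,
    Polynomial.coe_pow, Polynomial.coe_X, ← mul_assoc, PowerSeries.coeff_mul_X_pow',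
    if_neg (by omega), add_zero]

theorem coeff_ne (N n : ℕ) (hn : n < 2^N) : PowerSeries.coeff n ((B N)^11) ≠ 0 := by
  rw [← pow_trunc N n hn, B_pow, Polynomial.coeff_coe, ← start_ser]
  exact key N _ start_mem n hn

/-- the statement over `ℕ` -/
theorem main (n : ℕ) :
    padicValNat 2 (PowerSeries.coeff n
      ((∏ i ∈ Finset.range (n + 1),
        PowerSeries.mk (fun j : ℕ => if 2 ^ i ∣ j then (1 : ℕ) else 0)) ^ 11)) ≤ 4 := by
  by_contra hcon
  push Not at hcon
  set c := PowerSeries.coeff n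
      ((∏ i ∈ Finset.range (n + 1),
        PowerSeries.mk (fun j : ℕ => if 2 ^ i ∣ j then (1 : ℕ) else 0)) ^ 11) with hc
  have h1 : 2^5 ∣ c := by
    have h2 : 2^(padicValNat 2 c) ∣ c := pow_padicValNat_dvd
    exact dvd_trans (pow_dvd_pow 2 hcon) h2
  have h2 : ((c : ℕ) : R) = 0 := by
    rw [ZMod.natCast_eq_zero_iff]
    exact h1
  have h3 : ((c : ℕ) : R) = PowerSeries.coeff n ((B (n+1))^11) := by
    have h4 : PowerSeries.map (Nat.castRingHom R)
        ((∏ i ∈ Finset.range (n + 1),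
          PowerSeries.mk (fun j : ℕ => if 2 ^ i ∣ j then (1 : ℕ) else 0)) ^ 11) = (B (n+1))^11 := by
      rw [map_pow, map_prod]
      unfold B
      congr 1
      apply Finset.prod_congr rfl
      intro i _
      ext j
      simp only [PowerSeries.coeff_map, PowerSeries.coeff_mk]
      split_ifs <;> simp
    rw [← h4, PowerSeries.coeff_map]
    rfl
  rw [h3] at h2
  exact coeff_ne (n+1) n (Nat.lt_two_pow_self.trans (Nat.pow_lt_pow_right (by norm_num) (by omega))) h2

end Run7.h928.Bin
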