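import Mathlib

/-!
# Digit expansions

Expansions `f / g = a_0 + a_1 π + a_2 π^2 + ...` in a commutative ring in which every class modulo
`π` contains exactly one of the digits `0, 1, ..., N - 1`.
-/

set_option autoImplicit false

namespace Run7.h928

open Finset

/-- Every fraction `f / g` with `g` invertible modulo `π` has a digit expansion. -/
theorem exists_digits {R : Type*} [CommRing R] (N : ℕ) (π : R)
    (hrep : ∀ x : R, ∃ k : Fin N, π ∣ x - ((k : ℕ) : R)) (f g h : R) (hgh : π ∣ g * h - 1) :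
    ∃ a : ℕ → Fin N, ∀ n : ℕ, π ^ n ∣ g * (∑ i ∈ range n, ((a i : ℕ) : R) * π ^ i) - f := by
  classical
  choose dig hdig using hrep
  have hstep : ∀ c : R, ∃ c' : R, c - g * ((dig (h * c) : ℕ) : R) = π * c' := by
    intro c
    have h1 : π ∣ g * (h * c - ((dig (h * c) : ℕ) : R)) := Dvd.dvd.mul_left (hdig (h * c)) g
    have h2 : π ∣ (g * h - 1) * c := Dvd.dvd.mul_right hgh c
    have h3 := dvd_sub h1 h2
    rw [show g * (h * c - ((dig (h * c) : ℕ) : R)) - (g * h - 1) * c =
      c - g * ((dig (h * c) : ℕ) : R) by ring] at h3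
    obtain ⟨c', hc'⟩ := h3
    exact ⟨c', hc'⟩
  choose nxt hnxt using hstep
  let c : ℕ → R := fun n => Nat.rec f (fun _ x => nxt x) n
  have hc0 : c 0 = f := rfl
  have hcs : ∀ n, c (n + 1) = nxt (c n) := fun n => rfl
  refine ⟨fun n => dig (h * c n), ?_⟩
  have key : ∀ n, f = g * (∑ i ∈ range n, ((dig (h * c i) : ℕ) : R) * π ^ i) + π ^ n * c n := by
    intro n
    induction n with
    | zero => simp [hc0]
    | succ n ih =>
      rw [sum_range_succ, hcs]
      have := hnxt (c n)
      calc f = g * (∑ i ∈ range n, ((dig (h * c i) : ℕ) : R) * π ^ i) + π ^ n * c n := ih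
        _ = g * (∑ i ∈ range n, ((dig (h * c i) : ℕ) : R) * π ^ i) +
            π ^ n * (g * ((dig (h * c n) : ℕ) : R) + π * nxt (c n)) := by rw [← this]; ring
        _ = _ := by ring
  intro n
  refine ⟨-c n, ?_⟩
  linear_combination (-1 : R) * key n

/-- Digit strings of length `n` are determined by their value modulo `π ^ n`. -/
theorem digits_unique {R : Type*} [CommRing R] {N : ℕ} (π : R)
    (hinj : ∀ k l : Fin N, π ∣ ((k : ℕ) : R) - ((l : ℕ) : R) → k = l)
    (hπ : ∀ x : R, π * x = 0 → x = 0) (a b : ℕ → Fin N) (n : ℕ)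
    (h : π ^ n ∣ (∑ i ∈ range n, ((a i : ℕ) : R) * π ^ i) -
      (∑ i ∈ range n, ((b i : ℕ) : R) * π ^ i)) :
    ∀ i < n, a i = b i := by
  induction n generalizing a b with
  | zero => intro i hi; omega
  | succ n ih =>
    rw [sum_range_succ', sum_range_succ'] at h
    simp only [pow_zero, mul_one] at h
    have e : ∀ c : ℕ → Fin N, (∑ k ∈ range n, ((c (k + 1) : ℕ) : R) * π ^ (k + 1)) =
        π * ∑ k ∈ range n, ((c (k + 1) : ℕ) : R) * π ^ k := by
      intro c
      rw [mul_sum]
      apply sum_congr rfl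
      intro k _
      ring
    rw [e, e] at h
    have h0 : a 0 = b 0 := by
      apply hinj
      have h1 : π ∣ π ^ (n + 1) := dvd_pow_self π (Nat.succ_ne_zero n)
      have h2 := h1.trans h
      have h3 : π ∣ π * (∑ k ∈ range n, ((a (k + 1) : ℕ) : R) * π ^ k) -
          π * (∑ k ∈ range n, ((b (k + 1) : ℕ) : R) * π ^ k) :=
        dvd_sub (dvd_mul_right _ _) (dvd_mul_right _ _)
      have h4 := dvd_sub h2 h3
      convert h4 using 1
      ring
    have h5 : π ^ n ∣ (∑ k ∈ range n, ((a (k + 1) : ℕ) : R) * π ^ k) -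
        (∑ k ∈ range n, ((b (k + 1) : ℕ) : R) * π ^ k) := by
      rw [h0] at h
      obtain ⟨z, hz⟩ := h
      refine ⟨z, ?_⟩
      have h6 : π * ((∑ k ∈ range n, ((a (k + 1) : ℕ) : R) * π ^ k) -
        (∑ k ∈ range n, ((b (k + 1) : ℕ) : R) * π ^ k) - π ^ n * z) = 0 := by
        linear_combination hz
      have h7 := hπ _ h6
      linear_combination h7
    have h8 := ih (fun k => a (k + 1)) (fun k => b (k + 1)) h5
    intro i hi
    rcases i with _ | i
    · exact h0
    · exact h8 i (by omega)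

/-- The value of a word, extended by zeros. -/
theorem sum_fin_eq_sum_range {R : Type*} [CommRing R] {N : ℕ} (π : R) (n : ℕ) (a : ℕ → Fin N) :
    (∑ i : Fin n, ((a i : ℕ) : R) * π ^ (i : ℕ)) = ∑ i ∈ range n, ((a i : ℕ) : R) * π ^ i := by
  rw [Finset.sum_range]

/-- Words of length `n` correspond to residue classes modulo `π ^ n`. -/
theorem word_bijective {R : Type*} [CommRing R] (N : ℕ) (hN : 0 < N) (π : R)
    (hrep : ∀ x : R, ∃ k : Fin N, π ∣ x - ((k : ℕ) : R))
    (hinj : ∀ k l : Fin N, π ∣ ((k : ℕ) : R) - ((l : ℕ) : R) → k = l)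
    (hπ : ∀ x : R, π * x = 0 → x = 0) (n : ℕ) :
    Function.Bijective (fun w : Fin n → Fin N =>
      Ideal.Quotient.mk (Ideal.span {π ^ n}) (∑ i : Fin n, ((w i : ℕ) : R) * π ^ (i : ℕ))) := by
  constructor
  · intro w w' hww
    simp only at hww
    rw [Ideal.Quotient.eq, Ideal.mem_span_singleton] at hww
    let a : ℕ → Fin N := fun i => if h : i < n then w ⟨i, h⟩ else ⟨0, hN⟩
    let b : ℕ → Fin N := fun i => if h : i < n then w' ⟨i, h⟩ else ⟨0, hN⟩
    have ha : ∀ i : Fin n, a i = w i := by intro i; simp [a]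
    have hb : ∀ i : Fin n, b i = w' i := by intro i; simp [b]
    have e1 : (∑ i : Fin n, ((w i : ℕ) : R) * π ^ (i : ℕ)) =
        ∑ i ∈ range n, ((a i : ℕ) : R) * π ^ i := by
      rw [← sum_fin_eq_sum_range]
      simp only [ha]
    have e2 : (∑ i : Fin n, ((w' i : ℕ) : R) * π ^ (i : ℕ)) =
        ∑ i ∈ range n, ((b i : ℕ) : R) * π ^ i := by
      rw [← sum_fin_eq_sum_range]
      simp only [hb]
    rw [e1, e2] at hww
    have h := digits_unique π hinj hπ a b n hww
    funext i
    rw [← ha, ← hb]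
    exact h i i.isLt
  · intro q
    obtain ⟨x, rfl⟩ := Ideal.Quotient.mk_surjective q
    obtain ⟨a, ha⟩ := exists_digits N π hrep x 1 1 (by simp)
    refine ⟨fun i => a i, ?_⟩
    simp only
    rw [Ideal.Quotient.eq, Ideal.mem_span_singleton, sum_fin_eq_sum_range]
    have := ha n
    rwa [one_mul] at this

end Run7.h928
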