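import Mathlib

/-!
# Kanold's bound for the Jacobsthal function

Among any `2 ^ ω(N)` consecutive terms of the progression `a + x b`, `gcd(a, b) = 1`, one is coprime
to `N`.
-/

set_option autoImplicit false

namespace Run7.h928

open Finset Polynomial

/-- The shift operator on sequences. -/
noncomputable def shiftOp : (ℕ → ℂ) →ₗ[ℂ] (ℕ → ℂ) where
  toFun f := fun x => f (x + 1)
  map_add' _ _ := rfl
  map_smul' _ _ := rfl

lemma shiftOp_pow (k : ℕ) (f : ℕ → ℂ) (x : ℕ) : (shiftOp ^ k) f x = f (x + k) := by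
  induction k generalizing f with
  | zero => simp
  | succ k ih =>
    rw [pow_succ, Module.End.mul_apply, ih]
    show f (x + k + 1) = f (x + (k + 1))
    rw [add_assoc]

lemma aeval_shiftOp (q : ℂ[X]) (f : ℕ → ℂ) (x : ℕ) :
    (aeval shiftOp q) f x = ∑ k ∈ range (q.natDegree + 1), q.coeff k * f (x + k) := by
  rw [aeval_eq_sum_range]
  rw [LinearMap.sum_apply, Finset.sum_apply]
  apply sum_congr rfl
  intro k _
  rw [LinearMap.smul_apply, Pi.smul_apply, shiftOp_pow, smul_eq_mul]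

/-- A product of `r` factors `1 - u z ^ x` satisfies a linear recurrence of order `2 ^ r`. -/
lemma exists_recurrence (r : ℕ) (u z : ℕ → ℂ) (hz : ∀ i, z i ≠ 0) :
    ∃ q : ℂ[X], q.Monic ∧ q.natDegree = 2 ^ r ∧
      (aeval shiftOp q) (fun x => ∏ i ∈ range r, (1 - u i * z i ^ x)) = 0 := by
  induction r with
  | zero =>
    refine ⟨X - C 1, monic_X_sub_C 1, by rw [natDegree_X_sub_C, pow_zero], ?_⟩
    funext x
    simp [shiftOp]
  | succ r ih =>
    obtain ⟨q, hq, hdeg, hrec⟩ := ih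
    set f : ℕ → ℂ := fun x => ∏ i ∈ range r, (1 - u i * z i ^ x) with hf
    set g : ℕ → ℂ := fun x => u r * z r ^ x * f x with hg
    refine ⟨q.scaleRoots (z r) * q, ?_, ?_, ?_⟩
    · exact ((monic_scaleRoots_iff (z r)).2 hq).mul hq
    · rw [Monic.natDegree_mul ((monic_scaleRoots_iff (z r)).2 hq) hq, natDegree_scaleRoots, hdeg]
      ring
    · have h1 : (fun x => ∏ i ∈ range (r + 1), (1 - u i * z i ^ x)) = f - g := by
        funext x
        simp only [prod_range_succ, Pi.sub_apply, hf, hg]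
        ring
      have h2 : (aeval shiftOp (q.scaleRoots (z r))) g = 0 := by
        funext x
        rw [aeval_shiftOp, natDegree_scaleRoots]
        have h3 : ∀ k ∈ range (q.natDegree + 1),
            (q.scaleRoots (z r)).coeff k * g (x + k) =
            u r * z r ^ (x + q.natDegree) * (q.coeff k * f (x + k)) := by
          intro k hk
          rw [coeff_scaleRoots, hg]
          have hk' : k ≤ q.natDegree := by simpa [Nat.lt_succ_iff] using hk
          have e : z r ^ (x + q.natDegree) = z r ^ (q.natDegree - k) * z r ^ (x + k) := by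
            rw [← pow_add]
            congr 1
            omega
          rw [e]
          ring
        rw [sum_congr rfl h3, ← mul_sum]
        have h4 := congrFun hrec x
        rw [aeval_shiftOp] at h4
        rw [h4]
        simp
      have h5 : (aeval shiftOp (q.scaleRoots (z r) * q)) f = 0 := by
        rw [map_mul, Module.End.mul_apply, hrec, map_zero]
      have h6 : (aeval shiftOp (q.scaleRoots (z r) * q)) g = 0 := by
        rw [mul_comm, map_mul, Module.End.mul_apply, h2, map_zero]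
      rw [h1, map_sub, h5, h6, sub_zero]

/-- If such a product vanishes at `2 ^ r` consecutive places, it vanishes everywhere later. -/
lemma vanishes_of_consecutive (r : ℕ) (u z : ℕ → ℂ) (hz : ∀ i, z i ≠ 0)
    (h0 : ∀ x < 2 ^ r, ∏ i ∈ range r, (1 - u i * z i ^ x) = 0) :
    ∀ x, ∏ i ∈ range r, (1 - u i * z i ^ x) = 0 := by
  obtain ⟨q, hq, hdeg, hrec⟩ := exists_recurrence r u z hz
  intro x
  induction x using Nat.strong_induction_on with
  | _ x ih =>
    by_cases hx : x < 2 ^ r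
    · exact h0 x hx
    · push Not at hx
      have h1 := congrFun hrec (x - 2 ^ r)
      rw [aeval_shiftOp, sum_range_succ, hdeg] at h1
      have h2 : ∀ k ∈ range (2 ^ r), q.coeff k *
          (fun x => ∏ i ∈ range r, (1 - u i * z i ^ x)) (x - 2 ^ r + k) = 0 := by
        intro k hk
        have hk' := mem_range.1 hk
        simp only
        rw [ih (x - 2 ^ r + k) (by omega), mul_zero]
      rw [sum_eq_zero h2, zero_add] at h1
      have h3 : q.coeff (2 ^ r) = 1 := by
        rw [← hdeg]; exact hq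
      rw [h3, one_mul] at h1
      have h4 : x - 2 ^ r + 2 ^ r = x := Nat.sub_add_cancel hx
      simp only [h4] at h1
      exact h1

lemma exists_coprime_shift (N : ℕ) (hN : N ≠ 0) (a b : ℤ) (hab : IsCoprime a b) :
    ∃ x : ℕ, IsCoprime (a + x * b) (N : ℤ) := by
  classical
  let x : ℕ := ∏ p ∈ N.primeFactors.filter (fun p : ℕ => ¬ ((p : ℤ) ∣ a)), p
  refine ⟨x, ?_⟩
  rw [Int.isCoprime_iff_gcd_eq_one]
  by_contra hne
  obtain ⟨p, hp, hpd⟩ := Nat.exists_prime_and_dvd hne
  have h1 : (p : ℤ) ∣ a + x * b := (Int.natCast_dvd_natCast.2 hpd).trans (Int.gcd_dvd_left _ _)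
  have h2 : (p : ℤ) ∣ (N : ℤ) := (Int.natCast_dvd_natCast.2 hpd).trans (Int.gcd_dvd_right _ _)
  have h2' : p ∣ N := Int.natCast_dvd_natCast.1 h2
  have hpp : Prime (p : ℤ) := Nat.prime_iff_prime_int.1 hp
  by_cases ha : (p : ℤ) ∣ a
  · have h3 : (p : ℤ) ∣ (x : ℤ) * b := by
      have := dvd_sub h1 ha
      rwa [add_sub_cancel_left] at this
    rcases hpp.dvd_or_dvd h3 with h | h
    · have h4 : p ∣ x := Int.natCast_dvd_natCast.1 h
      obtain ⟨q, hq, hpq⟩ := (Prime.dvd_finsetProd_iff hp.prime _).1 h4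
      rw [mem_filter] at hq
      have hqp : q.Prime := Nat.prime_of_mem_primeFactors hq.1
      have : p = q := (Nat.prime_dvd_prime_iff_eq hp hqp).1 hpq
      exact hq.2 (this ▸ ha)
    · have h5 := hab.isUnit_of_dvd' ha h
      exact hpp.not_isUnit h5
  · have h3 : p ∣ x := by
      apply dvd_prod_of_mem (fun p => p)
      rw [mem_filter]
      exact ⟨Nat.mem_primeFactors.2 ⟨hp, h2', hN⟩, ha⟩
    have h4 : (p : ℤ) ∣ (x : ℤ) * b := Dvd.dvd.mul_right (Int.natCast_dvd_natCast.2 h3) b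
    exact ha ((dvd_add_left h4).1 h1)

/-- Kanold's bound. -/
theorem exists_coprime_in_interval (N : ℕ) (hN : N ≠ 0) (a b : ℤ) (hab : IsCoprime a b) :
    ∃ x : ℕ, x < 2 ^ N.primeFactors.card ∧ IsCoprime (a + x * b) (N : ℤ) := by
  classical
  by_contra hcon
  push Not at hcon
  set r := N.primeFactors.card with hr
  let e := N.primeFactors.equivFin
  -- primes as a sequence
  let p : ℕ → ℕ := fun i => if h : i < r then ((e.symm ⟨i, h⟩ : N.primeFactors) : ℕ) else 1
  have hp : ∀ i, i < r → (p i).Prime ∧ p i ∣ N := by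
    intro i hi
    simp only [p, hi, dite_true]
    have := (e.symm ⟨i, hi⟩).2
    exact ⟨Nat.prime_of_mem_primeFactors this, Nat.dvd_of_mem_primeFactors this⟩
  have hp0 : ∀ i, p i ≠ 0 := by
    intro i
    by_cases hi : i < r
    · exact (hp i hi).1.ne_zero
    · simp [p, hi]
  have hpsurj : ∀ q : ℕ, q.Prime → q ∣ N → ∃ i, i < r ∧ p i = q := by
    intro q hq hqN
    have hmem : q ∈ N.primeFactors := Nat.mem_primeFactors.2 ⟨hq, hqN, hN⟩
    have hlt : ((e ⟨q, hmem⟩ : Fin _) : ℕ) < r := (e ⟨q, hmem⟩).isLt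
    refine ⟨e ⟨q, hmem⟩, hlt, ?_⟩
    simp [p, hlt]
  let ζ : ℕ → ℂ := fun i => Complex.exp (2 * Real.pi * Complex.I / (p i : ℂ))
  have hζ : ∀ i, IsPrimitiveRoot (ζ i) (p i) := fun i => Complex.isPrimitiveRoot_exp _ (hp0 i)
  have hζ0 : ∀ i, ζ i ≠ 0 := fun i => (hζ i).ne_zero (hp0 i)
  let z : ℕ → ℂ := fun i => ζ i ^ b
  let u : ℕ → ℂ := fun i => ζ i ^ a
  have hz : ∀ i, z i ≠ 0 := fun i => zpow_ne_zero _ (hζ0 i)
  have huz : ∀ i (x : ℕ), u i * z i ^ x = ζ i ^ (a + x * b) := by
    intro i x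
    simp only [u, z]
    rw [zpow_add₀ (hζ0 i), mul_comm (x : ℤ) b, zpow_mul, zpow_natCast]
  have hfac : ∀ i (x : ℕ), (1 - u i * z i ^ x = 0 ↔ (p i : ℤ) ∣ a + x * b) := by
    intro i x
    rw [huz, sub_eq_zero, eq_comm, (hζ i).zpow_eq_one_iff_dvd]
  have hprod : ∀ x : ℕ, (∏ i ∈ range r, (1 - u i * z i ^ x) = 0 ↔
      ¬ IsCoprime (a + x * b) (N : ℤ)) := by
    intro x
    rw [prod_eq_zero_iff]
    constructor
    · rintro ⟨i, hi, h⟩ hc
      rw [hfac] at h
      have h1 := hp i (mem_range.1 hi)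
      have h2 : (p i : ℤ) ∣ (N : ℤ) := Int.natCast_dvd_natCast.2 h1.2
      have h3 := hc.isUnit_of_dvd' h h2
      exact (Nat.prime_iff_prime_int.1 h1.1).not_isUnit h3
    · intro hc
      rw [Int.isCoprime_iff_gcd_eq_one] at hc
      obtain ⟨q, hq, hqd⟩ := Nat.exists_prime_and_dvd hc
      have h1 : (q : ℤ) ∣ a + x * b := (Int.natCast_dvd_natCast.2 hqd).trans (Int.gcd_dvd_left _ _)
      have h2 : (q : ℤ) ∣ (N : ℤ) := (Int.natCast_dvd_natCast.2 hqd).trans (Int.gcd_dvd_right _ _)
      obtain ⟨i, hi, hiq⟩ := hpsurj q hq (Int.natCast_dvd_natCast.1 h2)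
      refine ⟨i, mem_range.2 hi, ?_⟩
      rw [hfac, hiq]
      exact h1
  have hall := vanishes_of_consecutive r u z hz (fun x hx => (hprod x).2 (hcon x hx))
  obtain ⟨x, hx⟩ := exists_coprime_shift N hN a b hab
  exact (hprod x).1 (hall x) hx

end Run7.h928
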