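import Pool.Agent.Run7.h928.Pack
import Pool.Agent.Run7.h928.Digits
import Pool.Agent.Run7.h928.Jacobsthal

/-!
# Short vectors of the lattices `{(f, g) : f ≡ g α mod N^n}`
-/

set_option autoImplicit false

namespace Run7.h928.NAdic

open Finset

/-- The lattice of `α` has a nonzero vector of sup norm at most `m`. -/
def Short (M : ℤ) (α : ℤ ⧸ Ideal.span {M}) (m : ℕ) : Prop :=
  ∃ f g : ℤ, (f ≠ 0 ∨ g ≠ 0) ∧ |f| ≤ m ∧ |g| ≤ m ∧
    Ideal.Quotient.mk (Ideal.span {M}) f = Ideal.Quotient.mk (Ideal.span {M}) g * α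

lemma mk_eq_iff {M : ℤ} (a f g : ℤ) :
    Ideal.Quotient.mk (Ideal.span {M}) f =
      Ideal.Quotient.mk (Ideal.span {M}) g * Ideal.Quotient.mk (Ideal.span {M}) a ↔
      M ∣ g * a - f := by
  rw [← map_mul, eq_comm, Ideal.Quotient.eq, Ideal.mem_span_singleton]

section
variable {M : ℤ} [Fintype (ℤ ⧸ Ideal.span {M})]

/-- For fixed `g` the classes `α` for which `g α` is represented in `[-B, B]`. -/
lemma count_fixed (g B : ℕ) (hg : 1 ≤ g) (hgB : g ≤ B) [DecidableEq (ℤ ⧸ Ideal.span {M})]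
    (A : Finset (ℤ ⧸ Ideal.span {M}))
    (hA : ∀ α ∈ A, ∃ f : ℤ, |f| ≤ B ∧ Ideal.Quotient.mk (Ideal.span {M}) f =
      Ideal.Quotient.mk (Ideal.span {M}) (g : ℤ) * α) : A.card ≤ 3 * B := by
  classical
  set p : ℤ →+ (ℤ ⧸ Ideal.span {M}) := (Ideal.Quotient.mk (Ideal.span {M})).toAddMonoidHom with hp
  set μ : (ℤ ⧸ Ideal.span {M}) →+ (ℤ ⧸ Ideal.span {M}) :=
    AddMonoidHom.mulLeft (Ideal.Quotient.mk (Ideal.span {M}) (g : ℤ)) with hμ
  have hgpos : (0 : ℤ) < g := by exact_mod_cast hg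
  have key := packing p μ (Icc (-(B : ℤ)) B) (Ico 0 (g : ℤ)) (Ico (-(B : ℤ)) (B + g)) (by
      intro q
      obtain ⟨x, rfl⟩ := Ideal.Quotient.mk_surjective q
      refine ⟨x % g, ?_, ?_⟩
      · rw [mem_Ico]
        exact ⟨Int.emod_nonneg _ hgpos.ne', Int.emod_lt_of_pos _ hgpos⟩
      · refine ⟨Ideal.Quotient.mk (Ideal.span {M}) (x / g), ?_⟩
        simp only [hμ, hp, AddMonoidHom.coe_mulLeft, RingHom.toAddMonoidHom_eq_coe,
          AddMonoidHom.coe_coe]
        rw [← map_mul, ← map_sub]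
        congr 1
        have := Int.emod_add_mul_ediv x g
        linarith) (by
      intro f hf t ht
      rw [mem_Icc] at hf
      rw [mem_Ico] at ht ⊢
      constructor
      · linarith [hf.1, ht.1]
      · linarith [hf.2, ht.2])
  have h1 : A.card ≤ ((univ ×ˢ (Icc (-(B : ℤ)) B) : Finset ((ℤ ⧸ Ideal.span {M}) × ℤ)).filter
      (fun x => μ x.1 = p x.2)).card := by
    have h2 : A ⊆ (((univ ×ˢ (Icc (-(B : ℤ)) B) : Finset ((ℤ ⧸ Ideal.span {M}) × ℤ)).filter
      (fun x => μ x.1 = p x.2)).image Prod.fst) := by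
      intro α hα
      obtain ⟨f, hf, h⟩ := hA α hα
      rw [mem_image]
      refine ⟨(α, f), ?_, rfl⟩
      rw [mem_filter, mem_product]
      refine ⟨⟨mem_univ _, ?_⟩, ?_⟩
      · rw [mem_Icc]; exact abs_le.1 hf
      · exact h.symm
    exact (card_le_card h2).trans card_image_le
  have h3 : (Ico (-(B : ℤ)) (B + g)).card = 2 * B + g := by
    rw [Int.card_Ico]
    have : (B : ℤ) + g - -(B : ℤ) = ((2 * B + g : ℕ) : ℤ) := by push_cast; ring
    rw [this, Int.toNat_natCast]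
  omega

/-- At most `3 B ^ 2` classes have a nonzero vector of norm at most `B`. -/
lemma count_short (hM : 0 < M) (hcard : (Fintype.card (ℤ ⧸ Ideal.span {M}) : ℤ) = M) (B : ℕ)
    (A : Finset (ℤ ⧸ Ideal.span {M})) (hA : ∀ α ∈ A, Short M α B) : A.card ≤ 3 * B ^ 2 := by
  classical
  by_cases hB : M ≤ 3 * B ^ 2
  · have h1 : A.card ≤ Fintype.card (ℤ ⧸ Ideal.span {M}) := card_le_univ A
    have h2 : (A.card : ℤ) ≤ 3 * B ^ 2 := by
      calc (A.card : ℤ) ≤ Fintype.card (ℤ ⧸ Ideal.span {M}) := by exact_mod_cast h1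
        _ = M := hcard
        _ ≤ _ := hB
    exact_mod_cast h2
  · push Not at hB
    have hBM : (B : ℤ) < M := by nlinarith [sq_nonneg ((B : ℤ) - 1)]
    let Ag : ℕ → Finset (ℤ ⧸ Ideal.span {M}) := fun g => A.filter (fun α => ∃ f : ℤ, |f| ≤ B ∧
      Ideal.Quotient.mk (Ideal.span {M}) f = Ideal.Quotient.mk (Ideal.span {M}) (g : ℤ) * α)
    have h1 : A ⊆ (Icc 1 B).biUnion Ag := by
      intro α hα
      obtain ⟨f, g, hne, hf, hg, heq⟩ := hA α hα
      have hg0 : g ≠ 0 := by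
        rintro rfl
        have hf0 : f ≠ 0 := by simpa using hne
        rw [map_zero, zero_mul, Ideal.Quotient.eq_zero_iff_mem, Ideal.mem_span_singleton] at heq
        have := Int.le_of_dvd (abs_pos.2 hf0) ((dvd_abs _ _).2 heq)
        linarith
      rw [mem_biUnion]
      refine ⟨g.natAbs, ?_, ?_⟩
      · rw [mem_Icc]
        constructor
        · exact Nat.one_le_iff_ne_zero.2 (Int.natAbs_ne_zero.2 hg0)
        · have : ((g.natAbs : ℕ) : ℤ) ≤ B := by rw [Int.natCast_natAbs]; exact hg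
          exact_mod_cast this
      · rw [mem_filter]
        refine ⟨hα, ?_⟩
        rcases le_or_gt 0 g with h | h
        · refine ⟨f, hf, ?_⟩
          rw [Int.natCast_natAbs, abs_of_nonneg h]
          exact heq
        · refine ⟨-f, by rwa [abs_neg], ?_⟩
          rw [Int.natCast_natAbs, abs_of_neg h, map_neg, map_neg, neg_mul, heq]
    calc A.card ≤ ((Icc 1 B).biUnion Ag).card := card_le_card h1
      _ ≤ ∑ g ∈ Icc 1 B, (Ag g).card := card_biUnion_le
      _ ≤ ∑ _g ∈ Icc 1 B, 3 * B := by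
          apply sum_le_sum
          intro g hg
          rw [mem_Icc] at hg
          apply count_fixed g B hg.1 hg.2
          intro α hα
          exact (mem_filter.1 hα).2
      _ = 3 * B ^ 2 := by
          rw [sum_const, Nat.card_Icc, smul_eq_mul]
          simp only [Nat.add_sub_cancel]
          ring

/-- Thue's lemma. -/
lemma thue (hM : 0 < M) (hcard : (Fintype.card (ℤ ⧸ Ideal.span {M}) : ℤ) = M) (s : ℕ)
    (hs : M < (s + 1) ^ 2) (α : ℤ ⧸ Ideal.span {M}) : Short M α s := by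
  classical
  let D : Finset (ℤ × ℤ) := Icc 0 (s : ℤ) ×ˢ Icc 0 (s : ℤ)
  have hD : D.card = (s + 1) ^ 2 := by
    rw [card_product, Int.card_Icc]
    have : (s : ℤ) + 1 - 0 = ((s + 1 : ℕ) : ℤ) := by push_cast; ring
    rw [this, Int.toNat_natCast]
    ring
  have hlt : (univ : Finset (ℤ ⧸ Ideal.span {M})).card < D.card := by
    rw [card_univ, hD]
    have : (Fintype.card (ℤ ⧸ Ideal.span {M}) : ℤ) < ((s + 1) ^ 2 : ℕ) := by
      rw [hcard]; push_cast; exact hs
    exact_mod_cast this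
  obtain ⟨⟨f, g⟩, hx, ⟨f', g'⟩, hy, hne, heq⟩ := exists_ne_map_eq_of_card_lt_of_maps_to hlt
    (f := fun v : ℤ × ℤ => Ideal.Quotient.mk (Ideal.span {M}) v.1 -
      Ideal.Quotient.mk (Ideal.span {M}) v.2 * α) (fun _ _ => mem_univ _)
  simp only [D, mem_product, mem_Icc] at hx hy
  refine ⟨f - f', g - g', ?_, ?_, ?_, ?_⟩
  · by_contra h
    push Not at h
    apply hne
    rw [sub_eq_zero, sub_eq_zero] at h
    rw [h.1, h.2]
  · rw [abs_le]; constructor <;> linarith [hx.1.1, hx.1.2, hy.1.1, hy.1.2]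
  · rw [abs_le]; constructor <;> linarith [hx.2.1, hx.2.2, hy.2.1, hy.2.2]
  · simp only at heq
    rw [map_sub, map_sub]
    linear_combination heq

end

/-- Existence of `c ≡ b` modulo `a` with `|c| < |a|` and `e * c ≤ 0`. -/
lemma exists_residue_sign (a b e : ℤ) (ha : a ≠ 0) :
    ∃ t : ℤ, |b + t * a| < |a| ∧ e * (b + t * a) ≤ 0 := by
  rcases le_or_gt 0 e with he | he
  · -- want b + t a ≤ 0
    refine ⟨(-b) / a, ?_⟩
    have h1 := Int.emod_add_mul_ediv (-b) a
    have h2 := Int.emod_nonneg (-b) ha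
    have h3 := Int.emod_lt_abs (-b) ha
    have h4 : b + (-b) / a * a = -((-b) % a) := by linarith [mul_comm a ((-b) / a)]
    rw [h4]
    constructor
    · rw [abs_neg, abs_of_nonneg h2]; exact h3
    · nlinarith
  · refine ⟨-(b / a), ?_⟩
    have h1 := Int.emod_add_mul_ediv b a
    have h2 := Int.emod_nonneg b ha
    have h3 := Int.emod_lt_abs b ha
    have h4 : b + -(b / a) * a = b % a := by linarith [mul_comm a (b / a)]
    rw [h4]
    constructor
    · rw [abs_of_nonneg h2]; exact h3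
    · nlinarith

/-- A second basis vector: if `v = (f₁, g₁)` is a primitive vector of norm `ℓ` with `ℓ² ≤ M`, there
is `(f₂, g₂)` in the lattice with `gcd(g₁, g₂) = 1` and norm at most `M / ℓ`. -/
lemma second_vector (M a f₁ g₁ k : ℤ) (ℓ : ℤ) (hℓ : 0 < ℓ) (hmax : max |f₁| |g₁| = ℓ)
    (hℓM : ℓ ^ 2 ≤ M) (hf₁ : f₁ = g₁ * a - k * M) (hk : IsCoprime g₁ k) :
    ∃ f₂ g₂ : ℤ, M ∣ g₂ * a - f₂ ∧ IsCoprime g₁ g₂ ∧ |f₂| * ℓ ≤ M ∧ |g₂| * ℓ ≤ M := by
  obtain ⟨x, y, hxy⟩ := hk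
  -- base solution (g, k) = (-y, x)
  have hgen : ∀ t : ℤ, ∃ f₂ g₂ : ℤ, f₂ = (-y * a - x * M) + t * f₁ ∧ g₂ = -y + t * g₁ ∧
      M ∣ g₂ * a - f₂ ∧ IsCoprime g₁ g₂ ∧ f₁ * g₂ - g₁ * f₂ = M := by
    intro t
    refine ⟨_, _, rfl, rfl, ?_, ?_, ?_⟩
    · refine ⟨x + t * k, ?_⟩
      rw [hf₁]; ring
    · refine ⟨x + k * t, -k, ?_⟩
      linear_combination hxy
    · linear_combination M * hxy + (-y + t * g₁) * hf₁ - g₁ * t * hf₁
  have hMpos : 0 < M := by nlinarith
  have hf1 : |f₁| ≤ ℓ := hmax ▸ le_max_left _ _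
  have hg1 : |g₁| ≤ ℓ := hmax ▸ le_max_right _ _
  rcases max_choice |f₁| |g₁| with hc | hc
  · -- |f₁| = ℓ
    rw [hmax] at hc
    have hf0 : f₁ ≠ 0 := by
      rintro rfl
      simp at hc
      omega
    obtain ⟨t, ht1, ht2⟩ := exists_residue_sign f₁ (-y * a - x * M) g₁ hf0
    obtain ⟨f₂, g₂, hf₂, hg₂, hdvd, hcop, hdet⟩ := hgen t
    rw [← hf₂] at ht1 ht2
    refine ⟨f₂, g₂, hdvd, hcop, ?_, ?_⟩
    · rw [← hc] at ht1
      nlinarith [abs_nonneg f₂]
    · have h1 : |f₁ * g₂| ≤ M := by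
        have h2 : f₁ * g₂ = M + g₁ * f₂ := by linarith
        rw [h2, abs_le]
        have h3 : |g₁ * f₂| ≤ ℓ ^ 2 := by
          rw [abs_mul]
          have := abs_nonneg f₂
          have := abs_nonneg g₁
          rw [← hc] at ht1
          nlinarith
        have h4 := (abs_le.1 h3).1
        constructor <;> linarith
      rw [abs_mul, ← hc] at h1
      linarith [mul_comm |g₂| ℓ]
  · rw [hmax] at hc
    have hg0 : g₁ ≠ 0 := by
      rintro rfl
      simp at hc
      omega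
    obtain ⟨t, ht1, ht2⟩ := exists_residue_sign g₁ (-y) (-f₁) hg0
    obtain ⟨f₂, g₂, hf₂, hg₂, hdvd, hcop, hdet⟩ := hgen t
    rw [← hg₂] at ht1 ht2
    refine ⟨f₂, g₂, hdvd, hcop, ?_, ?_⟩
    · have h1 : |g₁ * f₂| ≤ M := by
        have h2 : g₁ * f₂ = f₁ * g₂ - M := by linarith
        rw [h2, abs_le]
        have h3 : |f₁ * g₂| ≤ ℓ ^ 2 := by
          rw [abs_mul]
          have := abs_nonneg g₂
          have := abs_nonneg f₁
          rw [← hc] at ht1
          nlinarith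
        have h4 := (abs_le.1 h3).2
        constructor <;> linarith
      rw [abs_mul, ← hc] at h1
      linarith [mul_comm |f₂| ℓ]
    · rw [← hc] at ht1
      nlinarith [abs_nonneg g₂]

/-- The main geometric statement. -/
theorem exists_good (N : ℕ) (hN : 2 ≤ N) (M : ℤ) (hM : 0 < M)
    [Fintype (ℤ ⧸ Ideal.span {M})] (hcard : (Fintype.card (ℤ ⧸ Ideal.span {M}) : ℤ) = M)
    (α : ℤ ⧸ Ideal.span {M}) (ℓ : ℕ) (hℓ : Short M α ℓ) (hmin : ∀ m < ℓ, ¬ Short M α m) :
    0 < ℓ ∧ ∃ f g : ℤ, 0 < g ∧ IsCoprime g (N : ℤ) ∧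
      Ideal.Quotient.mk (Ideal.span {M}) f = Ideal.Quotient.mk (Ideal.span {M}) g * α ∧
      max |f| |g| * ℓ ≤ 2 ^ N.primeFactors.card * M := by
  classical
  have hℓ0 : 0 < ℓ := by
    rcases Nat.eq_zero_or_pos ℓ with h | h
    · exfalso
      obtain ⟨f, g, hne, hf, hg, -⟩ := hℓ
      rw [h] at hf hg
      have hf' : f = 0 := by
        have := le_antisymm hf (abs_nonneg f)
        simpa using this
      have hg' : g = 0 := by
        have := le_antisymm hg (abs_nonneg g)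
        simpa using this
      rcases hne with h1 | h1
      · exact h1 hf'
      · exact h1 hg'
    · exact h
  refine ⟨hℓ0, ?_⟩
  -- `ℓ² ≤ M`
  have hℓM : (ℓ : ℤ) ^ 2 ≤ M := by
    by_contra hcon
    push Not at hcon
    have h1 := thue hM hcard (ℓ - 1) (by
      have : ((ℓ - 1 : ℕ) : ℤ) + 1 = ℓ := by
        have : ℓ - 1 + 1 = ℓ := Nat.sub_add_cancel hℓ0
        exact_mod_cast this
      rw [this]; exact hcon) α
    exact hmin (ℓ - 1) (by omega) h1
  obtain ⟨f₁, g₁, hne, hf₁, hg₁, heq⟩ := hℓ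
  obtain ⟨a, rfl⟩ := Ideal.Quotient.mk_surjective α
  -- norm exactly ℓ
  have hmax : max |f₁| |g₁| = ℓ := by
    apply le_antisymm (max_le hf₁ hg₁)
    by_contra hcon
    push Not at hcon
    apply hmin (max |f₁| |g₁|).toNat
    · have h0 : 0 ≤ max |f₁| |g₁| := le_max_of_le_left (abs_nonneg _)
      have : ((max |f₁| |g₁|).toNat : ℤ) < ℓ := by rw [Int.toNat_of_nonneg h0]; exact hcon
      exact_mod_cast this
    · have h0 : 0 ≤ max |f₁| |g₁| := le_max_of_le_left (abs_nonneg _)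
      refine ⟨f₁, g₁, hne, ?_, ?_, heq⟩
      · rw [Int.toNat_of_nonneg h0]; exact le_max_left _ _
      · rw [Int.toNat_of_nonneg h0]; exact le_max_right _ _
  have hdvd := (mk_eq_iff a f₁ g₁).1 heq
  obtain ⟨k, hk⟩ := hdvd
  have hf₁' : f₁ = g₁ * a - k * M := by linarith [mul_comm M k]
  -- primitivity
  have hcop : IsCoprime g₁ k := by
    rw [Int.isCoprime_iff_gcd_eq_one]
    by_contra hgcd
    obtain ⟨p, hp, hpd⟩ := Nat.exists_prime_and_dvd hgcd
    have h1 : (p : ℤ) ∣ g₁ := (Int.natCast_dvd_natCast.2 hpd).trans (Int.gcd_dvd_left _ _)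
    have h2 : (p : ℤ) ∣ k := (Int.natCast_dvd_natCast.2 hpd).trans (Int.gcd_dvd_right _ _)
    obtain ⟨g', hg'⟩ := h1
    obtain ⟨k', hk'⟩ := h2
    have hf' : f₁ = p * (g' * a - k' * M) := by rw [hf₁', hg', hk']; ring
    set f' := g' * a - k' * M with hf'def
    have hp2 : (2 : ℤ) ≤ p := by exact_mod_cast hp.two_le
    have hmx : max |f'| |g'| * 2 ≤ ℓ := by
      rw [← hmax, hf', hg', abs_mul, abs_mul, Nat.abs_cast]
      rcases le_total |f'| |g'| with h | h
      · rw [max_eq_right h]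
        apply le_max_of_le_right
        nlinarith [abs_nonneg g']
      · rw [max_eq_left h]
        apply le_max_of_le_left
        nlinarith [abs_nonneg f']
    have h0 : 0 ≤ max |f'| |g'| := le_max_of_le_left (abs_nonneg _)
    apply hmin (max |f'| |g'|).toNat
    · have : ((max |f'| |g'|).toNat : ℤ) < ℓ := by
        rw [Int.toNat_of_nonneg h0]
        have : (0 : ℤ) < ℓ := by exact_mod_cast hℓ0
        linarith
      exact_mod_cast this
    · refine ⟨f', g', ?_, ?_, ?_, ?_⟩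
      · by_contra hcon
        push Not at hcon
        rw [hcon.1, mul_zero] at hf'
        rw [hcon.2, mul_zero] at hg'
        rcases hne with h | h
        · exact h hf'
        · exact h hg'
      · rw [Int.toNat_of_nonneg h0]; exact le_max_left _ _
      · rw [Int.toNat_of_nonneg h0]; exact le_max_right _ _
      · rw [mk_eq_iff]
        refine ⟨k', ?_⟩
        rw [hf'def]; ring
  have hℓ0' : (0 : ℤ) < ℓ := by exact_mod_cast hℓ0
  obtain ⟨f₂, g₂, hd2, hcop2, hf₂, hg₂⟩ := second_vector M a f₁ g₁ k ℓ hℓ0' hmax hℓM hf₁' hcop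
  -- choose the combination
  have hN0 : N ≠ 0 := by omega
  have hω : 1 ≤ N.primeFactors.card := by
    rw [Nat.one_le_iff_ne_zero]
    intro h
    rw [Finset.card_eq_zero, Nat.primeFactors_eq_empty] at h
    omega
  set c : ℤ := 2 ^ (N.primeFactors.card - 1) with hc
  have hc2 : (2 : ℤ) ^ N.primeFactors.card = 2 * c := by
    rw [hc, ← pow_succ']
    congr 1
    omega
  have hcpos : 1 ≤ c := by
    rw [hc]; exact one_le_pow₀ (by norm_num)
  obtain ⟨x, hx, hxc⟩ := exists_coprime_in_interval N hN0 (g₂ - c * g₁) g₁ (by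
    have : IsCoprime g₂ g₁ := hcop2.symm
    have h2 := IsCoprime.add_mul_right_left this (-c)
    have e : g₂ - c * g₁ = g₂ + (-c) * g₁ := by ring
    rw [e]
    exact h2)
  have hxlt : (x : ℤ) < 2 * c := by
    rw [← hc2]; exact_mod_cast hx
  have hx0 : (0 : ℤ) ≤ x := by positivity
  set y : ℤ := x - c with hy
  have hyabs : |y| ≤ c := by rw [abs_le]; constructor <;> linarith
  have hgood : IsCoprime (g₂ + y * g₁) (N : ℤ) := by
    convert hxc using 1
    rw [hy]; ring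
  have hmem : M ∣ (g₂ + y * g₁) * a - (f₂ + y * f₁) := by
    have h1 : M ∣ g₁ * a - f₁ := ⟨k, hk⟩
    have h2 := dvd_add hd2 (Dvd.dvd.mul_left h1 y)
    have e : (g₂ + y * g₁) * a - (f₂ + y * f₁) = g₂ * a - f₂ + y * (g₁ * a - f₁) := by ring
    rw [e]
    exact h2
  have hb1 : |f₂ + y * f₁| * ℓ ≤ 2 ^ N.primeFactors.card * M := by
    have h1 : |f₂ + y * f₁| ≤ |f₂| + c * ℓ := by
      calc |f₂ + y * f₁| ≤ |f₂| + |y * f₁| := abs_add_le _ _
        _ = |f₂| + |y| * |f₁| := by rw [abs_mul]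
        _ ≤ |f₂| + c * ℓ := by
            have := mul_le_mul hyabs hf₁ (abs_nonneg _) (by linarith)
            linarith
    rw [hc2]
    nlinarith [mul_le_mul_of_nonneg_right h1 hℓ0'.le, mul_le_mul_of_nonneg_left hℓM (by linarith : (0 : ℤ) ≤ c)]
  have hb2 : |g₂ + y * g₁| * ℓ ≤ 2 ^ N.primeFactors.card * M := by
    have h1 : |g₂ + y * g₁| ≤ |g₂| + c * ℓ := by
      calc |g₂ + y * g₁| ≤ |g₂| + |y * g₁| := abs_add_le _ _
        _ = |g₂| + |y| * |g₁| := by rw [abs_mul]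
        _ ≤ |g₂| + c * ℓ := by
            have := mul_le_mul hyabs hg₁ (abs_nonneg _) (by linarith)
            linarith
    rw [hc2]
    nlinarith [mul_le_mul_of_nonneg_right h1 hℓ0'.le, mul_le_mul_of_nonneg_left hℓM (by linarith : (0 : ℤ) ≤ c)]
  have hbmax : max |f₂ + y * f₁| |g₂ + y * g₁| * ℓ ≤ 2 ^ N.primeFactors.card * M := by
    rcases max_choice |f₂ + y * f₁| |g₂ + y * g₁| with h | h <;> rw [h]
    · exact hb1
    · exact hb2
  have hgne : g₂ + y * g₁ ≠ 0 := by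
    intro h
    rw [h] at hgood
    have := isCoprime_zero_left.1 hgood
    rw [Int.isUnit_iff] at this
    omega
  rcases lt_or_gt_of_ne hgne with h | h
  · refine ⟨-(f₂ + y * f₁), -(g₂ + y * g₁), by linarith, hgood.neg_left, ?_, ?_⟩
    · rw [mk_eq_iff]
      have h3 := (dvd_neg (a := M)).2 hmem
      have e : -(g₂ + y * g₁) * a - -(f₂ + y * f₁) =
        -((g₂ + y * g₁) * a - (f₂ + y * f₁)) := by ring
      rw [e]
      exact h3
    · rw [abs_neg, abs_neg]; exact hbmax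
  · exact ⟨f₂ + y * f₁, g₂ + y * g₁, h, hgood, (mk_eq_iff _ _ _).2 hmem, hbmax⟩

end Run7.h928.NAdic
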