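import Pool.Agent.Run7.h928.NAdicDefs
import Pool.Agent.Run7.h928.NAdicLattice

/-!
# The average `N`-adic complexity of finite sequences
-/

set_option autoImplicit false

namespace Run7.h928.NAdic

open Finset

lemma int_rep (N : ℕ) (hN : 2 ≤ N) : ∀ x : ℤ, ∃ k : Fin N, (N : ℤ) ∣ x - ((k : ℕ) : ℤ) := by
  intro x
  have hN0 : (0 : ℤ) < N := by exact_mod_cast (by omega : 0 < N)
  have h1 : 0 ≤ x % (N : ℤ) := Int.emod_nonneg _ hN0.ne'
  have h2 : x % (N : ℤ) < N := Int.emod_lt_of_pos _ hN0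
  refine ⟨⟨(x % (N : ℤ)).toNat, by omega⟩, ?_⟩
  simp only [Int.toNat_of_nonneg h1]
  exact Int.dvd_self_sub_emod

lemma int_inj (N : ℕ) : ∀ k l : Fin N, (N : ℤ) ∣ ((k : ℕ) : ℤ) - ((l : ℕ) : ℤ) → k = l := by
  intro k l h
  have hk := k.isLt
  have hl := l.isLt
  have h1 : |((k : ℕ) : ℤ) - ((l : ℕ) : ℤ)| < N := by
    rw [abs_lt]; constructor <;> omega
  have h2 := Int.eq_zero_of_abs_lt_dvd h h1
  apply Fin.ext
  omega

lemma int_nzd (N : ℕ) (hN : 2 ≤ N) : ∀ x : ℤ, (N : ℤ) * x = 0 → x = 0 := by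
  intro x hx
  rcases mul_eq_zero.1 hx with h | h
  · exfalso
    have : (N : ℤ) ≠ 0 := by exact_mod_cast (by omega : N ≠ 0)
    exact this h
  · exact h

/-- The residue class attached to a word. -/
noncomputable def wordClass (N n : ℕ) (w : Fin n → Fin N) : ℤ ⧸ Ideal.span {(N : ℤ) ^ n} :=
  Ideal.Quotient.mk (Ideal.span {(N : ℤ) ^ n}) (∑ i : Fin n, ((w i : ℕ) : ℤ) * (N : ℤ) ^ (i : ℕ))

lemma wordClass_bijective (N n : ℕ) (hN : 2 ≤ N) : Function.Bijective (wordClass N n) :=
  word_bijective N (by omega) (N : ℤ) (int_rep N hN) (int_inj N) (int_nzd N hN) n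

lemma exists_short {M : ℤ} (α : ℤ ⧸ Ideal.span {M}) : ∃ m, Short M α m := by
  obtain ⟨a, rfl⟩ := Ideal.Quotient.mk_surjective α
  refine ⟨a.natAbs + 1, a, 1, Or.inr one_ne_zero, ?_, ?_, ?_⟩
  · push_cast [Int.natCast_natAbs]; linarith
  · push_cast [Int.natCast_natAbs]
    rw [abs_one]
    linarith [abs_nonneg a]
  · rw [map_one, one_mul]

/-- The first minimum of the lattice of `α`. -/
noncomputable def firstMin {M : ℤ} (α : ℤ ⧸ Ideal.span {M}) : ℕ :=
  @Nat.find _ (Classical.decPred _) (exists_short α)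

lemma firstMin_spec {M : ℤ} (α : ℤ ⧸ Ideal.span {M}) : Short M α (firstMin α) :=
  @Nat.find_spec _ (Classical.decPred _) (exists_short α)

lemma firstMin_min {M : ℤ} (α : ℤ ⧸ Ideal.span {M}) (m : ℕ) (hm : m < firstMin α) :
    ¬ Short M α m :=
  @Nat.find_min _ (Classical.decPred _) (exists_short α) m hm

lemma firstMin_le {M : ℤ} (α : ℤ ⧸ Ideal.span {M}) (m : ℕ) (hm : Short M α m) :
    firstMin α ≤ m :=
  @Nat.find_min' _ (Classical.decPred _) (exists_short α) m hm

lemma firstMin_pos {M : ℤ} (α : ℤ ⧸ Ideal.span {M}) : 0 < firstMin α := by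
  rcases Nat.eq_zero_or_pos (firstMin α) with h | h
  · exfalso
    obtain ⟨f, g, hne, hf, hg, -⟩ := firstMin_spec α
    rw [h] at hf hg
    have hf' : f = 0 := by
      have := le_antisymm hf (abs_nonneg f)
      simpa using this
    have hg' : g = 0 := by
      have := le_antisymm hg (abs_nonneg g)
      simpa using this
    rcases hne with h1 | h1
    · exact h1 hf'
    · exact h1 hg'
  · exact h

/-- A telescoping bound for `1 / ℓ`. -/
lemma inv_le_sum (ℓ K : ℕ) (hℓ : 0 < ℓ) :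
    (1 : ℝ) / ℓ ≤ 1 / (K + 1 : ℝ) +
      ∑ j ∈ Icc 1 K, if ℓ ≤ j then (1 : ℝ) / (j * (j + 1)) else 0 := by
  induction K with
  | zero =>
    simp only [Nat.cast_zero, zero_add]
    have h1 : (1 : ℝ) ≤ ℓ := by exact_mod_cast hℓ
    have h2 : (1 : ℝ) / ℓ ≤ 1 / 1 := one_div_le_one_div_of_le one_pos h1
    simpa using h2
  | succ K ih =>
    rw [Finset.sum_Icc_succ_top (by omega)]
    by_cases h : ℓ ≤ K + 1
    · rw [if_pos h]
      have e : (1 : ℝ) / ((K + 1 : ℕ) + 1) + 1 / ((K + 1 : ℕ) * ((K + 1 : ℕ) + 1)) =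
          1 / (K + 1 : ℝ) := by
        push_cast
        have h1 : (K : ℝ) + 1 ≠ 0 := by positivity
        have h2 : (K : ℝ) + 1 + 1 ≠ 0 := by positivity
        field_simp
      linarith
    · rw [if_neg h]
      have h3 : ∀ j ∈ Icc 1 K, (if ℓ ≤ j then (1 : ℝ) / (j * (j + 1)) else 0) = 0 := by
        intro j hj
        rw [mem_Icc] at hj
        rw [if_neg (by omega)]
      rw [sum_eq_zero h3, add_zero, add_zero]
      push Not at h
      apply one_div_le_one_div_of_le (by positivity)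
      exact_mod_cast h

section
variable {M : ℤ} [Fintype (ℤ ⧸ Ideal.span {M})]

/-- `∑ 1 / ℓ(α) ≤ 4 √M`. -/
lemma sum_inv_le (hM : 0 < M) (hcard : (Fintype.card (ℤ ⧸ Ideal.span {M}) : ℤ) = M) :
    ∑ α : ℤ ⧸ Ideal.span {M}, (1 : ℝ) / firstMin α ≤ 4 * Real.sqrt M := by
  classical
  set m : ℕ := M.toNat with hm
  have hmM : ((m : ℕ) : ℤ) = M := Int.toNat_of_nonneg hM.le
  set K : ℕ := Nat.sqrt (m / 3) with hK
  have hK1 : 3 * K ^ 2 ≤ m := by
    have h := Nat.sqrt_le' (m / 3)
    rw [← hK] at h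
    omega
  have hK2 : m < 3 * (K + 1) ^ 2 := by
    have h := Nat.lt_succ_sqrt' (m / 3)
    rw [← hK, Nat.succ_eq_add_one] at h
    omega
  have hMr : (M : ℝ) = m := by rw [← hmM]; push_cast; rfl
  have hcardr : (Fintype.card (ℤ ⧸ Ideal.span {M}) : ℝ) = M := by exact_mod_cast hcard
  have h1 : ∑ α : ℤ ⧸ Ideal.span {M}, (1 : ℝ) / firstMin α ≤
      ∑ α : ℤ ⧸ Ideal.span {M}, (1 / (K + 1 : ℝ) +
      ∑ j ∈ Icc 1 K, if firstMin α ≤ j then (1 : ℝ) / (j * (j + 1)) else 0) :=
    sum_le_sum (fun α _ => inv_le_sum _ K (firstMin_pos α))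
  rw [sum_add_distrib, sum_comm, sum_const, card_univ, nsmul_eq_mul, hcardr] at h1
  have h2 : ∀ j ∈ Icc 1 K, (∑ α : ℤ ⧸ Ideal.span {M},
      if firstMin α ≤ j then (1 : ℝ) / (j * (j + 1)) else 0) ≤ 3 := by
    intro j hj
    rw [mem_Icc] at hj
    rw [← sum_filter, sum_const, nsmul_eq_mul]
    have hc : ((univ.filter (fun α : ℤ ⧸ Ideal.span {M} => firstMin α ≤ j)).card : ℝ) ≤
        3 * (j : ℝ) ^ 2 := by
      have := count_short hM hcard j (univ.filter (fun α => firstMin α ≤ j)) (by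
        intro α hα
        rw [mem_filter] at hα
        obtain ⟨f, g, hne, hf, hg, heq⟩ := firstMin_spec α
        have hle : ((firstMin α : ℕ) : ℤ) ≤ j := by exact_mod_cast hα.2
        exact ⟨f, g, hne, hf.trans hle, hg.trans hle, heq⟩)
      exact_mod_cast this
    have hj0 : (1 : ℝ) ≤ j := by exact_mod_cast hj.1
    calc _ ≤ 3 * (j : ℝ) ^ 2 * (1 / (j * (j + 1))) := by
          apply mul_le_mul_of_nonneg_right hc; positivity
      _ = 3 * (j / (j + 1)) := by field_simp
      _ ≤ 3 * 1 := by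
          apply mul_le_mul_of_nonneg_left _ (by norm_num)
          rw [div_le_one (by positivity)]
          linarith
      _ = 3 := by norm_num
  have h3 : ∑ j ∈ Icc 1 K, (∑ α : ℤ ⧸ Ideal.span {M},
      if firstMin α ≤ j then (1 : ℝ) / (j * (j + 1)) else 0) ≤ 3 * K := by
    calc _ ≤ ∑ _j ∈ Icc 1 K, (3 : ℝ) := sum_le_sum h2
      _ = 3 * K := by
        rw [sum_const, Nat.card_Icc, nsmul_eq_mul]
        push_cast [Nat.add_sub_cancel]
        ring
  -- compare with the square root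
  have hMpos : (0 : ℝ) < M := by exact_mod_cast hM
  set s := Real.sqrt M with hs
  have hs2 : s ^ 2 = M := Real.sq_sqrt hMpos.le
  have hs0 : 0 < s := Real.sqrt_pos.2 hMpos
  have hK1r : 3 * (K : ℝ) ^ 2 ≤ s ^ 2 := by rw [hs2, hMr]; exact_mod_cast hK1
  have hK2r : s ^ 2 < 3 * ((K : ℝ) + 1) ^ 2 := by rw [hs2, hMr]; exact_mod_cast hK2
  have h4 : 3 * (K : ℝ) ≤ 2 * s := by
    apply le_of_sq_le_sq _ (by positivity)
    nlinarith
  have h5 : s ≤ 2 * ((K : ℝ) + 1) := by
    apply le_of_sq_le_sq _ (by positivity)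
    nlinarith
  have h6 : (M : ℝ) * (1 / (K + 1 : ℝ)) ≤ 2 * s := by
    rw [← hs2, mul_one_div, div_le_iff₀ (by positivity)]
    nlinarith
  linarith

/-- `∑ log ℓ(α) ≥ M (log M / 2 - 2 log 2)`. -/
lemma sum_log_ge (hM : 0 < M) (hcard : (Fintype.card (ℤ ⧸ Ideal.span {M}) : ℤ) = M) :
    (M : ℝ) * (Real.log M / 2 - 2 * Real.log 2) ≤
      ∑ α : ℤ ⧸ Ideal.span {M}, Real.log (firstMin α) := by
  have hMpos : (0 : ℝ) < M := by exact_mod_cast hM
  have hcardr : (Fintype.card (ℤ ⧸ Ideal.span {M}) : ℝ) = M := by exact_mod_cast hcard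
  set s := Real.sqrt M with hs
  have hs2 : s ^ 2 = M := Real.sq_sqrt hMpos.le
  have hs0 : 0 < s := Real.sqrt_pos.2 hMpos
  have hlogM : Real.log M = 2 * Real.log s := by rw [← hs2, Real.log_pow]; norm_num
  have h1 : ∀ α : ℤ ⧸ Ideal.span {M}, Real.log s - 2 * Real.log 2 + 1 - s / 4 * (1 / firstMin α)
      ≤ Real.log (firstMin α) := by
    intro α
    have hℓ : (0 : ℝ) < firstMin α := by exact_mod_cast firstMin_pos α
    have h2 := Real.log_le_sub_one_of_pos (x := s / 4 * (1 / firstMin α)) (by positivity)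
    rw [Real.log_mul (by positivity) (by positivity), Real.log_div hs0.ne' (by norm_num),
      one_div, Real.log_inv] at h2
    have h3 : Real.log 4 = 2 * Real.log 2 := by
      rw [show (4 : ℝ) = 2 ^ 2 by norm_num, Real.log_pow]; norm_num
    rw [h3] at h2
    rw [one_div]
    linarith
  have h2 := sum_le_sum (s := (univ : Finset (ℤ ⧸ Ideal.span {M}))) (fun α _ => h1 α)
  rw [sum_sub_distrib, sum_const, card_univ, nsmul_eq_mul, hcardr, ← mul_sum] at h2
  have h3 := sum_inv_le hM hcard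
  rw [← hs] at h3
  have h4 : s / 4 * ∑ α : ℤ ⧸ Ideal.span {M}, (1 : ℝ) / firstMin α ≤ M := by
    calc _ ≤ s / 4 * (4 * s) := mul_le_mul_of_nonneg_left h3 (by positivity)
      _ = s ^ 2 := by ring
      _ = M := hs2
  rw [hlogM]
  nlinarith

end

/-! ### Complexity of words -/

lemma prefixValue_eq (N n : ℕ) (w : Fin n → Fin N) (b : ℕ → Fin N) (hb : ∀ i : Fin n, b i = w i) :
    prefixValue N b n = ∑ i : Fin n, ((w i : ℕ) : ℤ) * (N : ℤ) ^ (i : ℕ) := by
  rw [prefixValue, Finset.sum_range]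
  simp only [hb]

lemma word_lower (N n : ℕ) (hN : 2 ≤ N) (w : Fin n → Fin N) :
    ((Real.logb N (firstMin (wordClass N n w)) : ℝ) : EReal) ≤ wordComplexity N n w := by
  unfold wordComplexity seqComplexity
  refine le_iInf fun b => le_iInf fun hb => le_iInf fun f => le_iInf fun g => le_iInf fun h => ?_
  rw [EReal.coe_le_coe_iff]
  obtain ⟨hg, -, hfr⟩ := h
  have h0 : 0 ≤ max |f| |g| := le_max_of_le_left (abs_nonneg _)
  have h1 : Short ((N : ℤ) ^ n) (wordClass N n w) (max |f| |g|).toNat := by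
    refine ⟨f, g, Or.inr hg.ne', ?_, ?_, ?_⟩
    · rw [Int.toNat_of_nonneg h0]; exact le_max_left _ _
    · rw [Int.toNat_of_nonneg h0]; exact le_max_right _ _
    · rw [wordClass, mk_eq_iff, ← prefixValue_eq N n w b hb]
      exact hfr n
  have h2 := firstMin_le _ _ h1
  have h3 : ((firstMin (wordClass N n w) : ℕ) : ℤ) ≤ max |f| |g| := by
    rw [← Int.toNat_of_nonneg h0]; exact_mod_cast h2
  have h4 : ((firstMin (wordClass N n w) : ℕ) : ℝ) ≤ ((max |f| |g| : ℤ) : ℝ) := by
    exact_mod_cast h3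
  have hN1 : (1 : ℝ) < N := by exact_mod_cast (by omega : 1 < N)
  have hpos : (0 : ℝ) < firstMin (wordClass N n w) := by exact_mod_cast firstMin_pos _
  exact Real.logb_le_logb_of_le hN1 hpos h4

lemma word_upper (N n : ℕ) (hN : 2 ≤ N) (w : Fin n → Fin N) (f g : ℤ) (hg : 0 < g)
    (hgN : IsCoprime g (N : ℤ))
    (heq : Ideal.Quotient.mk (Ideal.span {(N : ℤ) ^ n}) f =
      Ideal.Quotient.mk (Ideal.span {(N : ℤ) ^ n}) g * wordClass N n w) :
    wordComplexity N n w ≤ ((Real.logb N ((max |f| |g| : ℤ) : ℝ) : ℝ) : EReal) := by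
  -- reduce the fraction
  have hgcdpos : 0 < Int.gcd f g := Int.gcd_pos_of_ne_zero_right f hg.ne'
  obtain ⟨f', g', hcop, hf', hg'⟩ := Int.exists_gcd_one hgcdpos
  set h : ℤ := ((Int.gcd f g : ℕ) : ℤ) with hh
  have hhpos : 0 < h := by rw [hh]; exact_mod_cast hgcdpos
  have hh1 : 1 ≤ h := hhpos
  have hg'pos : 0 < g' := by
    by_contra hcon
    push Not at hcon
    nlinarith
  have hcop' : IsCoprime f' g' := Int.isCoprime_iff_gcd_eq_one.2 hcop
  have hg'N : IsCoprime g' (N : ℤ) := by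
    rw [hg'] at hgN
    exact IsCoprime.of_mul_left_left hgN
  have hhN : IsCoprime h (N : ℤ) := by
    rw [hg'] at hgN
    exact IsCoprime.of_mul_left_right hgN
  obtain ⟨x, y, hxy⟩ := hg'N
  obtain ⟨a, ha⟩ := exists_digits N (N : ℤ) (int_rep N hN) f' g' x ⟨-y, by linarith⟩
  set A : ℤ := ∑ i : Fin n, ((w i : ℕ) : ℤ) * (N : ℤ) ^ (i : ℕ) with hA
  have hmem : (N : ℤ) ^ n ∣ g' * A - f' := by
    rw [wordClass, mk_eq_iff] at heq
    have h1 : (N : ℤ) ^ n ∣ h * (g' * A - f') := by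
      have e : h * (g' * A - f') = g * A - f := by rw [hg', hf']; ring
      rw [e]; exact heq
    exact (IsCoprime.pow_left hhN.symm).dvd_of_dvd_mul_left h1
  have hfirst : ∀ i : Fin n, a i = w i := by
    let b : ℕ → Fin N := fun i => if h : i < n then w ⟨i, h⟩ else ⟨0, by omega⟩
    have hb : ∀ i : Fin n, b i = w i := by intro i; simp [b]
    have hAb : A = ∑ i ∈ range n, ((b i : ℕ) : ℤ) * (N : ℤ) ^ i := by
      rw [Finset.sum_range]; simp only [hb, hA]
    have hdiff : (N : ℤ) ^ n ∣ (∑ i ∈ range n, ((a i : ℕ) : ℤ) * (N : ℤ) ^ i) -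
        ∑ i ∈ range n, ((b i : ℕ) : ℤ) * (N : ℤ) ^ i := by
      rw [← hAb]
      have h1 := dvd_sub (ha n) hmem
      have e : g' * (∑ i ∈ range n, ((a i : ℕ) : ℤ) * (N : ℤ) ^ i) - f' - (g' * A - f') =
        g' * ((∑ i ∈ range n, ((a i : ℕ) : ℤ) * (N : ℤ) ^ i) - A) := by ring
      rw [e] at h1
      have hc : IsCoprime ((N : ℤ) ^ n) g' := (IsCoprime.pow_left ⟨y, x, by linarith⟩)
      exact hc.dvd_of_dvd_mul_left h1
    have hu := digits_unique (N : ℤ) (int_inj N) (int_nzd N hN) a b n hdiff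
    intro i
    rw [← hb]
    exact hu i i.isLt
  have hfrac : IsFraction N a f' g' := ⟨hg'pos, hcop', fun m => ha m⟩
  unfold wordComplexity seqComplexity
  refine (iInf_le_of_le a (iInf_le_of_le hfirst (iInf_le_of_le f' (iInf_le_of_le g'
    (iInf_le_of_le hfrac ?_)))))
  rw [EReal.coe_le_coe_iff]
  have hN1 : (1 : ℝ) < N := by exact_mod_cast (by omega : 1 < N)
  have hpos : (0 : ℤ) < max |f'| |g'| := lt_max_of_lt_right (abs_pos.2 hg'pos.ne')
  have hle : max |f'| |g'| ≤ max |f| |g| := by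
    rw [hf', hg', abs_mul, abs_mul, abs_of_pos hhpos]
    apply max_le_max
    · nlinarith [abs_nonneg f']
    · nlinarith [abs_nonneg g']
  exact Real.logb_le_logb_of_le hN1 (by exact_mod_cast hpos) (by exact_mod_cast hle)

/-- The main theorem. -/
theorem average_bound (N : ℕ) (hN : 2 ≤ N) (n : ℕ) :
    |averageFinite N n - n / 2| ≤ (N.primeFactors.card + 2) / Real.logb 2 N := by
  classical
  have hbij := wordClass_bijective N n hN
  have : Finite (ℤ ⧸ Ideal.span {(N : ℤ) ^ n}) := Finite.of_surjective _ hbij.2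
  let _ : Fintype (ℤ ⧸ Ideal.span {(N : ℤ) ^ n}) := Fintype.ofFinite _
  have hcard0 : Fintype.card (ℤ ⧸ Ideal.span {(N : ℤ) ^ n}) = N ^ n := by
    rw [← Fintype.card_of_bijective hbij]
    simp
  have hcard : (Fintype.card (ℤ ⧸ Ideal.span {(N : ℤ) ^ n}) : ℤ) = (N : ℤ) ^ n := by
    rw [hcard0]; push_cast; rfl
  have hN0 : (0 : ℤ) < N := by exact_mod_cast (by omega : 0 < N)
  have hM : (0 : ℤ) < (N : ℤ) ^ n := pow_pos hN0 n
  have hN1 : (1 : ℝ) < N := by exact_mod_cast (by omega : 1 < N)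
  have hlogN : 0 < Real.log N := Real.log_pos hN1
  have hlog2 : 0 < Real.log 2 := Real.log_pos (by norm_num)
  set ω : ℝ := (N.primeFactors.card : ℝ) with hω
  have hω0 : 0 ≤ ω := by positivity
  set Mr : ℝ := (N : ℝ) ^ n with hMr
  have hMrpos : 0 < Mr := by positivity
  have hcast : (((N : ℤ) ^ n : ℤ) : ℝ) = Mr := by push_cast; rfl
  have hlogM : Real.log Mr = n * Real.log N := by rw [hMr, Real.log_pow]
  set Λ : ℝ := ∑ α : ℤ ⧸ Ideal.span {(N : ℤ) ^ n}, Real.log (firstMin α) with hΛ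
  have hΛge : Mr * (n * Real.log N / 2 - 2 * Real.log 2) ≤ Λ := by
    have := sum_log_ge hM hcard
    rw [hcast, hlogM] at this
    exact this
  have hΛw : ∑ w : Fin n → Fin N, Real.log (firstMin (wordClass N n w)) = Λ := by
    rw [hΛ]
    exact hbij.sum_comp (fun α => Real.log (firstMin α))
  -- pointwise bounds
  have hpt : ∀ w : Fin n → Fin N,
      Real.log (firstMin (wordClass N n w)) / Real.log N ≤ (wordComplexity N n w).toReal ∧
      (wordComplexity N n w).toReal ≤ (ω * Real.log 2 + n * Real.log N -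
        Real.log (firstMin (wordClass N n w))) / Real.log N := by
    intro w
    have hlow := word_lower N n hN w
    obtain ⟨hℓ, f, g, hg, hgN, heq, hbd⟩ := exists_good N hN ((N : ℤ) ^ n) hM hcard
      (wordClass N n w) (firstMin (wordClass N n w)) (firstMin_spec _) (firstMin_min _)
    have hup := word_upper N n hN w f g hg hgN heq
    have hne_top : wordComplexity N n w ≠ ⊤ := by
      intro h
      rw [h, top_le_iff] at hup
      exact EReal.coe_ne_top _ hup
    have hne_bot : wordComplexity N n w ≠ ⊥ := by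
      intro h
      rw [h, le_bot_iff] at hlow
      exact EReal.coe_ne_bot _ hlow
    constructor
    · have := EReal.toReal_le_toReal hlow (EReal.coe_ne_bot _) hne_top
      rwa [EReal.toReal_coe] at this
    · have h1 := EReal.toReal_le_toReal hup hne_bot (EReal.coe_ne_top _)
      rw [EReal.toReal_coe] at h1
      refine h1.trans ?_
      rw [Real.logb]
      apply div_le_div_of_nonneg_right _ hlogN.le
      have hmpos : (0 : ℤ) < max |f| |g| := lt_max_of_lt_right (abs_pos.2 hg.ne')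
      have hmposr : (0 : ℝ) < ((max |f| |g| : ℤ) : ℝ) := by exact_mod_cast hmpos
      have hℓr : (0 : ℝ) < firstMin (wordClass N n w) := by exact_mod_cast hℓ
      have hbdr : ((max |f| |g| : ℤ) : ℝ) * (firstMin (wordClass N n w) : ℝ) ≤
          2 ^ N.primeFactors.card * Mr := by
        rw [← hcast]; exact_mod_cast hbd
      have h2 := Real.log_le_log (by positivity) hbdr
      rw [Real.log_mul hmposr.ne' hℓr.ne', Real.log_mul (by positivity) hMrpos.ne', Real.log_pow,
        hlogM] at h2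
      linarith
  have hsumlow : Λ / Real.log N ≤ ∑ w : Fin n → Fin N, (wordComplexity N n w).toReal := by
    rw [← hΛw, sum_div]
    exact sum_le_sum (fun w _ => (hpt w).1)
  have hsumup : ∑ w : Fin n → Fin N, (wordComplexity N n w).toReal ≤
      (Mr * (ω * Real.log 2 + n * Real.log N) - Λ) / Real.log N := by
    have h1 := sum_le_sum (s := (univ : Finset (Fin n → Fin N))) (fun w _ => (hpt w).2)
    refine h1.trans (le_of_eq ?_)
    rw [← sum_div, sum_sub_distrib, hΛw, sum_const, card_univ, nsmul_eq_mul]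
    have : (Fintype.card (Fin n → Fin N) : ℝ) = Mr := by
      rw [Fintype.card_fun, Fintype.card_fin, Fintype.card_fin]; push_cast; rfl
    rw [this]
  unfold averageFinite
  rw [← hMr]
  have hlogb : Real.logb 2 N = Real.log N / Real.log 2 := rfl
  rw [hlogb, abs_le]
  constructor
  · have h1 : Mr * (n * Real.log N / 2 - 2 * Real.log 2) / Real.log N ≤
        ∑ w : Fin n → Fin N, (wordComplexity N n w).toReal :=
      (div_le_div_of_nonneg_right hΛge hlogN.le).trans hsumlow
    have h2 : (Mr * (n * Real.log N / 2 - 2 * Real.log 2) / Real.log N) / Mr ≤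
        (∑ w : Fin n → Fin N, (wordComplexity N n w).toReal) / Mr :=
      div_le_div_of_nonneg_right h1 hMrpos.le
    have e : (Mr * (n * Real.log N / 2 - 2 * Real.log 2) / Real.log N) / Mr =
        n / 2 - 2 * Real.log 2 / Real.log N := by field_simp
    rw [e] at h2
    have h3 : (ω + 2) / (Real.log N / Real.log 2) = ω * Real.log 2 / Real.log N +
        2 * Real.log 2 / Real.log N := by field_simp
    rw [h3]
    have h4 : 0 ≤ ω * Real.log 2 / Real.log N := by positivity
    linarith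
  · have h1 : ∑ w : Fin n → Fin N, (wordComplexity N n w).toReal ≤
        (Mr * (ω * Real.log 2 + n * Real.log N) -
          Mr * (n * Real.log N / 2 - 2 * Real.log 2)) / Real.log N := by
      refine hsumup.trans (div_le_div_of_nonneg_right ?_ hlogN.le)
      linarith
    have h2 := div_le_div_of_nonneg_right h1 hMrpos.le
    have e : ((Mr * (ω * Real.log 2 + n * Real.log N) -
          Mr * (n * Real.log N / 2 - 2 * Real.log 2)) / Real.log N) / Mr =
        n / 2 + (ω + 2) * Real.log 2 / Real.log N := by field_simp; ring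
    rw [e] at h2
    have h3 : (ω + 2) / (Real.log N / Real.log 2) = (ω + 2) * Real.log 2 / Real.log N := by
      field_simp
    rw [h3]
    linarith

end Run7.h928.NAdic
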