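import Mathlib

/-!
# The `N`-adic complexity of sequences and words: definitions
-/

set_option autoImplicit false

namespace Run7.h928.NAdic

open Finset

/-- The integer `a_0 + a_1 N + ... + a_(n-1) N^(n-1)`, i.e. the residue modulo `N^n` of the `N`-adic
integer `α = a_0 + a_1 N + a_2 N^2 + ...` attached to the sequence `a`. -/
def prefixValue (N : ℕ) (a : ℕ → Fin N) (n : ℕ) : ℤ :=
  ∑ i ∈ range n, ((a i : ℕ) : ℤ) * (N : ℤ) ^ i

/-- The `N`-adic integer `α` attached to `a` is the rational number `f / g`, where `g > 0` and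
`gcd(f, g) = 1` (the identity `g α = f` in `Z_N` means that `g α ≡ f` modulo every power of `N`). -/
def IsFraction (N : ℕ) (a : ℕ → Fin N) (f g : ℤ) : Prop :=
  0 < g ∧ IsCoprime f g ∧ ∀ n : ℕ, (N : ℤ) ^ n ∣ g * prefixValue N a n - f

/-- The `N`-adic complexity of an infinite sequence: `log_N max(|f|, |g|)` if `α = f / g` is
rational, and `∞` (the infimum of the empty set) if `α` is irrational. -/
noncomputable def seqComplexity (N : ℕ) (a : ℕ → Fin N) : EReal :=
  ⨅ (f : ℤ) (g : ℤ) (_ : IsFraction N a f g), ((Real.logb N ((max |f| |g| : ℤ) : ℝ) : ℝ) : EReal)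

/-- The `N`-adic complexity of a finite sequence `w` of length `n`: the minimum of the complexities
of all infinite sequences whose first `n` terms are those of `w`. -/
noncomputable def wordComplexity (N n : ℕ) (w : Fin n → Fin N) : EReal :=
  ⨅ (b : ℕ → Fin N) (_ : ∀ i : Fin n, b i = w i), seqComplexity N b

/-- The average `E_n^fin` of the `N`-adic complexity over all `N^n` sequences of length `n`. -/
noncomputable def averageFinite (N n : ℕ) : ℝ :=
  (∑ w : Fin n → Fin N, (wordComplexity N n w).toReal) / (N : ℝ) ^ n

end Run7.h928.NAdic
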