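import Mathlib

/-!
# Two counting lemmas

`packing`: counting solutions of a linear congruence in a box, by packing translates.
`short_word`: every element of a finite abelian group is a sum of few elements of a large
symmetric generating set.
-/

set_option autoImplicit false

namespace Run7.h928

open Finset

/-- Let `μ` be an endomorphism of a finite abelian group `Q` and `p : V → Q` a homomorphism such
that the finite set `T` meets every class of `Q` modulo the range of `μ`.  Then the number of pairs
`(α, f)` with `f ∈ F` and `μ α = p f` is at most the number of elements of `H ⊇ F + T`. -/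
theorem packing {V Q : Type*} [AddCommGroup V] [AddCommGroup Q] [Fintype Q] [DecidableEq Q]
    [DecidableEq V]
    (p : V →+ Q) (μ : Q →+ Q) (F T H : Finset V)
    (hT : ∀ q : Q, ∃ t ∈ T, q - p t ∈ μ.range)
    (hH : ∀ f ∈ F, ∀ t ∈ T, f + t ∈ H) :
    ((univ ×ˢ F : Finset (Q × V)).filter (fun x => μ x.1 = p x.2)).card ≤ H.card := by
  classical
  set P := ((univ ×ˢ F : Finset (Q × V)).filter (fun x => μ x.1 = p x.2)) with hP
  -- choose representatives
  let C := Q ⧸ μ.range
  have : Fintype C := Fintype.ofFinite C
  have hrep : ∀ c : C, ∃ t ∈ T, (QuotientAddGroup.mk (p t) : C) = c := by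
    intro c
    obtain ⟨q, rfl⟩ := QuotientAddGroup.mk_surjective c
    obtain ⟨t, ht, h⟩ := hT q
    refine ⟨t, ht, ?_⟩
    rw [QuotientAddGroup.eq]
    rw [neg_add_eq_sub]
    exact h
  choose rep hrepT hrepc using hrep
  -- the kernel
  let K : Finset Q := univ.filter (fun q => μ q = 0)
  have hKpos : 0 < K.card := card_pos.2 ⟨0, by simp [K]⟩
  have hcard : Fintype.card C = K.card := by
    have h1 : Nat.card Q = Nat.card C * Nat.card μ.range :=
      AddSubgroup.card_eq_card_quotient_mul_card_addSubgroup μ.range
    have h2 : Nat.card Q = Nat.card (Q ⧸ μ.ker) * Nat.card μ.ker :=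
      AddSubgroup.card_eq_card_quotient_mul_card_addSubgroup μ.ker
    have h3 : Nat.card (Q ⧸ μ.ker) = Nat.card μ.range :=
      Nat.card_congr (QuotientAddGroup.quotientKerEquivRange μ).toEquiv
    have h4 : Nat.card μ.ker = K.card := by
      rw [Nat.card_eq_fintype_card, Fintype.card_of_subtype K]
      intro x
      simp [K, AddMonoidHom.mem_ker]
    have h5 : 0 < Nat.card μ.range := Nat.card_pos
    rw [h2, h3, h4, mul_comm] at h1
    rw [← Nat.card_eq_fintype_card]
    exact (Nat.eq_of_mul_eq_mul_right h5 h1).symm
  -- count
  have key : (P ×ˢ (univ : Finset C)).card ≤ K.card * H.card := by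
    apply card_le_mul_card_image_of_maps_to (f := fun x : (Q × V) × C => x.1.2 + rep x.2)
    · rintro ⟨⟨a, f⟩, c⟩ hx
      simp only [hP, mem_product, mem_filter, mem_univ, true_and, and_true] at hx
      exact hH _ hx.1 _ (hrepT c)
    · intro h _
      by_cases hne : (((P ×ˢ (univ : Finset C)).filter
          (fun x : (Q × V) × C => x.1.2 + rep x.2 = h))).Nonempty
      · obtain ⟨⟨⟨a0, f0⟩, c0⟩, h0⟩ := hne
        simp only [hP, mem_product, mem_filter, mem_univ, true_and, and_true] at h0
        obtain ⟨⟨hf0, hm0⟩, hs0⟩ := h0
        apply card_le_card_of_injOn (fun x : (Q × V) × C => x.1.1 - a0)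
        · rintro ⟨⟨a, f⟩, c⟩ hx
          simp only [hP, coe_filter, mem_product, mem_filter, mem_univ, true_and, and_true,
            Set.mem_ofPred_eq] at hx
          obtain ⟨⟨hf, hm⟩, hs⟩ := hx
          have hc : c = c0 := by
            have e1 : (QuotientAddGroup.mk (p (f + rep c)) : C) =
                QuotientAddGroup.mk (p (f0 + rep c0)) := by rw [hs, hs0]
            rw [map_add, map_add, ← hm, ← hm0, QuotientAddGroup.mk_add, QuotientAddGroup.mk_add,
              hrepc, hrepc] at e1
            have e2 : (QuotientAddGroup.mk (μ a) : C) = 0 :=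
              (QuotientAddGroup.eq_zero_iff _).2 ⟨a, rfl⟩
            have e3 : (QuotientAddGroup.mk (μ a0) : C) = 0 :=
              (QuotientAddGroup.eq_zero_iff _).2 ⟨a0, rfl⟩
            rw [e2, e3, zero_add, zero_add] at e1
            exact e1
          have hff : f = f0 := by
            rw [← hs0, hc] at hs
            exact add_right_cancel hs
          simp only [K, coe_filter, mem_univ, true_and, Set.mem_ofPred_eq, map_sub]
          rw [hm, hm0, hff, sub_self]
        · rintro ⟨⟨a, f⟩, c⟩ hx ⟨⟨a', f'⟩, c'⟩ hx' heq
          simp only [hP, coe_filter, mem_product, mem_filter, mem_univ, true_and, and_true,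
            Set.mem_ofPred_eq] at hx hx' heq
          have ha : a = a' := sub_left_injective heq
          have hc : c = c' := by
            have e1 : (QuotientAddGroup.mk (p (f + rep c)) : C) =
                QuotientAddGroup.mk (p (f' + rep c')) := by rw [hx.2, hx'.2]
            rw [map_add, map_add, ← hx.1.2, ← hx'.1.2, QuotientAddGroup.mk_add,
              QuotientAddGroup.mk_add, hrepc, hrepc] at e1
            have e2 : (QuotientAddGroup.mk (μ a) : C) = 0 :=
              (QuotientAddGroup.eq_zero_iff _).2 ⟨a, rfl⟩
            have e3 : (QuotientAddGroup.mk (μ a') : C) = 0 :=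
              (QuotientAddGroup.eq_zero_iff _).2 ⟨a', rfl⟩
            rw [e2, e3, zero_add, zero_add] at e1
            exact e1
          have hff : f = f' := by
            have := hx.2.trans hx'.2.symm
            rw [hc] at this
            exact add_right_cancel this
          rw [ha, hc, hff]
      · rw [not_nonempty_iff_eq_empty] at hne
        rw [hne]
        simp
  rw [card_product, card_univ, hcard, mul_comm] at key
  exact Nat.le_of_mul_le_mul_left key hKpos

/-- In a finite abelian group `G` with a symmetric generating set `S` containing `0`, every element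
is a sum of at most `3 |G| / |S|` elements of `S`. -/
theorem short_word {G : Type*} [AddCommGroup G] [Fintype G] [DecidableEq G] (S : Finset G)
    (hneg : ∀ s ∈ S, -s ∈ S) (hgen : AddSubgroup.closure (S : Set G) = ⊤)
    (x : G) :
    ∃ l : List G, (∀ s ∈ l, s ∈ S) ∧ l.sum = x ∧ l.length * S.card ≤ 3 * Fintype.card G := by
  classical
  have hex : ∃ l : List G, (∀ s ∈ l, s ∈ S) ∧ l.sum = x := by
    have hx : x ∈ AddSubgroup.closure (S : Set G) := by rw [hgen]; trivial
    induction hx using AddSubgroup.closure_induction with
    | mem y hy => exact ⟨[y], by simpa using hy, by simp⟩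
    | zero => exact ⟨[], by simp, by simp⟩
    | add y z _ _ h1 h2 =>
      obtain ⟨l1, hl1, rfl⟩ := h1
      obtain ⟨l2, hl2, rfl⟩ := h2
      refine ⟨l1 ++ l2, ?_, by simp⟩
      intro s hs
      rcases List.mem_append.1 hs with h | h
      · exact hl1 s h
      · exact hl2 s h
    | neg y _ h1 =>
      obtain ⟨l1, hl1, rfl⟩ := h1
      refine ⟨l1.map (fun s => -s), ?_, ?_⟩
      · intro s hs
        obtain ⟨t, ht, rfl⟩ := List.mem_map.1 hs
        exact hneg t (hl1 t ht)
      · rw [List.sum_neg]
  -- minimal length
  have hex' : ∃ k : ℕ, ∃ l : List G, (∀ s ∈ l, s ∈ S) ∧ l.sum = x ∧ l.length = k := by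
    obtain ⟨l, h1, h2⟩ := hex
    exact ⟨l.length, l, h1, h2, rfl⟩
  let k := Nat.find hex'
  obtain ⟨l, hl, hsum, hlen⟩ : ∃ l : List G, (∀ s ∈ l, s ∈ S) ∧ l.sum = x ∧ l.length = k :=
    Nat.find_spec hex'
  have hmin : ∀ l' : List G, (∀ s ∈ l', s ∈ S) → l'.sum = x → k ≤ l'.length := by
    intro l' h1 h2
    exact Nat.find_min' hex' ⟨l', h1, h2, rfl⟩
  refine ⟨l, hl, hsum, ?_⟩
  -- translates
  have hinj : Set.InjOn (fun y : ℕ × G => (l.take (3 * y.1)).sum + y.2)
      ((range (k / 3 + 1) ×ˢ S : Finset (ℕ × G)) : Set (ℕ × G)) := by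
    have main : ∀ i j : ℕ, i < j → j ≤ k / 3 → ∀ s ∈ S, ∀ t ∈ S,
        (l.take (3 * i)).sum + s ≠ (l.take (3 * j)).sum + t := by
      intro i j hij hj s hs t ht heq
      have h1 : k ≤ (l.take (3 * i) ++ [s, -t] ++ l.drop (3 * j)).length := by
        apply hmin
        · intro y hy
          simp only [List.mem_append, List.mem_cons, List.not_mem_nil, or_false] at hy
          rcases hy with (h | h | h) | h
          · exact hl y (List.mem_of_mem_take h)
          · rw [h]; exact hs
          · rw [h]; exact hneg t ht
          · exact hl y (List.mem_of_mem_drop h)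
        · have h2 : (l.take (3 * j)).sum + (l.drop (3 * j)).sum = x := by
            rw [← List.sum_append, List.take_append_drop, hsum]
          have h3 : (l.take (3 * i)).sum + (s + -t) = (l.take (3 * j)).sum := by
            rw [← add_assoc, heq]; abel
          rw [List.sum_append, List.sum_append, List.sum_cons, List.sum_cons, List.sum_nil,
            add_zero, h3, h2]
      simp only [List.length_append, List.length_take, List.length_cons, List.length_nil,
        List.length_drop, hlen] at h1
      have h4 : 3 * (k / 3) ≤ k := Nat.mul_div_le k 3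
      omega
    rintro ⟨i, s⟩ hi ⟨j, t⟩ hj heq
    simp only [coe_product, Set.mem_prod, mem_coe, mem_range] at hi hj
    simp only at heq
    rcases lt_trichotomy i j with h | h | h
    · exact absurd heq (main i j h (by omega) s hi.2 t hj.2)
    · subst h
      rw [add_left_cancel heq]
    · exact absurd heq.symm (main j i h (by omega) t hj.2 s hi.2)
  have hcard := card_le_card_of_injOn (s := (range (k / 3 + 1) ×ˢ S : Finset (ℕ × G)))
    (t := (univ : Finset G)) (fun y : ℕ × G => (l.take (3 * y.1)).sum + y.2)
    (fun _ _ => by simp) hinj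
  rw [card_product, card_range, card_univ] at hcard
  rw [hlen]
  have h5 : k ≤ 3 * (k / 3 + 1) := by omega
  calc k * S.card ≤ 3 * (k / 3 + 1) * S.card := Nat.mul_le_mul_right _ h5
    _ = 3 * ((k / 3 + 1) * S.card) := by ring
    _ ≤ 3 * Fintype.card G := Nat.mul_le_mul_left _ hcard

end Run7.h928
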