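import Pool.Agent.Run7.h928.Digits

/-!
# Orders `ℤ[π]` with `π ^ d = ± N`: the sup norm on coordinates
-/

set_option autoImplicit false

namespace Run7.h928.PiAdic

open Finset

variable {R : Type*} [CommRing R] {d : ℕ}

/-- The maximum of the absolute values of the coordinates. -/
noncomputable def nrm (b : Module.Basis (Fin d) ℤ R) (x : R) : ℕ :=
  univ.sup (fun i => (b.repr x i).natAbs)

variable (b : Module.Basis (Fin d) ℤ R)

lemma coord_le (x : R) (i : Fin d) : (b.repr x i).natAbs ≤ nrm b x :=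
  Finset.le_sup (f := fun i => (b.repr x i).natAbs) (mem_univ i)

lemma nrm_le_iff (x : R) (B : ℕ) : nrm b x ≤ B ↔ ∀ i, (b.repr x i).natAbs ≤ B := by
  unfold nrm
  rw [Finset.sup_le_iff]
  simp

lemma nrm_zero : nrm b (0 : R) = 0 := by
  have := (nrm_le_iff b (0 : R) 0).2 (by intro i; simp)
  omega

lemma nrm_neg (x : R) : nrm b (-x) = nrm b x := by
  unfold nrm
  simp

lemma nrm_add_le (x y : R) : nrm b (x + y) ≤ nrm b x + nrm b y := by
  rw [nrm_le_iff]
  intro i
  rw [map_add, Finsupp.add_apply]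
  exact (Int.natAbs_add_le _ _).trans (Nat.add_le_add (coord_le b x i) (coord_le b y i))

lemma nrm_sub_le (x y : R) : nrm b (x - y) ≤ nrm b x + nrm b y := by
  rw [sub_eq_add_neg, ← nrm_neg b y]
  exact nrm_add_le b x (-y)

lemma nrm_zsmul (k : ℤ) (x : R) : nrm b (k • x) = k.natAbs * nrm b x := by
  apply le_antisymm
  · rw [nrm_le_iff]
    intro i
    rw [map_smul, Finsupp.smul_apply, smul_eq_mul, Int.natAbs_mul]
    exact Nat.mul_le_mul_left _ (coord_le b x i)
  · rcases Nat.eq_zero_or_pos (nrm b x) with h0 | h0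
    · rw [h0]; simp
    · obtain ⟨i, -, hi⟩ := Finset.exists_mem_eq_sup (univ : Finset (Fin d)) (by
        by_contra hne
        rw [not_nonempty_iff_eq_empty] at hne
        unfold nrm at h0
        rw [hne, Finset.sup_empty] at h0
        exact absurd h0 (by simp)) (fun i => (b.repr x i).natAbs)
      have h1 : nrm b x = (b.repr x i).natAbs := hi
      rw [h1, ← Int.natAbs_mul]
      have h2 := coord_le b (k • x) i
      rwa [map_smul, Finsupp.smul_apply, smul_eq_mul] at h2

lemma nrm_sum_le {ι : Type*} (s : Finset ι) (f : ι → R) :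
    nrm b (∑ i ∈ s, f i) ≤ ∑ i ∈ s, nrm b (f i) := by
  classical
  induction s using Finset.induction_on with
  | empty => simp [nrm_zero]
  | insert a s ha ih =>
    rw [sum_insert ha, sum_insert ha]
    exact (nrm_add_le b _ _).trans (Nat.add_le_add_left ih _)

lemma eq_zero_of_nrm (x : R) (h : nrm b x = 0) : x = 0 := by
  apply b.repr.injective
  ext i
  have := coord_le b x i
  rw [h] at this
  simpa using this

lemma nrm_pos {x : R} (hx : x ≠ 0) : 0 < nrm b x :=
  Nat.pos_of_ne_zero (fun h => hx (eq_zero_of_nrm b x h))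

/-- The box of elements of norm at most `B`. -/
noncomputable def box [DecidableEq R] (B : ℕ) : Finset R :=
  (Fintype.piFinset (fun _ : Fin d => Icc (-(B : ℤ)) B)).image b.equivFun.symm

lemma mem_box [DecidableEq R] (B : ℕ) (x : R) : x ∈ box b B ↔ nrm b x ≤ B := by
  unfold box
  rw [mem_image, nrm_le_iff]
  constructor
  · rintro ⟨v, hv, rfl⟩ i
    rw [Fintype.mem_piFinset] at hv
    have := hv i
    rw [mem_Icc] at this
    have e : (b.repr (b.equivFun.symm v)) i = v i := by
      have := congrFun (b.equivFun.apply_symm_apply v) i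
      simpa using this
    rw [e]
    omega
  · intro h
    refine ⟨b.equivFun x, ?_, b.equivFun.symm_apply_apply x⟩
    rw [Fintype.mem_piFinset]
    intro i
    have := h i
    rw [mem_Icc]
    have e : b.equivFun x i = b.repr x i := rfl
    rw [e]
    omega

lemma card_box [DecidableEq R] (B : ℕ) : (box b B).card = (2 * B + 1) ^ d := by
  unfold box
  rw [card_image_of_injective _ b.equivFun.symm.injective, Fintype.card_piFinset]
  simp only [Int.card_Icc, prod_const, card_univ, Fintype.card_fin]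
  congr 1
  omega

/-! ### Multiplication -/

lemma nrm_basis (i : Fin d) : nrm b (b i) ≤ 1 := by
  rw [nrm_le_iff]
  intro j
  classical
  rw [b.repr_self_apply]
  split_ifs <;> simp

/-- The data `π ^ d = ± N` and `b i = π ^ i`. -/
structure IsPowerBasis (N : ℕ) (π : R) (b : Module.Basis (Fin d) ℤ R) : Prop where
  hN : 2 ≤ N
  hd : 1 ≤ d
  hb : ∀ i : Fin d, b i = π ^ (i : ℕ)
  hπ : π ^ d = (N : R) ∨ π ^ d = -(N : R)

variable {b} {N : ℕ} {π : R}

lemma nrm_basis_mul (h : IsPowerBasis N π b) (i j : Fin d) : nrm b (b i * b j) ≤ N := by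
  rw [h.hb, h.hb, ← pow_add]
  by_cases hij : (i : ℕ) + j < d
  · have e : π ^ ((i : ℕ) + j) = b ⟨i + j, hij⟩ := by rw [h.hb]
    rw [e]
    exact (nrm_basis b _).trans (by have := h.hN; omega)
  · push Not at hij
    have hlt : (i : ℕ) + j - d < d := by omega
    have e : π ^ ((i : ℕ) + j) = π ^ d * b ⟨i + j - d, hlt⟩ := by
      rw [h.hb, ← pow_add]
      congr 1
      simp only
      omega
    rw [e]
    have key : nrm b ((N : R) * b ⟨i + j - d, hlt⟩) ≤ N := by
      have e2 : (N : R) * b ⟨i + j - d, hlt⟩ = (N : ℤ) • b ⟨i + j - d, hlt⟩ := by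
        rw [zsmul_eq_mul, Int.cast_natCast]
      rw [e2, nrm_zsmul, Int.natAbs_natCast]
      calc N * _ ≤ N * 1 := Nat.mul_le_mul_left _ (nrm_basis b _)
        _ = N := mul_one N
    rcases h.hπ with hp | hp
    · rw [hp]; exact key
    · rw [hp, neg_mul, nrm_neg]; exact key

lemma nrm_mul_le (h : IsPowerBasis N π b) (x y : R) :
    nrm b (x * y) ≤ d ^ 2 * N * nrm b x * nrm b y := by
  have e : x * y = ∑ i, ∑ j, (b.repr x i * b.repr y j) • (b i * b j) := by
    conv_lhs => rw [← b.sum_repr x, ← b.sum_repr y]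
    rw [Finset.sum_mul_sum]
    apply sum_congr rfl
    intro i _
    apply sum_congr rfl
    intro j _
    rw [smul_mul_smul_comm]
  rw [e]
  calc nrm b (∑ i, ∑ j, (b.repr x i * b.repr y j) • (b i * b j))
      ≤ ∑ i, nrm b (∑ j, (b.repr x i * b.repr y j) • (b i * b j)) := nrm_sum_le b _ _
    _ ≤ ∑ i, ∑ j, nrm b ((b.repr x i * b.repr y j) • (b i * b j)) :=
        sum_le_sum (fun i _ => nrm_sum_le b _ _)
    _ ≤ ∑ _i : Fin d, ∑ _j : Fin d, nrm b x * nrm b y * N := by
        apply sum_le_sum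
        intro i _
        apply sum_le_sum
        intro j _
        rw [nrm_zsmul, Int.natAbs_mul]
        exact Nat.mul_le_mul (Nat.mul_le_mul (coord_le b x i) (coord_le b y j))
          (nrm_basis_mul h i j)
    _ = d ^ 2 * N * nrm b x * nrm b y := by
        rw [sum_const, sum_const, card_univ, Fintype.card_fin, smul_eq_mul, smul_eq_mul]
        ring

/-! ### Digits -/

/-- The constant coordinate. -/
noncomputable def c0 (h : IsPowerBasis N π b) (x : R) : ℤ := b.repr x ⟨0, h.hd⟩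

lemma dvd_c0_mul (h : IsPowerBasis N π b) (y : R) : (N : ℤ) ∣ b.repr (π * y) ⟨0, h.hd⟩ := by
  classical
  have e : π * y = ∑ i, (b.repr y i) • (π * b i) := by
    conv_lhs => rw [← b.sum_repr y]
    rw [Finset.mul_sum]
    apply sum_congr rfl
    intro i _
    rw [mul_smul_comm]
  rw [e, map_sum, Finsupp.finsetSum_apply]
  apply dvd_sum
  intro i _
  rw [map_smul, Finsupp.smul_apply, smul_eq_mul]
  apply Dvd.dvd.mul_left
  have e2 : π * b i = π ^ ((i : ℕ) + 1) := by rw [h.hb, pow_succ']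
  rw [e2]
  by_cases hi : (i : ℕ) + 1 < d
  · have e3 : π ^ ((i : ℕ) + 1) = b ⟨i + 1, hi⟩ := by rw [h.hb]
    rw [e3, b.repr_self_apply, if_neg]
    · exact dvd_zero _
    · intro hc
      have := congrArg Fin.val hc
      simp at this
  · have e3 : (i : ℕ) + 1 = d := by have := i.isLt; omega
    rw [e3]
    have e4 : (N : R) = (N : ℤ) • b ⟨0, h.hd⟩ := by
      rw [h.hb, zsmul_eq_mul, Int.cast_natCast]
      simp
    have e5 : b.repr (N : R) ⟨0, h.hd⟩ = N := by
      rw [e4, map_smul, Finsupp.smul_apply, b.repr_self_apply, if_pos rfl, smul_eq_mul, mul_one]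
    rcases h.hπ with hp | hp
    · rw [hp, e5]
    · rw [hp, map_neg, Finsupp.neg_apply, e5]
      exact (dvd_neg (a := (N : ℤ))).2 dvd_rfl

lemma dvd_int_iff (h : IsPowerBasis N π b) (m : ℤ) : π ∣ (m : R) ↔ (N : ℤ) ∣ m := by
  classical
  constructor
  · rintro ⟨y, hy⟩
    have h1 := dvd_c0_mul h y
    rw [← hy] at h1
    have e4 : (m : R) = m • b ⟨0, h.hd⟩ := by
      rw [h.hb, zsmul_eq_mul]
      simp
    have e5 : b.repr (m : R) ⟨0, h.hd⟩ = m := by
      rw [e4, map_smul, Finsupp.smul_apply, b.repr_self_apply, if_pos rfl, smul_eq_mul, mul_one]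
    rwa [e5] at h1
  · rintro ⟨k, rfl⟩
    have h1 : π ∣ π ^ d := dvd_pow_self π (by have := h.hd; omega)
    have h2 : π ∣ (N : R) := by
      rcases h.hπ with hp | hp
      · rwa [hp] at h1
      · rw [hp] at h1
        exact (dvd_neg).1 h1
    push_cast
    exact Dvd.dvd.mul_right h2 _

lemma rep (h : IsPowerBasis N π b) (x : R) : ∃ k : Fin N, π ∣ x - ((k : ℕ) : R) := by
  have hN0 : (0 : ℤ) < N := by exact_mod_cast (by have := h.hN; omega : 0 < N)
  set u : ℤ := b.repr x ⟨0, h.hd⟩ with hu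
  have h1 : 0 ≤ u % (N : ℤ) := Int.emod_nonneg _ hN0.ne'
  have h2 : u % (N : ℤ) < N := Int.emod_lt_of_pos _ hN0
  refine ⟨⟨(u % (N : ℤ)).toNat, by omega⟩, ?_⟩
  have e1 : (((u % (N : ℤ)).toNat : ℕ) : R) = ((u % (N : ℤ) : ℤ) : R) := by
    rw [← Int.cast_natCast, Int.toNat_of_nonneg h1]
  simp only [e1]
  have h3 : π ∣ ((u - u % (N : ℤ) : ℤ) : R) := (dvd_int_iff h _).2 Int.dvd_self_sub_emod
  have h4 : π ∣ x - (u : R) := by
    have e2 : x - (u : R) = ∑ i ∈ univ.erase (⟨0, h.hd⟩ : Fin d), (b.repr x i) • b i := by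
      have e3 := Finset.add_sum_erase univ (fun i => (b.repr x i) • b i) (mem_univ (⟨0, h.hd⟩ : Fin d))
      rw [b.sum_repr] at e3
      have e4 : (b.repr x ⟨0, h.hd⟩) • b (⟨0, h.hd⟩ : Fin d) = (u : R) := by
        rw [h.hb, zsmul_eq_mul]
        simp [hu]
      rw [e4] at e3
      exact sub_eq_of_eq_add' e3.symm
    rw [e2]
    apply dvd_sum
    intro i hi
    rw [h.hb, zsmul_eq_mul]
    apply Dvd.dvd.mul_left
    apply dvd_pow_self
    intro h0
    apply (mem_erase.1 hi).1
    apply Fin.ext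
    exact h0
  have h5 := dvd_add h4 h3
  push_cast at h5
  rw [sub_add_sub_cancel] at h5
  exact h5

lemma inj (h : IsPowerBasis N π b) (k l : Fin N) (hkl : π ∣ ((k : ℕ) : R) - ((l : ℕ) : R)) :
    k = l := by
  have e : ((k : ℕ) : R) - ((l : ℕ) : R) = ((((k : ℕ) : ℤ) - ((l : ℕ) : ℤ) : ℤ) : R) := by
    push_cast; rfl
  rw [e, dvd_int_iff h] at hkl
  have hk := k.isLt
  have hl := l.isLt
  have h1 : |((k : ℕ) : ℤ) - ((l : ℕ) : ℤ)| < N := by
    rw [abs_lt]; constructor <;> omega
  have h2 := Int.eq_zero_of_abs_lt_dvd hkl h1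
  apply Fin.ext
  omega

lemma pi_ne_zero [Nontrivial R] (h : IsPowerBasis N π b) : π ≠ 0 := by
  intro h0
  have h1 : π ∣ ((1 : ℤ) : R) := by
    have h2 : (N : ℤ) ∣ (N : ℤ) := dvd_rfl
    have h3 : π ∣ (N : R) := by
      have := (dvd_int_iff h (N : ℤ)).2 h2
      push_cast at this
      exact this
    rw [h0, zero_dvd_iff] at h3
    -- `N = 0` in `R` contradicts freeness
    exfalso
    have e4 : (N : R) = (N : ℤ) • b ⟨0, h.hd⟩ := by
      rw [h.hb, zsmul_eq_mul, Int.cast_natCast]
      simp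
    classical
    have e5 : b.repr (N : R) ⟨0, h.hd⟩ = N := by
      rw [e4, map_smul, Finsupp.smul_apply, b.repr_self_apply, if_pos rfl, smul_eq_mul, mul_one]
    rw [h3, map_zero, Finsupp.zero_apply] at e5
    have := h.hN
    omega
  rw [dvd_int_iff h] at h1
  have := h.hN
  have h4 := Int.le_of_dvd one_pos h1
  omega

end Run7.h928.PiAdic
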