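import Pool.Agent.Run7.h928.Pack
import Pool.Agent.Run7.h928.PiNorm

/-!
# Short vectors in the lattices `{(f, g) : f ≡ g α mod π ^ n}` over `ℤ[π]`
-/

set_option autoImplicit false

namespace Run7.h928.PiAdic

open Finset

variable {R : Type*} [CommRing R] {d : ℕ} {b : Module.Basis (Fin d) ℤ R} {N : ℕ} {π : R}

lemma exists_int_multiple [IsDomain R] (b : Module.Basis (Fin d) ℤ R) (g : R) (hg : g ≠ 0) :
    ∃ (g' : R) (m : ℤ), m ≠ 0 ∧ g * g' = (m : R) := by
  have hfin : Module.Finite ℤ R := Module.Finite.of_basis b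
  have hint : Algebra.IsIntegral ℤ R := Algebra.IsIntegral.of_finite ℤ R
  have h1 := Ideal.comap_ne_bot_of_integral_mem (R := ℤ) (S := R) (I := Ideal.span {g}) hg
    (Ideal.mem_span_singleton_self g) (hint.isIntegral g)
  rw [Submodule.ne_bot_iff] at h1
  obtain ⟨m, hm, hm0⟩ := h1
  rw [Ideal.mem_comap, Ideal.mem_span_singleton] at hm
  obtain ⟨g', hg'⟩ := hm
  refine ⟨g', m, hm0, ?_⟩
  rw [← hg']
  simp

lemma intCast_mul_eq_smul (m : ℤ) (x : R) : (m : R) * x = m • x := by
  rw [zsmul_eq_mul]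

/-- Every element is congruent modulo `g` to an element of norm at most `d² N ‖g‖`. -/
lemma reduce [IsDomain R] (h : IsPowerBasis N π b) (g : R) (hg : g ≠ 0) (x : R) :
    ∃ y r : R, x = g * y + r ∧ nrm b r ≤ d ^ 2 * N * nrm b g := by
  obtain ⟨g', m, hm, hgm⟩ := exists_int_multiple b g hg
  set z := x * g' with hz
  set q : R := ∑ i, (b.repr z i / m) • b i with hq
  set ρ : R := ∑ i, (b.repr z i % m) • b i with hρ
  have hzq : z = (m : R) * q + ρ := by
    rw [hq, hρ, intCast_mul_eq_smul, Finset.smul_sum, ← sum_add_distrib]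
    conv_lhs => rw [← b.sum_repr z]
    apply sum_congr rfl
    intro i _
    rw [smul_smul, ← add_smul]
    congr 1
    have := Int.emod_add_mul_ediv (b.repr z i) m
    linarith
  have hρn : nrm b ρ ≤ m.natAbs := by
    rw [nrm_le_iff]
    intro i
    have e : b.repr ρ i = b.repr z i % m := by
      classical
      rw [hρ, map_sum, Finsupp.finsetSum_apply]
      simp only [map_smul, Finsupp.smul_apply, smul_eq_mul, b.repr_self_apply]
      simp
    rw [e]
    have h1 := Int.emod_nonneg (b.repr z i) hm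
    have h2 := Int.emod_lt_abs (b.repr z i) hm
    have h3 := Int.natCast_natAbs m
    omega
  refine ⟨q, x - g * q, by ring, ?_⟩
  have h1 : m • (x - g * q) = ρ * g := by
    rw [← intCast_mul_eq_smul, mul_sub, ← hgm]
    have : ρ = z - (m : R) * q := by rw [hzq]; ring
    rw [this, hz, ← hgm]
    ring
  have h2 := nrm_zsmul b m (x - g * q)
  rw [h1] at h2
  have h3 := nrm_mul_le h ρ g
  have hmpos : 0 < m.natAbs := Int.natAbs_pos.2 hm
  have h4 : m.natAbs * nrm b (x - g * q) ≤ m.natAbs * (d ^ 2 * N * nrm b g) := by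
    calc m.natAbs * nrm b (x - g * q) = nrm b (ρ * g) := h2.symm
      _ ≤ d ^ 2 * N * nrm b ρ * nrm b g := h3
      _ ≤ d ^ 2 * N * m.natAbs * nrm b g :=
          Nat.mul_le_mul_right _ (Nat.mul_le_mul_left _ hρn)
      _ = m.natAbs * (d ^ 2 * N * nrm b g) := by ring
  exact Nat.le_of_mul_le_mul_left h4 hmpos

/-- The lattice of `α` has a nonzero vector of norm at most `m`. -/
def Short (b : Module.Basis (Fin d) ℤ R) (π : R) (n : ℕ) (α : R ⧸ Ideal.span {π ^ n}) (m : ℕ) :
    Prop :=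
  ∃ f g : R, (f ≠ 0 ∨ g ≠ 0) ∧ nrm b f ≤ m ∧ nrm b g ≤ m ∧
    Ideal.Quotient.mk (Ideal.span {π ^ n}) f = Ideal.Quotient.mk (Ideal.span {π ^ n}) g * α

lemma mk_eq_iff {n : ℕ} (a f g : R) :
    Ideal.Quotient.mk (Ideal.span {π ^ n}) f =
      Ideal.Quotient.mk (Ideal.span {π ^ n}) g * Ideal.Quotient.mk (Ideal.span {π ^ n}) a ↔
      π ^ n ∣ g * a - f := by
  rw [← map_mul, eq_comm, Ideal.Quotient.eq, Ideal.mem_span_singleton]

section
variable {n : ℕ} [Fintype (R ⧸ Ideal.span {π ^ n})]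

lemma count_fixed [IsDomain R] (h : IsPowerBasis N π b) (g : R) (hg : g ≠ 0) (B : ℕ)
    (hgB : nrm b g ≤ B) (A : Finset (R ⧸ Ideal.span {π ^ n}))
    (hA : ∀ α ∈ A, ∃ f : R, nrm b f ≤ B ∧ Ideal.Quotient.mk (Ideal.span {π ^ n}) f =
      Ideal.Quotient.mk (Ideal.span {π ^ n}) g * α) :
    A.card ≤ (2 * (B + d ^ 2 * N * B) + 1) ^ d := by
  classical
  set p : R →+ (R ⧸ Ideal.span {π ^ n}) :=
    (Ideal.Quotient.mk (Ideal.span {π ^ n})).toAddMonoidHom with hp
  set μ : (R ⧸ Ideal.span {π ^ n}) →+ (R ⧸ Ideal.span {π ^ n}) :=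
    AddMonoidHom.mulLeft (Ideal.Quotient.mk (Ideal.span {π ^ n}) g) with hμ
  have key := packing p μ (box b B) (box b (d ^ 2 * N * B)) (box b (B + d ^ 2 * N * B)) (by
      intro q
      obtain ⟨x, rfl⟩ := Ideal.Quotient.mk_surjective q
      obtain ⟨y, r, hx, hr⟩ := reduce h g hg x
      refine ⟨r, ?_, ?_⟩
      · rw [mem_box]
        exact hr.trans (Nat.mul_le_mul_left _ hgB)
      · refine ⟨Ideal.Quotient.mk (Ideal.span {π ^ n}) y, ?_⟩
        simp only [hμ, hp, AddMonoidHom.coe_mulLeft, RingHom.toAddMonoidHom_eq_coe,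
          AddMonoidHom.coe_coe]
        rw [← map_mul, ← map_sub]
        congr 1
        rw [hx]; ring) (by
      intro f hf t ht
      rw [mem_box] at hf ht ⊢
      exact (nrm_add_le b f t).trans (Nat.add_le_add hf ht))
  have h1 : A.card ≤ ((univ ×ˢ (box b B) : Finset ((R ⧸ Ideal.span {π ^ n}) × R)).filter
      (fun x => μ x.1 = p x.2)).card := by
    have h2 : A ⊆ (((univ ×ˢ (box b B) : Finset ((R ⧸ Ideal.span {π ^ n}) × R)).filter
      (fun x => μ x.1 = p x.2)).image Prod.fst) := by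
      intro α hα
      obtain ⟨f, hf, h⟩ := hA α hα
      rw [mem_image]
      refine ⟨(α, f), ?_, rfl⟩
      rw [mem_filter, mem_product]
      refine ⟨⟨mem_univ _, ?_⟩, h.symm⟩
      rw [mem_box]; exact hf
    exact (card_le_card h2).trans card_image_le
  rw [card_box] at key
  exact h1.trans key

/-- A nonzero multiple of `π ^ n` is large. -/
lemma card_le_of_dvd [IsDomain R] (h : IsPowerBasis N π b) (f : R) (hf : f ≠ 0)
    (hdvd : π ^ n ∣ f) :
    Fintype.card (R ⧸ Ideal.span {π ^ n}) ≤ (2 * (d ^ 2 * N * nrm b f) + 1) ^ d := by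
  classical
  rw [← card_box b, ← Finset.card_univ]
  apply card_le_card_of_surjOn (fun x => Ideal.Quotient.mk (Ideal.span {π ^ n}) x)
  intro q _
  obtain ⟨x, rfl⟩ := Ideal.Quotient.mk_surjective q
  obtain ⟨y, r, hx, hr⟩ := reduce h f hf x
  refine ⟨r, ?_, ?_⟩
  · rw [mem_coe, mem_box]; exact hr
  · simp only
    rw [Ideal.Quotient.eq, Ideal.mem_span_singleton, hx]
    have e : r - (f * y + r) = -(f * y) := by ring
    rw [e]
    exact (dvd_neg).2 (Dvd.dvd.mul_right hdvd y)

/-- At most `(E B) ^ (2 d)` classes have a nonzero vector of norm at most `B`. -/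
lemma count_short [IsDomain R] (h : IsPowerBasis N π b) (B : ℕ) (hB : 1 ≤ B)
    (A : Finset (R ⧸ Ideal.span {π ^ n})) (hA : ∀ α ∈ A, Short b π n α B) :
    A.card ≤ ((2 * (d ^ 2 * N) + 3) * B) ^ (2 * d) := by
  classical
  set D := d ^ 2 * N with hD
  have hDpos : 1 ≤ D := by
    have := h.hd; have := h.hN
    exact Nat.succ_le_of_lt (by positivity)
  have hEB1 : 1 ≤ (2 * D + 3) * B := by nlinarith
  have hpow : ((2 * D + 3) * B) ^ (2 * d) = ((2 * D + 3) * B) ^ d * ((2 * D + 3) * B) ^ d := by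
    rw [← pow_add]; congr 1; ring
  by_cases hbig : Fintype.card (R ⧸ Ideal.span {π ^ n}) ≤ (2 * (D * B) + 1) ^ d
  · calc A.card ≤ Fintype.card (R ⧸ Ideal.span {π ^ n}) := card_le_univ A
      _ ≤ (2 * (D * B) + 1) ^ d := hbig
      _ ≤ ((2 * D + 3) * B) ^ d := Nat.pow_le_pow_left (by nlinarith) d
      _ ≤ ((2 * D + 3) * B) ^ d * ((2 * D + 3) * B) ^ d :=
          Nat.le_mul_of_pos_right _ (by positivity)
      _ = _ := hpow.symm
  · let Ag : R → Finset (R ⧸ Ideal.span {π ^ n}) := fun g => A.filter (fun α => g ≠ 0 ∧ ∃ f : R,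
      nrm b f ≤ B ∧ Ideal.Quotient.mk (Ideal.span {π ^ n}) f =
        Ideal.Quotient.mk (Ideal.span {π ^ n}) g * α)
    have h1 : A ⊆ (box b B).biUnion Ag := by
      intro α hα
      obtain ⟨f, g, hne, hf, hg, heq⟩ := hA α hα
      have hg0 : g ≠ 0 := by
        rintro rfl
        have hf0 : f ≠ 0 := by simpa using hne
        rw [map_zero, zero_mul, Ideal.Quotient.eq_zero_iff_mem, Ideal.mem_span_singleton] at heq
        apply hbig
        refine (card_le_of_dvd h f hf0 heq).trans (Nat.pow_le_pow_left ?_ d)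
        have := Nat.mul_le_mul_left D hf
        rw [← hD]
        omega
      rw [mem_biUnion]
      exact ⟨g, (mem_box b B g).2 hg, mem_filter.2 ⟨hα, hg0, f, hf, heq⟩⟩
    calc A.card ≤ ((box b B).biUnion Ag).card := card_le_card h1
      _ ≤ ∑ g ∈ box b B, (Ag g).card := card_biUnion_le
      _ ≤ ∑ _g ∈ box b B, (2 * (B + D * B) + 1) ^ d := by
          apply sum_le_sum
          intro g hg
          rw [mem_box] at hg
          by_cases hg0 : g = 0
          · have : Ag g = ∅ := by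
              apply filter_eq_empty_iff.2
              intro α _ hc
              exact hc.1 hg0
            rw [this]; simp
          · apply count_fixed h g hg0 B hg
            intro α hα
            exact (mem_filter.1 hα).2.2
      _ = (2 * B + 1) ^ d * (2 * (B + D * B) + 1) ^ d := by
          rw [sum_const, card_box, smul_eq_mul]
      _ ≤ ((2 * D + 3) * B) ^ d * ((2 * D + 3) * B) ^ d := by
          apply Nat.mul_le_mul
          · exact Nat.pow_le_pow_left (by nlinarith) d
          · exact Nat.pow_le_pow_left (by nlinarith) d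
      _ = _ := hpow.symm

end

/-! ### Covering -/

/-- If `ℓ` is the first minimum of the lattice of `α`, there is `(f, g)` in the lattice with
`g ≡ 1` modulo `π` and `‖(f, g)‖ ℓ ^ (2 d - 1) ≤ 3 · 4 ^ d N M`. -/
theorem exists_good [IsDomain R] (h : IsPowerBasis N π b) (n : ℕ)
    [Fintype (R ⧸ Ideal.span {π ^ n})] [Fintype (R ⧸ Ideal.span {π ^ 1})]
    (hcard : Fintype.card (R ⧸ Ideal.span {π ^ n}) = N ^ n)
    (hcard1 : Fintype.card (R ⧸ Ideal.span {π ^ 1}) = N ^ 1)
    (α : R ⧸ Ideal.span {π ^ n}) (ℓ : ℕ) (hℓ : 0 < ℓ) (hmin : ∀ m < ℓ, ¬ Short b π n α m) :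
    ∃ (f g : R) (K : ℕ), π ∣ g - 1 ∧
      Ideal.Quotient.mk (Ideal.span {π ^ n}) f = Ideal.Quotient.mk (Ideal.span {π ^ n}) g * α ∧
      nrm b f ≤ K ∧ nrm b g ≤ K ∧ K * ℓ ^ (2 * d - 1) ≤ 3 * 4 ^ d * N * N ^ n := by
  classical
  set G := (R ⧸ Ideal.span {π ^ n}) × (R ⧸ Ideal.span {π ^ 1}) with hG
  let ψ : R × R →+ G :=
    { toFun := fun v => (Ideal.Quotient.mk (Ideal.span {π ^ n}) v.1 -
        Ideal.Quotient.mk (Ideal.span {π ^ n}) v.2 * α,
        Ideal.Quotient.mk (Ideal.span {π ^ 1}) v.2)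
      map_zero' := by apply Prod.ext <;> simp
      map_add' := by
        intro v w
        simp only [Prod.fst_add, Prod.snd_add, map_add]
        congr 1
        ring }
  have hψ1 : ∀ v, (ψ v).1 = Ideal.Quotient.mk (Ideal.span {π ^ n}) v.1 -
        Ideal.Quotient.mk (Ideal.span {π ^ n}) v.2 * α := fun v => rfl
  have hψ2 : ∀ v, (ψ v).2 = Ideal.Quotient.mk (Ideal.span {π ^ 1}) v.2 := fun v => rfl
  have hψsurj : Function.Surjective ψ := by
    rintro ⟨p, q⟩
    obtain ⟨g, rfl⟩ := Ideal.Quotient.mk_surjective q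
    obtain ⟨f, hf⟩ := Ideal.Quotient.mk_surjective
      (p + Ideal.Quotient.mk (Ideal.span {π ^ n}) g * α)
    refine ⟨(f, g), ?_⟩
    apply Prod.ext
    · rw [hψ1]
      simp only
      rw [hf]
      ring
    · rfl
  set r0 : ℕ := (ℓ - 1) / 2 with hr0
  set r : ℕ := max r0 1 with hr
  have hrℓ : r ≤ ℓ := by
    rw [hr]; apply max_le <;> omega
  let S : Finset G := (box b r ×ˢ box b r).image ψ
  have hS0 : ∀ s ∈ S, ∃ v : R × R, ψ v = s ∧ nrm b v.1 ≤ r ∧ nrm b v.2 ≤ r := by
    intro s hs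
    obtain ⟨v, hv, rfl⟩ := mem_image.1 hs
    rw [mem_product, mem_box, mem_box] at hv
    exact ⟨v, rfl, hv.1, hv.2⟩
  have hSneg : ∀ s ∈ S, -s ∈ S := by
    intro s hs
    obtain ⟨v, rfl, h1, h2⟩ := hS0 s hs
    rw [← map_neg]
    apply mem_image_of_mem
    rw [mem_product, mem_box, mem_box, Prod.fst_neg, Prod.snd_neg, nrm_neg, nrm_neg]
    exact ⟨h1, h2⟩
  have hSgen : AddSubgroup.closure (S : Set G) = ⊤ := by
    rw [eq_top_iff]
    intro x _
    obtain ⟨⟨f, g⟩, rfl⟩ := hψsurj x
    have hbasis : ∀ i, ψ (b i, 0) ∈ AddSubgroup.closure (S : Set G) ∧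
        ψ (0, b i) ∈ AddSubgroup.closure (S : Set G) := by
      intro i
      constructor
      · apply AddSubgroup.subset_closure
        rw [mem_coe]
        apply mem_image_of_mem
        rw [mem_product, mem_box, mem_box]
        constructor
        · exact (nrm_basis b i).trans (le_max_right _ _)
        · simp only [nrm_zero]; exact Nat.zero_le _
      · apply AddSubgroup.subset_closure
        rw [mem_coe]
        apply mem_image_of_mem
        rw [mem_product, mem_box, mem_box]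
        constructor
        · simp only [nrm_zero]; exact Nat.zero_le _
        · exact (nrm_basis b i).trans (le_max_right _ _)
    have e : ((f, g) : R × R) = ∑ i, ((b.repr f i) • ((b i, 0) : R × R) +
        (b.repr g i) • ((0, b i) : R × R)) := by
      rw [sum_add_distrib]
      apply Prod.ext
      · simp only [Prod.fst_add, Prod.fst_sum, Prod.smul_fst, smul_zero, sum_const_zero, add_zero]
        exact (b.sum_repr f).symm
      · simp only [Prod.snd_add, Prod.snd_sum, Prod.smul_snd, smul_zero, sum_const_zero, zero_add]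
        exact (b.sum_repr g).symm
    rw [e, map_sum]
    apply AddSubgroup.sum_mem
    intro i _
    rw [map_add, map_zsmul, map_zsmul]
    exact AddSubgroup.add_mem _ (AddSubgroup.zsmul_mem _ (hbasis i).1 _)
      (AddSubgroup.zsmul_mem _ (hbasis i).2 _)
  -- size of `S`
  have hScard : (2 * r0 + 1) ^ (2 * d) ≤ S.card := by
    have h1 : ((box b r0 ×ˢ box b r0).image ψ).card ≤ S.card := by
      apply card_le_card
      apply image_subset_image
      intro v hv
      rw [mem_product, mem_box, mem_box] at hv ⊢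
      exact ⟨hv.1.trans (le_max_left _ _), hv.2.trans (le_max_left _ _)⟩
    have h2 : ((box b r0 ×ˢ box b r0).image ψ).card = (box b r0 ×ˢ box b r0).card := by
      apply card_image_of_injOn
      rintro ⟨f, g⟩ hv ⟨f', g'⟩ hw heq
      rw [mem_coe, mem_product, mem_box, mem_box] at hv hw
      simp only at hv hw
      by_contra hne
      have h3 := congrArg Prod.fst heq
      rw [hψ1, hψ1] at h3
      simp only at h3
      apply hmin (2 * r0) (by omega)
      refine ⟨f - f', g - g', ?_, ?_, ?_, ?_⟩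
      · by_contra hcon
        push Not at hcon
        rw [sub_eq_zero, sub_eq_zero] at hcon
        exact hne (Prod.ext hcon.1 hcon.2)
      · have := nrm_sub_le b f f'; omega
      · have := nrm_sub_le b g g'; omega
      · rw [map_sub, map_sub]
        linear_combination h3
    rw [h2, card_product, card_box] at h1
    calc (2 * r0 + 1) ^ (2 * d) = (2 * r0 + 1) ^ d * (2 * r0 + 1) ^ d := by
          rw [← pow_add]; congr 1; ring
      _ ≤ S.card := h1
  obtain ⟨l, hlS, hlsum, hllen⟩ := short_word S hSneg hSgen ((0, 1) : G)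
  -- lift the word
  have hlift : ∀ l : List G, (∀ s ∈ l, s ∈ S) → ∃ v : R × R, ψ v = l.sum ∧
      nrm b v.1 ≤ l.length * r ∧ nrm b v.2 ≤ l.length * r := by
    intro l
    induction l with
    | nil =>
      intro _
      exact ⟨0, by simp, by simp [nrm_zero], by simp [nrm_zero]⟩
    | cons s l ih =>
      intro hl
      obtain ⟨v, hv, hv1, hv2⟩ := ih (fun t ht => hl t (List.mem_cons_of_mem s ht))
      obtain ⟨w, hw, hw1, hw2⟩ := hS0 s (hl s List.mem_cons_self)
      refine ⟨w + v, ?_, ?_, ?_⟩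
      · rw [map_add, hv, hw, List.sum_cons]
      · rw [Prod.fst_add, List.length_cons]
        have := nrm_add_le b w.1 v.1
        nlinarith
      · rw [Prod.snd_add, List.length_cons]
        have := nrm_add_le b w.2 v.2
        nlinarith
  obtain ⟨⟨f, g⟩, hv, hf, hg⟩ := hlift l hlS
  rw [hlsum] at hv
  simp only at hf hg
  refine ⟨f, g, l.length * ℓ, ?_, ?_, ?_, ?_, ?_⟩
  · have h1 := congrArg Prod.snd hv
    rw [hψ2] at h1
    simp only at h1
    rw [← map_one (Ideal.Quotient.mk (Ideal.span {π ^ 1})), Ideal.Quotient.eq,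
      Ideal.mem_span_singleton, pow_one] at h1
    exact h1
  · have h1 := congrArg Prod.fst hv
    rw [hψ1] at h1
    simp only at h1
    exact sub_eq_zero.1 h1
  · exact hf.trans (Nat.mul_le_mul_left _ hrℓ)
  · exact hg.trans (Nat.mul_le_mul_left _ hrℓ)
  · have hcG : Fintype.card G = N ^ n * N := by
      rw [Fintype.card_prod, hcard, hcard1, pow_one]
    have h1 : ℓ ≤ 2 * (2 * r0 + 1) := by omega
    have hd := h.hd
    have h2 : ℓ ^ (2 * d) ≤ 4 ^ d * S.card := by
      calc ℓ ^ (2 * d) ≤ (2 * (2 * r0 + 1)) ^ (2 * d) := Nat.pow_le_pow_left h1 _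
        _ = 4 ^ d * (2 * r0 + 1) ^ (2 * d) := by
            rw [mul_pow, pow_mul 2 2 d]; norm_num
        _ ≤ 4 ^ d * S.card := Nat.mul_le_mul_left _ hScard
    have h3 : ℓ * ℓ ^ (2 * d - 1) = ℓ ^ (2 * d) := by
      rw [← pow_succ']
      congr 1
      omega
    calc l.length * ℓ * ℓ ^ (2 * d - 1) = l.length * ℓ ^ (2 * d) := by rw [mul_assoc, h3]
      _ ≤ l.length * (4 ^ d * S.card) := Nat.mul_le_mul_left _ h2
      _ = 4 ^ d * (l.length * S.card) := by ring
      _ ≤ 4 ^ d * (3 * Fintype.card G) := Nat.mul_le_mul_left _ hllen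
      _ = 3 * 4 ^ d * N * N ^ n := by rw [hcG]; ring

end Run7.h928.PiAdic
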