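import Pool.Agent.Run7.h928.PiDefs
import Pool.Agent.Run7.h928.PiLattice
import Pool.Agent.Run7.h928.NAdicAvg

/-!
# The average `π`-adic complexity of finite sequences
-/

set_option autoImplicit false

namespace Run7.h928.PiAdic

open Finset

variable {R : Type*} [CommRing R] {d : ℕ} {b : Module.Basis (Fin d) ℤ R} {N : ℕ} {π : R}

lemma pi_nzd [IsDomain R] (h : IsPowerBasis N π b) (x : R) (hx : π * x = 0) : x = 0 := by
  rcases mul_eq_zero.1 hx with h0 | h0
  · exact absurd h0 (pi_ne_zero h)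
  · exact h0

lemma pi_not_unit (h : IsPowerBasis N π b) : ¬ π ∣ (1 : R) := by
  intro h1
  have h2 := (dvd_int_iff h 1).1 (by simpa using h1)
  have := h.hN
  have h4 := Int.le_of_dvd one_pos h2
  omega

/-- The residue class attached to a word. -/
noncomputable def wordClass (π : R) (n : ℕ) (w : Fin n → Fin N) : R ⧸ Ideal.span {π ^ n} :=
  Ideal.Quotient.mk (Ideal.span {π ^ n}) (∑ i : Fin n, ((w i : ℕ) : R) * π ^ (i : ℕ))

lemma wordClass_bijective [IsDomain R] (h : IsPowerBasis N π b) (n : ℕ) :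
    Function.Bijective (wordClass (N := N) π n) :=
  word_bijective N (by have := h.hN; omega) π (rep h) (inj h) (pi_nzd h) n

lemma exists_short [Nontrivial R] (b : Module.Basis (Fin d) ℤ R) (π : R) (n : ℕ)
    (α : R ⧸ Ideal.span {π ^ n}) : ∃ m, Short b π n α m := by
  obtain ⟨a, rfl⟩ := Ideal.Quotient.mk_surjective α
  refine ⟨max (nrm b a) (nrm b 1), a, 1, Or.inr one_ne_zero, le_max_left _ _, le_max_right _ _, ?_⟩
  rw [map_one, one_mul]

/-- The first minimum of the lattice of `α`. -/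
noncomputable def firstMin [Nontrivial R] (b : Module.Basis (Fin d) ℤ R) (π : R) (n : ℕ)
    (α : R ⧸ Ideal.span {π ^ n}) : ℕ :=
  @Nat.find _ (Classical.decPred _) (exists_short b π n α)

section
variable [Nontrivial R] {n : ℕ}

lemma firstMin_spec (α : R ⧸ Ideal.span {π ^ n}) : Short b π n α (firstMin b π n α) :=
  @Nat.find_spec _ (Classical.decPred _) (exists_short b π n α)

lemma firstMin_min (α : R ⧸ Ideal.span {π ^ n}) (m : ℕ) (hm : m < firstMin b π n α) :
    ¬ Short b π n α m :=
  @Nat.find_min _ (Classical.decPred _) (exists_short b π n α) m hm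

lemma firstMin_le (α : R ⧸ Ideal.span {π ^ n}) (m : ℕ) (hm : Short b π n α m) :
    firstMin b π n α ≤ m :=
  @Nat.find_min' _ (Classical.decPred _) (exists_short b π n α) m hm

lemma firstMin_pos (α : R ⧸ Ideal.span {π ^ n}) : 0 < firstMin b π n α := by
  rcases Nat.eq_zero_or_pos (firstMin b π n α) with h | h
  · exfalso
    obtain ⟨f, g, hne, hf, hg, -⟩ := firstMin_spec (b := b) α
    rw [h] at hf hg
    rcases hne with h1 | h1
    · exact h1 (eq_zero_of_nrm b f (by omega))
    · exact h1 (eq_zero_of_nrm b g (by omega))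
  · exact h

end

section
variable [IsDomain R] {n : ℕ} [Fintype (R ⧸ Ideal.span {π ^ n})]

/-- `∑ X / ℓ(α) ≤ 2 E M` where `X ^ (2 d) = M`. -/
lemma sum_inv_le (h : IsPowerBasis N π b) (hcard : Fintype.card (R ⧸ Ideal.span {π ^ n}) = N ^ n)
    (X : ℝ) (hX : 0 < X) (hXM : X ^ (2 * d) = (N : ℝ) ^ n) :
    ∑ α : R ⧸ Ideal.span {π ^ n}, X * ((1 : ℝ) / firstMin b π n α) ≤
      2 * ((2 * (d ^ 2 * N) + 3 : ℕ) : ℝ) * (N : ℝ) ^ n := by
  classical
  set E : ℕ := 2 * (d ^ 2 * N) + 3 with hE
  have hEpos : (0 : ℝ) < E := by rw [hE]; positivity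
  set K : ℕ := ⌊X / E⌋₊ with hK
  have hK1 : (K : ℝ) ≤ X / E := Nat.floor_le (by positivity)
  have hK2 : X / E < (K : ℝ) + 1 := Nat.lt_floor_add_one _
  set M : ℝ := (N : ℝ) ^ n with hM
  have hcardr : (Fintype.card (R ⧸ Ideal.span {π ^ n}) : ℝ) = M := by
    rw [hcard, hM]; push_cast; rfl
  have hd := h.hd
  have h1 : ∑ α : R ⧸ Ideal.span {π ^ n}, (1 : ℝ) / firstMin b π n α ≤
      ∑ α : R ⧸ Ideal.span {π ^ n}, (1 / (K + 1 : ℝ) +
      ∑ j ∈ Icc 1 K, if firstMin b π n α ≤ j then (1 : ℝ) / (j * (j + 1)) else 0) :=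
    sum_le_sum (fun α _ => NAdic.inv_le_sum _ K (firstMin_pos α))
  rw [sum_add_distrib, sum_comm, sum_const, card_univ, nsmul_eq_mul, hcardr] at h1
  have h2 : ∀ j ∈ Icc 1 K, (∑ α : R ⧸ Ideal.span {π ^ n},
      if firstMin b π n α ≤ j then (1 : ℝ) / (j * (j + 1)) else 0) ≤
      (E : ℝ) ^ (2 * d) * (K : ℝ) ^ (2 * d - 2) := by
    intro j hj
    rw [mem_Icc] at hj
    rw [← sum_filter, sum_const, nsmul_eq_mul]
    have hc : ((univ.filter (fun α : R ⧸ Ideal.span {π ^ n} => firstMin b π n α ≤ j)).card : ℝ) ≤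
        ((E : ℝ) * j) ^ (2 * d) := by
      have := count_short h j hj.1 (univ.filter (fun α => firstMin b π n α ≤ j)) (by
        intro α hα
        rw [mem_filter] at hα
        obtain ⟨f, g, hne, hf, hg, heq⟩ := firstMin_spec (b := b) α
        exact ⟨f, g, hne, hf.trans hα.2, hg.trans hα.2, heq⟩)
      rw [← hE] at this
      exact_mod_cast this
    have hj0 : (1 : ℝ) ≤ j := by exact_mod_cast hj.1
    have hjK : (j : ℝ) ≤ K := by exact_mod_cast hj.2
    have e1 : (j : ℝ) ^ (2 * d) = (j : ℝ) ^ (2 * d - 2) * (j : ℝ) ^ 2 := by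
      rw [← pow_add]; congr 1; omega
    calc _ ≤ ((E : ℝ) * j) ^ (2 * d) * (1 / (j * (j + 1))) := by
          apply mul_le_mul_of_nonneg_right hc; positivity
      _ = (E : ℝ) ^ (2 * d) * (j : ℝ) ^ (2 * d - 2) * (j / (j + 1)) := by
          rw [mul_pow, e1]; field_simp
      _ ≤ (E : ℝ) ^ (2 * d) * (j : ℝ) ^ (2 * d - 2) * 1 := by
          apply mul_le_mul_of_nonneg_left _ (by positivity)
          rw [div_le_one (by positivity)]
          linarith
      _ ≤ (E : ℝ) ^ (2 * d) * (K : ℝ) ^ (2 * d - 2) := by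
          rw [mul_one]
          apply mul_le_mul_of_nonneg_left _ (by positivity)
          exact pow_le_pow_left₀ (by positivity) hjK _
  have h3 : ∑ j ∈ Icc 1 K, (∑ α : R ⧸ Ideal.span {π ^ n},
      if firstMin b π n α ≤ j then (1 : ℝ) / (j * (j + 1)) else 0) ≤
      (E : ℝ) ^ (2 * d) * (K : ℝ) ^ (2 * d - 1) := by
    calc _ ≤ ∑ _j ∈ Icc 1 K, (E : ℝ) ^ (2 * d) * (K : ℝ) ^ (2 * d - 2) := sum_le_sum h2
      _ = (E : ℝ) ^ (2 * d) * (K : ℝ) ^ (2 * d - 1) := by
        rw [sum_const, Nat.card_Icc, nsmul_eq_mul]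
        have : (K : ℝ) ^ (2 * d - 1) = (K : ℝ) ^ (2 * d - 2) * K := by
          rw [← pow_succ]; congr 1; omega
        rw [this]
        push_cast [Nat.add_sub_cancel]
        ring
  have h4 : X * ((E : ℝ) ^ (2 * d) * (K : ℝ) ^ (2 * d - 1)) ≤ E * M := by
    have h5 : (K : ℝ) ^ (2 * d - 1) ≤ (X / E) ^ (2 * d - 1) := pow_le_pow_left₀ (by positivity) hK1 _
    have e2 : (E : ℝ) ^ (2 * d) = (E : ℝ) ^ (2 * d - 1) * E := by
      rw [← pow_succ]; congr 1; omega
    have e3 : X * X ^ (2 * d - 1) = M := by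
      rw [← hXM, ← pow_succ']; congr 1; omega
    calc X * ((E : ℝ) ^ (2 * d) * (K : ℝ) ^ (2 * d - 1))
        ≤ X * ((E : ℝ) ^ (2 * d) * (X / E) ^ (2 * d - 1)) := by
          apply mul_le_mul_of_nonneg_left _ hX.le
          apply mul_le_mul_of_nonneg_left h5 (by positivity)
      _ = E * (X * X ^ (2 * d - 1)) := by
          rw [e2, div_pow]
          field_simp
      _ = E * M := by rw [e3]
  have h6 : X * (M * (1 / (K + 1 : ℝ))) ≤ E * M := by
    have hMpos : 0 < M := by rw [← hXM]; positivity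
    have h7 : X ≤ E * (K + 1) := by
      have := (div_lt_iff₀ hEpos).1 hK2
      linarith
    rw [mul_one_div, ← mul_div_assoc, div_le_iff₀ (by positivity)]
    nlinarith
  rw [← mul_sum]
  calc X * ∑ α : R ⧸ Ideal.span {π ^ n}, (1 : ℝ) / firstMin b π n α
      ≤ X * (M * (1 / (K + 1 : ℝ)) + (E : ℝ) ^ (2 * d) * (K : ℝ) ^ (2 * d - 1)) :=
        mul_le_mul_of_nonneg_left (h1.trans (by linarith)) hX.le
    _ ≤ E * M + E * M := by rw [mul_add]; linarith
    _ = 2 * E * M := by ring

/-- `∑ log ℓ(α) ≥ M (log M / (2 d) - log (2 E))`. -/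
lemma sum_log_ge (h : IsPowerBasis N π b)
    (hcard : Fintype.card (R ⧸ Ideal.span {π ^ n}) = N ^ n) :
    (N : ℝ) ^ n * (n * Real.log N / (2 * d) - Real.log (2 * ((2 * (d ^ 2 * N) + 3 : ℕ) : ℝ))) ≤
      ∑ α : R ⧸ Ideal.span {π ^ n}, Real.log (firstMin b π n α) := by
  set E : ℕ := 2 * (d ^ 2 * N) + 3 with hE
  have hEpos : (0 : ℝ) < E := by rw [hE]; positivity
  set M : ℝ := (N : ℝ) ^ n with hM
  have hN0 : (0 : ℝ) < N := by exact_mod_cast (by have := h.hN; omega : 0 < N)
  have hMpos : 0 < M := by positivity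
  have hd := h.hd
  have hd0 : (2 * (d : ℝ)) ≠ 0 := by
    have : (0 : ℝ) < d := by exact_mod_cast hd
    positivity
  have hcardr : (Fintype.card (R ⧸ Ideal.span {π ^ n}) : ℝ) = M := by
    rw [hcard, hM]; push_cast; rfl
  set X : ℝ := M ^ ((1 : ℝ) / (2 * d)) with hX
  have hXpos : 0 < X := Real.rpow_pos_of_pos hMpos _
  have hXM : X ^ (2 * d) = M := by
    rw [hX, ← Real.rpow_natCast, ← Real.rpow_mul hMpos.le]
    push_cast
    rw [one_div_mul_cancel hd0, Real.rpow_one]
  have hlogX : Real.log X = n * Real.log N / (2 * d) := by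
    rw [hX, Real.log_rpow hMpos, hM, Real.log_pow]
    field_simp
  have h1 : ∀ α : R ⧸ Ideal.span {π ^ n}, Real.log X - Real.log (2 * E) + 1 -
      1 / (2 * E) * (X * (1 / firstMin b π n α)) ≤ Real.log (firstMin b π n α) := by
    intro α
    have hℓ : (0 : ℝ) < firstMin b π n α := by exact_mod_cast firstMin_pos α
    have h2 := Real.log_le_sub_one_of_pos
      (x := 1 / (2 * E) * (X * (1 / firstMin b π n α))) (by positivity)
    rw [Real.log_mul (by positivity) (by positivity), Real.log_mul (by positivity) (by positivity),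
      one_div, Real.log_inv, one_div, Real.log_inv] at h2
    rw [one_div, one_div]
    linarith
  have h2 := sum_le_sum (s := (univ : Finset (R ⧸ Ideal.span {π ^ n}))) (fun α _ => h1 α)
  rw [sum_sub_distrib, sum_const, card_univ, nsmul_eq_mul, hcardr, ← mul_sum] at h2
  have h3 := sum_inv_le h hcard X hXpos hXM
  rw [← hE, ← hM] at h3
  have h4 : 1 / (2 * (E : ℝ)) * ∑ α : R ⧸ Ideal.span {π ^ n}, X * ((1 : ℝ) / firstMin b π n α) ≤
      M := by
    calc _ ≤ 1 / (2 * (E : ℝ)) * (2 * E * M) := mul_le_mul_of_nonneg_left h3 (by positivity)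
      _ = M := by field_simp
  rw [← hlogX]
  nlinarith

end

/-! ### Complexity of words -/

/-- The size function `φ` is `d log_N ‖x‖` up to a bounded error. -/
structure IsSize (N : ℕ) (b : Module.Basis (Fin d) ℤ R) (φ : R → EReal) (c : ℝ) : Prop where
  zero : φ 0 = ⊥
  lower : ∀ x, x ≠ 0 → (((d : ℝ) * Real.logb N (nrm b x) : ℝ) : EReal) ≤ φ x
  upper : ∀ x, x ≠ 0 → φ x ≤ (((d : ℝ) * Real.logb N (nrm b x) + c : ℝ) : EReal)

section
variable [IsDomain R]

omit [IsDomain R] in
lemma partialSum_eq {n : ℕ} (w : Fin n → Fin N) (a : ℕ → Fin N) (ha : ∀ i : Fin n, a i = w i) :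
    partialSum π a n = ∑ i : Fin n, ((w i : ℕ) : R) * π ^ (i : ℕ) := by
  rw [partialSum, Finset.sum_range]
  simp only [ha]

lemma word_lower (h : IsPowerBasis N π b) {φ : R → EReal} {c : ℝ} (hφ : IsSize N b φ c) (n : ℕ)
    (w : Fin n → Fin N) :
    (((d : ℝ) * Real.logb N (firstMin b π n (wordClass π n w)) : ℝ) : EReal) ≤
      wordComplexity φ π n w := by
  unfold wordComplexity seqComplexity
  refine le_iInf fun a => le_iInf fun ha => le_iInf fun f => le_iInf fun g => le_iInf fun hfg => ?_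
  obtain ⟨hcop, hfr⟩ := hfg
  have hg0 : g ≠ 0 := by
    rintro rfl
    have := isCoprime_zero_left.1 hcop
    exact pi_not_unit h this.dvd
  have h1 : Short b π n (wordClass π n w) (max (nrm b f) (nrm b g)) := by
    refine ⟨f, g, Or.inr hg0, le_max_left _ _, le_max_right _ _, ?_⟩
    rw [wordClass, mk_eq_iff, ← partialSum_eq w a ha]
    exact hfr n
  have h2 := firstMin_le _ _ h1
  have hN1 : (1 : ℝ) < N := by exact_mod_cast (by have := h.hN; omega : 1 < N)
  have hℓpos : (0 : ℝ) < firstMin b π n (wordClass π n w) := by exact_mod_cast firstMin_pos _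
  have key : ∀ m : ℕ, firstMin b π n (wordClass π n w) ≤ m →
      (((d : ℝ) * Real.logb N (firstMin b π n (wordClass π n w)) : ℝ) : EReal) ≤
        (((d : ℝ) * Real.logb N m : ℝ) : EReal) := by
    intro m hm
    rw [EReal.coe_le_coe_iff]
    apply mul_le_mul_of_nonneg_left _ (by positivity)
    exact Real.logb_le_logb_of_le hN1 hℓpos (by exact_mod_cast hm)
  rcases le_total (nrm b f) (nrm b g) with hle | hle
  · rw [max_eq_right hle] at h2
    exact (key _ h2).trans ((hφ.lower g hg0).trans (le_max_right _ _))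
  · rw [max_eq_left hle] at h2
    have hf0 : f ≠ 0 := by
      rintro rfl
      rw [nrm_zero] at hle
      exact hg0 (eq_zero_of_nrm b g (by omega))
    exact (key _ h2).trans ((hφ.lower f hf0).trans (le_max_left _ _))

lemma word_upper (h : IsPowerBasis N π b) {φ : R → EReal} {c : ℝ} (hφ : IsSize N b φ c) (n : ℕ)
    (w : Fin n → Fin N) (f g : R) (K : ℕ) (hg : π ∣ g - 1)
    (heq : Ideal.Quotient.mk (Ideal.span {π ^ n}) f =
      Ideal.Quotient.mk (Ideal.span {π ^ n}) g * wordClass π n w)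
    (hf : nrm b f ≤ K) (hgK : nrm b g ≤ K) :
    1 ≤ K ∧ wordComplexity φ π n w ≤ (((d : ℝ) * Real.logb N K + c : ℝ) : EReal) := by
  have hcop : IsCoprime g π := by
    obtain ⟨t, ht⟩ := hg
    exact ⟨1, -t, by linear_combination ht⟩
  have hg0 : g ≠ 0 := by
    rintro rfl
    have := isCoprime_zero_left.1 hcop
    exact pi_not_unit h this.dvd
  have hK : 1 ≤ K := (nrm_pos b hg0).trans_le hgK
  refine ⟨hK, ?_⟩
  obtain ⟨a, ha⟩ := exists_digits N π (rep h) f g 1 (by rwa [mul_one])
  set A : R := ∑ i : Fin n, ((w i : ℕ) : R) * π ^ (i : ℕ) with hA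
  have hmem : π ^ n ∣ g * A - f := by
    rw [wordClass, mk_eq_iff] at heq
    exact heq
  have hfirst : ∀ i : Fin n, a i = w i := by
    have hN0 : 0 < N := by have := h.hN; omega
    let a' : ℕ → Fin N := fun i => if h : i < n then w ⟨i, h⟩ else ⟨0, hN0⟩
    have ha' : ∀ i : Fin n, a' i = w i := by intro i; simp [a']
    have hAb : A = ∑ i ∈ range n, ((a' i : ℕ) : R) * π ^ i := by
      rw [Finset.sum_range]; simp only [ha', hA]
    have hdiff : π ^ n ∣ (∑ i ∈ range n, ((a i : ℕ) : R) * π ^ i) -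
        ∑ i ∈ range n, ((a' i : ℕ) : R) * π ^ i := by
      rw [← hAb]
      have h1 := dvd_sub (ha n) hmem
      have e : g * (∑ i ∈ range n, ((a i : ℕ) : R) * π ^ i) - f - (g * A - f) =
        g * ((∑ i ∈ range n, ((a i : ℕ) : R) * π ^ i) - A) := by ring
      rw [e] at h1
      have hc : IsCoprime (π ^ n) g := IsCoprime.pow_left hcop.symm
      exact hc.dvd_of_dvd_mul_left h1
    have hu := digits_unique π (inj h) (pi_nzd h) a a' n hdiff
    intro i
    rw [← ha']
    exact hu i i.isLt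
  have hout : Outputs π f g a := ⟨hcop, fun m => ha m⟩
  unfold wordComplexity seqComplexity
  refine (iInf_le_of_le a (iInf_le_of_le hfirst (iInf_le_of_le f (iInf_le_of_le g
    (iInf_le_of_le hout ?_)))))
  have hN1 : (1 : ℝ) < N := by exact_mod_cast (by have := h.hN; omega : 1 < N)
  have key : ∀ x : R, x ≠ 0 → nrm b x ≤ K → φ x ≤ (((d : ℝ) * Real.logb N K + c : ℝ) : EReal) := by
    intro x hx hxK
    refine (hφ.upper x hx).trans ?_
    rw [EReal.coe_le_coe_iff]
    have hpos : (0 : ℝ) < nrm b x := by exact_mod_cast nrm_pos b hx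
    have h1 := Real.logb_le_logb_of_le hN1 hpos (by exact_mod_cast hxK : (nrm b x : ℝ) ≤ K)
    have h2 := mul_le_mul_of_nonneg_left h1 (by positivity : (0 : ℝ) ≤ d)
    linarith
  apply max_le
  · by_cases hf0 : f = 0
    · rw [hf0, hφ.zero]; exact bot_le
    · exact key f hf0 hf
  · exact key g hg0 hgK

/-- The general bound. -/
theorem average_general (h : IsPowerBasis N π b) {φ : R → EReal} {c : ℝ} (hc : 0 ≤ c)
    (hφ : IsSize N b φ c) (n : ℕ) :
    |averageFinite N φ π n - n / 2| ≤ c + d * (Real.logb N (3 * 4 ^ d * N) +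
      (2 * d - 1) * Real.logb N (2 * ((2 * (d ^ 2 * N) + 3 : ℕ) : ℝ))) := by
  classical
  have hfin : ∀ m, Finite (R ⧸ Ideal.span {π ^ m}) := fun m =>
    Finite.of_surjective _ (wordClass_bijective (N := N) h m).2
  let _ : ∀ m, Fintype (R ⧸ Ideal.span {π ^ m}) := fun m => Fintype.ofFinite _
  have hcard : ∀ m, Fintype.card (R ⧸ Ideal.span {π ^ m}) = N ^ m := by
    intro m
    rw [← Fintype.card_of_bijective (wordClass_bijective (N := N) h m)]
    simp
  have hbij := wordClass_bijective (N := N) h n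
  have hN2 := h.hN
  have hd := h.hd
  have hN1 : (1 : ℝ) < N := by exact_mod_cast (by omega : 1 < N)
  have hN0 : (0 : ℝ) < N := by linarith
  have hd1 : (1 : ℝ) ≤ d := by exact_mod_cast hd
  have hlogN : 0 < Real.log N := Real.log_pos hN1
  set Mr : ℝ := (N : ℝ) ^ n with hMr
  have hMrpos : 0 < Mr := by positivity
  have hlogM : Real.log Mr = n * Real.log N := by rw [hMr, Real.log_pow]
  set E : ℝ := 2 * ((2 * (d ^ 2 * N) + 3 : ℕ) : ℝ) with hE
  have hE1 : 1 < E := by
    rw [hE]; push_cast; nlinarith [sq_nonneg (d : ℝ), mul_nonneg (sq_nonneg (d : ℝ)) hN0.le]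
  have hlogE : 0 < Real.log E := Real.log_pos hE1
  set C4 : ℝ := 3 * 4 ^ d * N with hC4
  have hC41 : 1 < C4 := by
    rw [hC4]
    have : (1 : ℝ) ≤ 4 ^ d := one_le_pow₀ (by norm_num)
    nlinarith
  have hlogC4 : 0 < Real.log C4 := Real.log_pos hC41
  set Λ : ℝ := ∑ α : R ⧸ Ideal.span {π ^ n}, Real.log (firstMin b π n α) with hΛ
  have hΛge : Mr * (n * Real.log N / (2 * d) - Real.log E) ≤ Λ := sum_log_ge h (hcard n)
  have hΛw : ∑ w : Fin n → Fin N, Real.log (firstMin b π n (wordClass π n w)) = Λ := by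
    rw [hΛ]
    exact hbij.sum_comp (fun α => Real.log (firstMin b π n α))
  have hpt : ∀ w : Fin n → Fin N,
      d * (Real.log (firstMin b π n (wordClass π n w)) / Real.log N) ≤
        (wordComplexity φ π n w).toReal ∧
      (wordComplexity φ π n w).toReal ≤ d * ((Real.log C4 + n * Real.log N -
        (2 * d - 1) * Real.log (firstMin b π n (wordClass π n w))) / Real.log N) + c := by
    intro w
    have hlow := word_lower h hφ n w
    have hℓpos := firstMin_pos (b := b) (wordClass (N := N) π n w)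
    obtain ⟨f, g, K, hg, heq, hf, hgK, hbd⟩ := exists_good h n (hcard n) (hcard 1)
      (wordClass π n w) (firstMin b π n (wordClass π n w)) hℓpos (firstMin_min _)
    obtain ⟨hK, hup⟩ := word_upper h hφ n w f g K hg heq hf hgK
    have hne_top : wordComplexity φ π n w ≠ ⊤ := by
      intro h
      rw [h, top_le_iff] at hup
      exact EReal.coe_ne_top _ hup
    have hne_bot : wordComplexity φ π n w ≠ ⊥ := by
      intro h
      rw [h, le_bot_iff] at hlow
      exact EReal.coe_ne_bot _ hlow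
    constructor
    · have := EReal.toReal_le_toReal hlow (EReal.coe_ne_bot _) hne_top
      rwa [EReal.toReal_coe] at this
    · have h1 := EReal.toReal_le_toReal hup hne_bot (EReal.coe_ne_top _)
      rw [EReal.toReal_coe] at h1
      refine h1.trans ?_
      rw [Real.logb]
      have hKr : (0 : ℝ) < K := by exact_mod_cast hK
      have hℓr : (0 : ℝ) < firstMin b π n (wordClass π n w) := by exact_mod_cast hℓpos
      have hbdr : (K : ℝ) * (firstMin b π n (wordClass π n w) : ℝ) ^ (2 * d - 1) ≤ C4 * Mr := by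
        rw [hC4, hMr]; exact_mod_cast hbd
      have h2 := Real.log_le_log (by positivity) hbdr
      rw [Real.log_mul hKr.ne' (by positivity), Real.log_mul (by positivity) hMrpos.ne',
        Real.log_pow, hlogM] at h2
      have e1 : ((2 * d - 1 : ℕ) : ℝ) = 2 * d - 1 := by
        rw [Nat.cast_sub (by omega)]; push_cast; ring
      rw [e1] at h2
      have h3 : Real.log K / Real.log N ≤ (Real.log C4 + n * Real.log N -
        (2 * d - 1) * Real.log (firstMin b π n (wordClass π n w))) / Real.log N := by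
        apply div_le_div_of_nonneg_right _ hlogN.le
        linarith
      have h4 := mul_le_mul_of_nonneg_left h3 (by positivity : (0 : ℝ) ≤ d)
      linarith
  set S : ℝ := ∑ w : Fin n → Fin N, (wordComplexity φ π n w).toReal with hS
  have hcardw : (Fintype.card (Fin n → Fin N) : ℝ) = Mr := by
    rw [Fintype.card_fun, Fintype.card_fin, Fintype.card_fin]; push_cast; rfl
  have hsumlow : d * (Λ / Real.log N) ≤ S := by
    rw [← hΛw, sum_div, mul_sum]
    exact sum_le_sum (fun w _ => (hpt w).1)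
  have hsumup : S ≤ d * ((Mr * (Real.log C4 + n * Real.log N) - (2 * d - 1) * Λ) / Real.log N)
      + Mr * c := by
    have h1 := sum_le_sum (s := (univ : Finset (Fin n → Fin N))) (fun w _ => (hpt w).2)
    refine h1.trans (le_of_eq ?_)
    rw [sum_add_distrib, ← mul_sum, ← sum_div, sum_sub_distrib, ← mul_sum, hΛw, sum_const,
      sum_const, card_univ, nsmul_eq_mul, nsmul_eq_mul, hcardw]
  unfold averageFinite
  rw [← hMr, ← hS, abs_le]
  have e1 : Real.logb N C4 = Real.log C4 / Real.log N := rfl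
  have e2 : Real.logb N E = Real.log E / Real.log N := rfl
  rw [e1, e2]
  have hpos1 : 0 < Real.log C4 / Real.log N := by positivity
  have hpos2 : 0 < Real.log E / Real.log N := by positivity
  constructor
  · have h1 : d * (Mr * (n * Real.log N / (2 * d) - Real.log E) / Real.log N) ≤ S :=
      (mul_le_mul_of_nonneg_left (div_le_div_of_nonneg_right hΛge hlogN.le)
        (by positivity)).trans hsumlow
    have h2 := div_le_div_of_nonneg_right h1 hMrpos.le
    have e : (d * (Mr * (n * Real.log N / (2 * d) - Real.log E) / Real.log N)) / Mr =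
        n / 2 - d * (Real.log E / Real.log N) := by field_simp
    rw [e] at h2
    have h3 : (d : ℝ) * (Real.log E / Real.log N) ≤
        d * (Real.log C4 / Real.log N + (2 * d - 1) * (Real.log E / Real.log N)) := by
      apply mul_le_mul_of_nonneg_left _ (by positivity)
      nlinarith
    linarith
  · have h1 : S ≤ d * ((Mr * (Real.log C4 + n * Real.log N) - (2 * d - 1) *
        (Mr * (n * Real.log N / (2 * d) - Real.log E))) / Real.log N) + Mr * c := by
      refine hsumup.trans ?_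
      have h2 : (2 * (d : ℝ) - 1) * (Mr * (n * Real.log N / (2 * d) - Real.log E)) ≤
          (2 * d - 1) * Λ := mul_le_mul_of_nonneg_left hΛge (by linarith)
      have h3 : (Mr * (Real.log C4 + n * Real.log N) - (2 * d - 1) * Λ) / Real.log N ≤
          (Mr * (Real.log C4 + n * Real.log N) - (2 * d - 1) *
        (Mr * (n * Real.log N / (2 * d) - Real.log E))) / Real.log N := by
        apply div_le_div_of_nonneg_right _ hlogN.le
        linarith
      have h4 := mul_le_mul_of_nonneg_left h3 (by positivity : (0 : ℝ) ≤ d)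
      linarith
    have h2 := div_le_div_of_nonneg_right h1 hMrpos.le
    have e : (d * ((Mr * (Real.log C4 + n * Real.log N) - (2 * d - 1) *
        (Mr * (n * Real.log N / (2 * d) - Real.log E))) / Real.log N) + Mr * c) / Mr =
        n / 2 + (c + d * (Real.log C4 / Real.log N + (2 * d - 1) *
          (Real.log E / Real.log N))) := by
      field_simp
      ring
    rw [e] at h2
    linarith

end

/-! ### The two size functions -/

lemma isSizeI {b : Module.Basis (Fin 2) ℤ R} (h : IsPowerBasis N π b) :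
    IsSize N b (sizeI N b) 2 := by
  have hN2 := h.hN
  have hN1 : (1 : ℝ) < N := by exact_mod_cast (by omega : 1 < N)
  have hN0 : (0 : ℝ) < N := by linarith
  constructor
  · simp [sizeI]
  · intro x hx
    rw [sizeI, if_neg hx, EReal.coe_le_coe_iff]
    have hpos : (0 : ℝ) < nrm b x := by exact_mod_cast nrm_pos b hx
    have h1 : ((2 : ℕ) : ℝ) * Real.logb N (nrm b x) = Real.logb N ((nrm b x : ℝ) ^ 2) := by
      rw [Real.logb_pow]
    rw [h1]
    apply Real.logb_le_logb_of_le hN1 (by positivity)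
    -- the norm is one of the coordinates
    obtain ⟨i, -, hi⟩ := Finset.exists_mem_eq_sup (univ : Finset (Fin 2)) univ_nonempty
      (fun i => (b.repr x i).natAbs)
    have h2 : nrm b x = (b.repr x i).natAbs := hi
    have h3 : (nrm b x : ℝ) ^ 2 = (b.repr x i : ℝ) ^ 2 := by
      rw [h2, Nat.cast_natAbs, Int.cast_abs, sq_abs]
    rw [h3]
    fin_cases i
    · simp only [Fin.zero_eta]
      nlinarith [sq_nonneg (b.repr x 1 : ℝ)]
    · simp only [Fin.mk_one]
      nlinarith [sq_nonneg (b.repr x 1 : ℝ), sq_nonneg (b.repr x 0 : ℝ)]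
  · intro x hx
    rw [sizeI, if_neg hx, EReal.coe_le_coe_iff]
    have hpos : (0 : ℝ) < nrm b x := by exact_mod_cast nrm_pos b hx
    have h1 : ((2 : ℕ) : ℝ) * Real.logb N (nrm b x) + 2 =
        Real.logb N ((nrm b x : ℝ) ^ 2 * (N : ℝ) ^ 2) := by
      rw [Real.logb_mul (by positivity) (by positivity), Real.logb_pow, Real.logb_pow,
        Real.logb_self_eq_one hN1]
      push_cast
      ring
    rw [h1]
    have hc : ∀ i, (b.repr x i : ℝ) ^ 2 ≤ (nrm b x : ℝ) ^ 2 := by
      intro i
      have h2 := coord_le b x i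
      have h3 : |(b.repr x i : ℝ)| ≤ nrm b x := by
        rw [← Int.cast_abs, ← Nat.cast_natAbs]
        exact_mod_cast h2
      rw [← sq_abs]
      exact pow_le_pow_left₀ (abs_nonneg _) h3 2
    have hne : 0 < (b.repr x 0 : ℝ) ^ 2 + (N : ℝ) * (b.repr x 1 : ℝ) ^ 2 := by
      by_contra hcon
      push Not at hcon
      have ha := sq_nonneg (b.repr x 0 : ℝ)
      have hb := sq_nonneg (b.repr x 1 : ℝ)
      have hc0 : (b.repr x 0 : ℝ) ^ 2 = 0 := by nlinarith
      have hc1 : (b.repr x 1 : ℝ) ^ 2 = 0 := by nlinarith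
      apply hx
      apply b.repr.injective
      ext i
      fin_cases i
      · have : (b.repr x 0 : ℝ) = 0 := by simpa using hc0
        simpa using this
      · have : (b.repr x 1 : ℝ) = 0 := by simpa using hc1
        simpa using this
    apply Real.logb_le_logb_of_le hN1 hne
    have h0 := hc 0
    have h1 := hc 1
    have hN2r : (2 : ℝ) ≤ N := by exact_mod_cast hN2
    calc (b.repr x 0 : ℝ) ^ 2 + (N : ℝ) * (b.repr x 1 : ℝ) ^ 2
        ≤ (nrm b x : ℝ) ^ 2 + N * (nrm b x : ℝ) ^ 2 := by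
          have := mul_le_mul_of_nonneg_left h1 hN0.le
          linarith
      _ = (nrm b x : ℝ) ^ 2 * (1 + N) := by ring
      _ ≤ (nrm b x : ℝ) ^ 2 * (N : ℝ) ^ 2 := by
          apply mul_le_mul_of_nonneg_left _ (by positivity)
          nlinarith

lemma isSizeII (h : IsPowerBasis N π b) : IsSize N b (sizeII N d b) d := by
  have hN2 := h.hN
  have hN1 : (1 : ℝ) < N := by exact_mod_cast (by omega : 1 < N)
  have hN0 : (0 : ℝ) < N := by linarith
  have hd := h.hd
  constructor
  · unfold sizeII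
    rw [iSup_eq_bot]
    intro i
    simp
  · intro x hx
    obtain ⟨i, -, hi⟩ := Finset.exists_mem_eq_sup (univ : Finset (Fin d)) ⟨⟨0, hd⟩, mem_univ _⟩
      (fun i => (b.repr x i).natAbs)
    have h2 : nrm b x = (b.repr x i).natAbs := hi
    have hpos := nrm_pos b hx
    have hne : b.repr x i ≠ 0 := by
      intro h0
      rw [h2, h0] at hpos
      simp at hpos
    unfold sizeII
    refine le_iSup_of_le i ?_
    rw [if_neg hne, EReal.coe_le_coe_iff]
    have h3 : (nrm b x : ℝ) = |(b.repr x i : ℝ)| := by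
      rw [h2, Nat.cast_natAbs, Int.cast_abs]
    rw [h3]
    have : (0 : ℝ) ≤ ((i : ℕ) : ℝ) := by positivity
    linarith
  · intro x hx
    unfold sizeII
    refine iSup_le fun i => ?_
    split_ifs with h0
    · exact bot_le
    · rw [EReal.coe_le_coe_iff]
      have h1 := coord_le b x i
      have h3 : |(b.repr x i : ℝ)| ≤ nrm b x := by
        rw [← Int.cast_abs, ← Nat.cast_natAbs]
        exact_mod_cast h1
      have hpos : 0 < |(b.repr x i : ℝ)| := abs_pos.2 (by exact_mod_cast h0)
      have h4 := Real.logb_le_logb_of_le hN1 hpos h3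
      have h5 := mul_le_mul_of_nonneg_left h4 (by positivity : (0 : ℝ) ≤ d)
      have h6 : ((i : ℕ) : ℝ) ≤ d := by exact_mod_cast i.isLt.le
      linarith

/-- The error bound is uniform in `N`. -/
lemma error_le (N d : ℕ) (hN : 2 ≤ N) (hd : 1 ≤ d) :
    (d : ℝ) * (Real.logb N (3 * 4 ^ d * N) +
      (2 * d - 1) * Real.logb N (2 * ((2 * (d ^ 2 * N) + 3 : ℕ) : ℝ))) ≤
    d * ((2 * d + 3) + (2 * d - 1) * (1 + Real.logb 2 (4 * d ^ 2 + 6))) := by
  have hN1 : (1 : ℝ) < N := by exact_mod_cast (by omega : 1 < N)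
  have hN2 : (2 : ℝ) ≤ N := by exact_mod_cast hN
  have hN0 : (0 : ℝ) < N := by linarith
  have hd1 : (1 : ℝ) ≤ d := by exact_mod_cast hd
  have hlogN : 0 < Real.log N := Real.log_pos hN1
  have hlog2 : 0 < Real.log 2 := Real.log_pos (by norm_num)
  have hlog2N : Real.log 2 ≤ Real.log N := Real.log_le_log (by norm_num) hN2
  -- change of base
  have hbase : ∀ x : ℝ, 1 ≤ x → Real.logb N x ≤ Real.logb 2 x := by
    intro x hx
    have hlx : 0 ≤ Real.log x := Real.log_nonneg hx
    rw [Real.logb, Real.logb]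
    exact div_le_div_of_nonneg_left hlx hlog2 hlog2N
  apply mul_le_mul_of_nonneg_left _ (by positivity)
  have h1 : Real.logb N (3 * 4 ^ d * N) ≤ 2 * d + 3 := by
    have h4 : (1 : ℝ) ≤ 3 * 4 ^ d := by
      have : (1 : ℝ) ≤ 4 ^ d := one_le_pow₀ (by norm_num)
      linarith
    rw [Real.logb_mul (by positivity) (by positivity), Real.logb_self_eq_one hN1]
    have h2 := hbase _ h4
    have h3 : Real.logb 2 (3 * 4 ^ d) ≤ 2 * d + 2 := by
      have h5 : Real.logb 2 (3 * 4 ^ d) ≤ Real.logb 2 ((2 : ℝ) ^ (2 * d + 2)) := by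
        apply Real.logb_le_logb_of_le (by norm_num) (by positivity)
        have e : (2 : ℝ) ^ (2 * d + 2) = 4 * 4 ^ d := by
          rw [pow_add, pow_mul]; norm_num; ring
        rw [e]
        have : (0 : ℝ) < 4 ^ d := by positivity
        linarith
      rw [Real.logb_pow, Real.logb_self_eq_one (by norm_num)] at h5
      push_cast at h5
      linarith
    linarith
  have h2 : Real.logb N (2 * ((2 * (d ^ 2 * N) + 3 : ℕ) : ℝ)) ≤
      1 + Real.logb 2 (4 * d ^ 2 + 6) := by
    have h3 : Real.logb N (2 * ((2 * (d ^ 2 * N) + 3 : ℕ) : ℝ)) ≤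
        Real.logb N (N * (4 * d ^ 2 + 6)) := by
      apply Real.logb_le_logb_of_le hN1 (by positivity)
      push_cast
      nlinarith
    rw [Real.logb_mul (x := (N : ℝ)) (y := 4 * (d : ℝ) ^ 2 + 6) (by positivity) (by positivity),
      Real.logb_self_eq_one hN1] at h3
    have h4 := hbase (4 * (d : ℝ) ^ 2 + 6) (by nlinarith)
    linarith
  have h3 : (0 : ℝ) ≤ 2 * d - 1 := by linarith
  have h4 := mul_le_mul_of_nonneg_left h2 h3
  linarith

end Run7.h928.PiAdic
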