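import Mathlib

/-!
# The `π`-adic complexity of sequences over `ℤ[π]`: definitions
-/

set_option autoImplicit false

namespace Run7.h928.PiAdic

open Finset

section
variable {R : Type*} [CommRing R] {N : ℕ}

/-- The partial sum `a_0 + a_1 π + ... + a_(n-1) π^(n-1)`, i.e. the residue modulo `π^n` of the
`π`-adic number `a = a_0 + a_1 π + a_2 π^2 + ...` attached to a sequence of digits in
`{0, 1, ..., N - 1}`. -/
def partialSum (π : R) (a : ℕ → Fin N) (n : ℕ) : R :=
  ∑ i ∈ range n, ((a i : ℕ) : R) * π ^ i

/-- An AFSR over `(R, π, {0, ..., N - 1})` with connection element `g` (invertible modulo `π`) and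
associated `π`-adic number `f / g` outputs the sequence `a`: the `π`-adic number of `a` is `f / g`,
that is, `g a ≡ f` modulo every power of `π`. -/
def Outputs (π f g : R) (a : ℕ → Fin N) : Prop :=
  IsCoprime g π ∧ ∀ n : ℕ, π ^ n ∣ g * partialSum π a n - f

/-- The `π`-adic complexity of an infinite sequence, for the size function `φ`: the least size
`max (φ f) (φ g)` of an AFSR which outputs it (`∞` if there is none). -/
noncomputable def seqComplexity (φ : R → EReal) (π : R) (a : ℕ → Fin N) : EReal :=
  ⨅ (f : R) (g : R) (_ : Outputs π f g a), max (φ f) (φ g)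

/-- The `π`-adic complexity of a finite sequence `w` of length `n`: the minimum of the complexities
of all infinite sequences whose first `n` terms are those of `w`. -/
noncomputable def wordComplexity (φ : R → EReal) (π : R) (n : ℕ) (w : Fin n → Fin N) : EReal :=
  ⨅ (a : ℕ → Fin N) (_ : ∀ i : Fin n, a i = w i), seqComplexity φ π a

end

/-- The average `E_n^fin` of the `π`-adic complexity over all `N^n` digit sequences of length
`n`. -/
noncomputable def averageFinite {R : Type*} [CommRing R] (N : ℕ) (φ : R → EReal) (π : R) (n : ℕ) :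
    ℝ :=
  (∑ w : Fin n → Fin N, (wordComplexity φ π n w).toReal) / (N : ℝ) ^ n

open Classical in
/-- The size function of case (i), `π^2 = -N`: `φ(u + v π) = log_N (u^2 + N v^2)`, where `u, v` are
the coordinates in the basis `1, π`; the size of `0` is `-∞`. -/
noncomputable def sizeI {R : Type*} [CommRing R] (N : ℕ) (b : Module.Basis (Fin 2) ℤ R) (x : R) :
    EReal :=
  if x = 0 then ⊥ else
    ((Real.logb N ((b.repr x 0 : ℝ) ^ 2 + (N : ℝ) * (b.repr x 1 : ℝ) ^ 2) : ℝ) : EReal)

/-- The size function of case (ii), `π^d = N`: `φ(∑ u_i π^i) = max_i (d log_N |u_i| + i)`, the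
maximum over the `i` with `u_i ≠ 0`; the size of `0` is `-∞`. -/
noncomputable def sizeII {R : Type*} [CommRing R] (N d : ℕ) (b : Module.Basis (Fin d) ℤ R) (x : R) :
    EReal :=
  ⨆ i : Fin d, if b.repr x i = 0 then ⊥ else
    (((d : ℝ) * Real.logb N |(b.repr x i : ℝ)| + ((i : ℕ) : ℝ) : ℝ) : EReal)

end Run7.h928.PiAdic
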