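import Mathlib

/-!
# A class lemma for 2-isogeny descent over `ℚ`
-/

set_option autoImplicit false

namespace Run7.h928.Shift

/-- If `x² + a x + c = ρ² x` with `x ≠ 0` rational and `c ≠ 0`, then `x = d U² / V²` with `d` squarefree
dividing `c`, and the usual quartic in `U, V` is a square. -/
lemma classLemma (a c : ℤ) (hc : c ≠ 0) (x ρ : ℚ) (hx : x ≠ 0)
    (h : x^2 + a*x + c = ρ^2 * x) :
    ∃ d c1 U V N : ℤ, Squarefree d ∧ c = d * c1 ∧ IsCoprime U V ∧ 0 < U ∧ 0 < V ∧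
      x = d*U^2/V^2 ∧ N^2 = d*U^4 + a*U^2*V^2 + c1*V^4 ∧ ((N:ℚ))^2 = (ρ*U*V)^2 := by
  obtain ⟨r, s, hs, hrs, hxr⟩ : ∃ r s : ℤ, 0 < s ∧ IsCoprime r s ∧ x = r / s := by
    refine ⟨x.num, x.den, by exact_mod_cast x.den_pos, ?_, ?_⟩
    · rw [Int.isCoprime_iff_nat_coprime]
      simpa using x.reduced
    · exact_mod_cast (Rat.num_div_den x).symm
  have hs0 : (s:ℚ) ≠ 0 := by exact_mod_cast hs.ne'
  have hr0 : r ≠ 0 := by
    rintro rfl
    simp at hxr
    exact hx hxr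
  have hrq : (r:ℚ) ≠ 0 := by exact_mod_cast hr0
  -- integer square
  have hsq : IsSquare (s * (r * (r^2 + a*r*s + c*s^2))) := by
    rw [← Rat.isSquare_intCast_iff]
    refine ⟨ρ * (r * s), ?_⟩
    push_cast
    rw [hxr] at h
    field_simp at h
    linear_combination (r*s:ℚ) * h
  obtain ⟨z, hz⟩ := hsq
  have hcop : IsCoprime s (r * (r^2 + a*r*s + c*s^2)) := by
    have h1 : IsCoprime s r := hrs.symm
    have h2 : IsCoprime s (r^2 + a*r*s + c*s^2) := by
      have h3 : IsCoprime s (r^2) := h1.pow_right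
      have : r^2 + a*r*s + c*s^2 = r^2 + s * (a*r + c*s) := by ring
      rw [this]
      exact IsCoprime.add_mul_left_right h3 _
    exact h1.mul_right h2
  have hz' : s * (r * (r^2 + a*r*s + c*s^2)) = z^2 := by rw [hz]; ring
  obtain ⟨V0, hV0⟩ := Int.sq_of_isCoprime hcop hz'
  have hsV : s = V0^2 := by
    rcases hV0 with h1 | h1
    · exact h1
    · nlinarith [sq_nonneg V0]
  have hz'' : (r * (r^2 + a*r*s + c*s^2)) * s = z^2 := by rw [← hz']; ring
  obtain ⟨k0, hk0⟩ := Int.sq_of_isCoprime hcop.symm hz''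
  have hK : r * (r^2 + a*r*s + c*s^2) = k0^2 := by
    rcases hk0 with h1 | h1
    · exact h1
    · have h2 : 0 ≤ s * (r * (r^2 + a*r*s + c*s^2)) := by rw [hz']; positivity
      have h3 : 0 ≤ r * (r^2 + a*r*s + c*s^2) := nonneg_of_mul_nonneg_right h2 hs
      nlinarith [sq_nonneg k0]
  -- squarefree part of r
  obtain ⟨d, U, hd, hU, hrd⟩ : ∃ d U : ℤ, Squarefree d ∧ 0 < U ∧ r = d * U^2 := by
    obtain ⟨a', b', hab, hsf⟩ := Nat.sq_mul_squarefree r.natAbs
    refine ⟨r.sign * a', b', ?_, ?_, ?_⟩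
    · rw [← Int.squarefree_natAbs, Int.natAbs_mul, Int.natAbs_natCast,
        Int.natAbs_sign_of_ne_zero hr0, one_mul]
      exact hsf
    · rcases Nat.eq_zero_or_pos b' with rfl | hb
      · simp at hab
        exact absurd (Int.natAbs_eq_zero.mp hab.symm) hr0
      · exact_mod_cast hb
    · have : (r.natAbs : ℤ) = (b':ℤ)^2 * a' := by rw [← hab]; push_cast; ring
      calc r = r.sign * (r.natAbs : ℤ) := (Int.sign_mul_natAbs r).symm
        _ = _ := by rw [this]; ring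
  have hd0 : d ≠ 0 := hd.ne_zero
  -- coprimality of U, V0 and of d, s
  have hcopd : IsCoprime d s := by
    apply IsCoprime.of_isCoprime_of_dvd_left hrs
    exact ⟨U^2, hrd⟩
  have hcopU : IsCoprime U s := by
    apply IsCoprime.of_isCoprime_of_dvd_left hrs
    exact ⟨d * U, by rw [hrd]; ring⟩
  have hcopUV : IsCoprime U V0 := by
    apply IsCoprime.of_isCoprime_of_dvd_right hcopU
    exact ⟨V0, by rw [hsV]; ring⟩
  set L := r^2 + a*r*s + c*s^2 with hL
  -- U | k0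
  have hUk : U ∣ k0 := by
    have : U^2 ∣ k0^2 := ⟨d * L, by rw [← hK, hrd]; ring⟩
    exact (Int.pow_dvd_pow_iff (by norm_num)).mp this
  obtain ⟨k1, hk1⟩ := hUk
  have hdL : d * L = k1^2 := by
    have h1 : U^2 * (d * L) = U^2 * k1^2 := by
      have : r * L = k0^2 := hK
      rw [hk1, hrd] at this
      linear_combination this
    exact mul_left_cancel₀ (pow_ne_zero 2 hU.ne') h1
  have hdk : d ∣ k1 := by
    have : d ∣ k1^2 := ⟨L, hdL.symm⟩
    exact (hd.dvd_pow_iff_dvd (by norm_num)).mp this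
  obtain ⟨k2, hk2⟩ := hdk
  have hdL2 : d ∣ L := by
    refine ⟨k2^2, ?_⟩
    have h1 : d * L = d * (d * k2^2) := by rw [hdL, hk2]; ring
    exact mul_left_cancel₀ hd0 h1
  have hdc : d ∣ c := by
    have h1 : d ∣ c * s^2 := by
      have : c * s^2 = L - r * (r + a * s) := by rw [hL]; ring
      rw [this]
      apply dvd_sub hdL2
      exact Dvd.dvd.mul_right ⟨U^2, hrd⟩ _
    exact (hcopd.pow_right).dvd_of_dvd_mul_right h1
  obtain ⟨c1, hc1⟩ := hdc
  have hV0 : V0 ≠ 0 := by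
    rintro rfl
    simp at hsV
    omega
  have hV : 0 < |V0| := abs_pos.mpr hV0
  have hxd : x = d*U^2/((|V0| : ℤ) : ℚ)^2 := by
    rw [hxr, hrd, hsV]
    push_cast
    rw [sq_abs]
  have hV0q : (V0:ℚ) ≠ 0 := by exact_mod_cast hV0
  have hUq : (U:ℚ) ≠ 0 := by exact_mod_cast hU.ne'
  have hdq : (d:ℚ) ≠ 0 := by exact_mod_cast hd0
  have hKK : (ρ * U * (|V0| : ℤ))^2 = ((d*U^4 + a*U^2*(|V0|)^2 + c1*(|V0|)^4 : ℤ) : ℚ) := by
    have e4 : (|(V0:ℚ)|)^4 = (V0:ℚ)^4 := by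
      rw [show (4:ℕ) = 2 * 2 by norm_num, pow_mul, pow_mul, sq_abs]
    have e2 : (|(V0:ℚ)|)^2 = (V0:ℚ)^2 := sq_abs _
    have hx2 : x = d*U^2/(V0:ℚ)^2 := by rw [hxd]; push_cast; rw [e2]
    have hcq : (c:ℚ) = d * c1 := by exact_mod_cast hc1
    push_cast
    rw [mul_pow, e2, e4]
    rw [hx2, hcq] at h
    field_simp at h
    linear_combination -h
  have hsq2 : IsSquare (d*U^4 + a*U^2*(|V0|)^2 + c1*(|V0|)^4 : ℤ) := by
    rw [← Rat.isSquare_intCast_iff]
    exact ⟨ρ * U * (|V0| : ℤ), by rw [← hKK]; ring⟩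
  obtain ⟨N, hN⟩ := hsq2
  refine ⟨d, c1, U, |V0|, N, hd, hc1, ?_, hU, hV, hxd, ?_, ?_⟩
  · exact hcopUV.abs_right
  · rw [hN]; ring
  · rw [hKK, hN]; push_cast; ring

end Run7.h928.Shift
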