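import Pool.Agent.Run7.h928.ShiftA

set_option autoImplicit false

namespace Run7.h928.Shift

/-! ### local exclusions -/

lemma not_both {p : ℤ} (hp : 1 < p) {U V : ℤ} (h : IsCoprime U V) (hU : p ∣ U) (hV : p ∣ V) :
    False := by
  have := h.isUnit_of_dvd' hU hV
  rcases Int.isUnit_iff.mp this with h1 | h1 <;> omega

/-- generic exclusion modulo `m = k p` -/
lemma exclMod (m k p : ℕ) [NeZero m] (hm : m = k * p) (hp : 1 < p) (hk : 0 < k) (D A C : ℤ)
    (h : ∀ u v n : ZMod m, n^2 = (D : ZMod m)*u^4+(A : ZMod m)*u^2*v^2+(C : ZMod m)*v^4 →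
      (k : ZMod m) * u = 0 ∧ (k : ZMod m) * v = 0)
    (U V N : ℤ)
    (hUV : IsCoprime U V) (hN : N^2 = D*U^4 + A*U^2*V^2 + C*V^4) : False := by
  have h1 := congrArg (fun z : ℤ => (z : ZMod m)) hN
  push_cast at h1
  obtain ⟨h2, h3⟩ := h _ _ _ h1
  have key : ∀ z : ℤ, (k : ZMod m) * (z : ZMod m) = 0 → (p : ℤ) ∣ z := by
    intro z hz
    have : (((k:ℤ) * z : ℤ) : ZMod m) = 0 := by push_cast; exact hz
    rw [ZMod.intCast_zmod_eq_zero_iff_dvd] at this
    obtain ⟨t, ht⟩ := this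
    refine ⟨t, ?_⟩
    have hk' : (k:ℤ) ≠ 0 := by exact_mod_cast hk.ne'
    apply mul_left_cancel₀ hk'
    rw [ht, hm]; push_cast; ring
  exact not_both (by exact_mod_cast hp) hUV (key U h2) (key V h3)

/-- the squares modulo 64 -/
def Sq : Finset (ZMod 64) := {0,1,4,9,16,17,25,33,36,41,49,57}

lemma sq_mem : ∀ x : ZMod 64, x^2 ∈ Sq := by decide

lemma excl64 (D A C : ℤ)
    (h : ∀ s ∈ Sq, ∀ t ∈ Sq, (D : ZMod 64)*s^2+(A : ZMod 64)*s*t+(C : ZMod 64)*t^2 ∈ Sq →
      32 * s = 0 ∧ 32 * t = 0)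
    (U V N : ℤ)
    (hUV : IsCoprime U V) (hN : N^2 = D*U^4 + A*U^2*V^2 + C*V^4) : False := by
  have h1 := congrArg (fun z : ℤ => (z : ZMod 64)) hN
  push_cast at h1
  have h1' : (D : ZMod 64)*((U:ZMod 64)^2)^2+(A : ZMod 64)*(U:ZMod 64)^2*(V:ZMod 64)^2
      +(C : ZMod 64)*((V:ZMod 64)^2)^2 ∈ Sq := by
    have : (D : ZMod 64)*((U:ZMod 64)^2)^2+(A : ZMod 64)*(U:ZMod 64)^2*(V:ZMod 64)^2
      +(C : ZMod 64)*((V:ZMod 64)^2)^2 = (N : ZMod 64)^2 := by rw [h1]; ring
    rw [this]; exact sq_mem _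
  obtain ⟨h2, h3⟩ := h _ (sq_mem _) _ (sq_mem _) h1'
  have key : ∀ z : ℤ, (32 : ZMod 64) * (z : ZMod 64)^2 = 0 → (2 : ℤ) ∣ z := by
    intro z hz
    have : (((32:ℤ) * z^2 : ℤ) : ZMod 64) = 0 := by push_cast; exact hz
    rw [ZMod.intCast_zmod_eq_zero_iff_dvd] at this
    have h4 : (2:ℤ) ∣ z^2 := by push_cast at this; omega
    exact Int.prime_two.dvd_of_dvd_pow h4
  exact not_both (by norm_num) hUV (key U h2) (key V h3)

lemma excl11 (α β : ℤ) (hα : ¬ (11:ℤ) ∣ α) (hβ : ¬ (11:ℤ) ∣ β) (U V N : ℤ)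
    (hUV : IsCoprime U V) (hN : N^2 = (11*α)*U^4 + 145158*U^2*V^2 + (11*β)*V^4) : False := by
  have hp : Prime (11:ℤ) := by
    have : Nat.Prime 11 := by norm_num
    exact Nat.prime_iff_prime_int.mp this
  have h1 : (11:ℤ) ∣ N ∧ (11:ℤ) ∣ U * V := by
    have h2 : ∀ n w : ZMod 11, n^2 = 2 * w^2 → n = 0 ∧ w = 0 := by decide
    have h3 := congrArg (fun z : ℤ => (z : ZMod 11)) hN
    push_cast at h3
    have e1 : (11 : ZMod 11) = 0 := by decide
    have e2 : (145158 : ZMod 11) = 2 := by decide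
    rw [e1, e2] at h3
    have h4 := h2 (N : ZMod 11) ((U:ZMod 11) * (V:ZMod 11)) (by rw [h3]; ring)
    constructor
    · have := h4.1
      rw [ZMod.intCast_zmod_eq_zero_iff_dvd] at this
      exact_mod_cast this
    · have := h4.2
      rw [← Int.cast_mul, ZMod.intCast_zmod_eq_zero_iff_dvd] at this
      exact_mod_cast this
  obtain ⟨⟨n, rfl⟩, h5⟩ := h1
  rcases hp.dvd_or_dvd h5 with h6 | h6
  · obtain ⟨u, rfl⟩ := h6
    have h7 : (11:ℤ) ∣ β * V^4 := by
      refine ⟨n^2 - 11^2*α*u^4*11 - 145158*u^2*V^2 , ?_⟩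
      nlinarith [hN]
    rcases hp.dvd_or_dvd h7 with h8 | h8
    · exact hβ h8
    · exact not_both (by norm_num) hUV ⟨u, rfl⟩ (hp.dvd_of_dvd_pow h8)
  · obtain ⟨v, rfl⟩ := h6
    have h7 : (11:ℤ) ∣ α * U^4 := by
      refine ⟨n^2 - 11^2*β*v^4*11 - 145158*U^2*v^2 , ?_⟩
      nlinarith [hN]
    rcases hp.dvd_or_dvd h7 with h8 | h8
    · exact hα h8
    · exact not_both (by norm_num) hUV (hp.dvd_of_dvd_pow h8) ⟨v, rfl⟩

/-! ### Step 1 -/

lemma divs2937 (n : ℕ) (h : n ∣ 2937) :
    n = 1 ∨ n = 3 ∨ n = 11 ∨ n = 33 ∨ n = 89 ∨ n = 267 ∨ n = 979 ∨ n = 2937 := by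
  have h1 : n ∈ Nat.divisors 2937 := by rw [Nat.mem_divisors]; exact ⟨h, by norm_num⟩
  have h2 : Nat.divisors 2937 = {1, 3, 11, 33, 89, 267, 979, 2937} := by decide +kernel
  rw [h2] at h1
  simpa using h1

lemma divs30 (n : ℕ) (h : n ∣ 30) :
    n = 1 ∨ n = 2 ∨ n = 3 ∨ n = 5 ∨ n = 6 ∨ n = 10 ∨ n = 15 ∨ n = 30 := by
  have h1 : n ∈ Nat.divisors 30 := by rw [Nat.mem_divisors]; exact ⟨h, by norm_num⟩
  have h2 : Nat.divisors 30 = {1, 2, 3, 5, 6, 10, 15, 30} := by decide +kernel
  rw [h2] at h1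
  simpa using h1

lemma class1 (d c1 : ℤ) (hd : Squarefree d) (hc : (767711241:ℤ) = d * c1) (U V N : ℤ)
    (hUV : IsCoprime U V) (hN : N^2 = d*U^4 + 145158*U^2*V^2 + c1*V^4) : d = 1 ∨ d = 89 := by
  have h1 : d ∣ 2937 := by
    have h2 : d ∣ 2937^3 := by
      have : (2937:ℤ)^3 = 767711241 * 33 := by norm_num
      rw [this]
      exact Dvd.dvd.mul_right ⟨c1, hc⟩ _
    exact (hd.dvd_pow_iff_dvd (by norm_num)).mp h2
  have h3 : d.natAbs ∣ 2937 := by
    have := Int.natAbs_dvd_natAbs.mpr h1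
    simpa using this
  have h4 := divs2937 _ h3
  have h5 : d = d.natAbs ∨ d = -(d.natAbs : ℤ) := Int.natAbs_eq d
  generalize d.natAbs = n at h4 h5
  rcases h4 with rfl | rfl | rfl | rfl | rfl | rfl | rfl | rfl <;> rcases h5 with h5 | h5 <;>
    push_cast at h5 <;> subst h5
  · left; rfl
  · exfalso
    obtain rfl : c1 = -767711241 := by omega
    exact exclMod 16 8 2 rfl (by norm_num) (by norm_num) (-1) 145158 (-767711241) (by decide +kernel)
      U V N hUV hN
  · exfalso
    obtain rfl : c1 = 255903747 := by omega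
    exact exclMod 5 1 5 rfl (by norm_num) (by norm_num) 3 145158 255903747 (by decide +kernel)
      U V N hUV hN
  · exfalso
    obtain rfl : c1 = -255903747 := by omega
    exact exclMod 5 1 5 rfl (by norm_num) (by norm_num) (-3) 145158 (-255903747) (by decide +kernel)
      U V N hUV hN
  · exfalso
    obtain rfl : c1 = 69791931 := by omega
    exact exclMod 16 8 2 rfl (by norm_num) (by norm_num) 11 145158 69791931 (by decide +kernel)
      U V N hUV hN
  · exfalso
    obtain rfl : c1 = -69791931 := by omega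
    exact excl11 (-1) (-6344721) (by norm_num) (by norm_num) U V N hUV (by rw [hN]; ring)
  · exfalso
    obtain rfl : c1 = 23263977 := by omega
    exact exclMod 5 1 5 rfl (by norm_num) (by norm_num) 33 145158 23263977 (by decide +kernel)
      U V N hUV hN
  · exfalso
    obtain rfl : c1 = -23263977 := by omega
    exact exclMod 5 1 5 rfl (by norm_num) (by norm_num) (-33) 145158 (-23263977) (by decide +kernel)
      U V N hUV hN
  · right; rfl
  · exfalso
    obtain rfl : c1 = -8625969 := by omega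
    exact exclMod 16 8 2 rfl (by norm_num) (by norm_num) (-89) 145158 (-8625969) (by decide +kernel)
      U V N hUV hN
  · exfalso
    obtain rfl : c1 = 2875323 := by omega
    exact exclMod 5 1 5 rfl (by norm_num) (by norm_num) 267 145158 2875323 (by decide +kernel)
      U V N hUV hN
  · exfalso
    obtain rfl : c1 = -2875323 := by omega
    exact exclMod 5 1 5 rfl (by norm_num) (by norm_num) (-267) 145158 (-2875323) (by decide +kernel)
      U V N hUV hN
  · exfalso
    obtain rfl : c1 = 784179 := by omega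
    exact exclMod 16 8 2 rfl (by norm_num) (by norm_num) 979 145158 784179 (by decide +kernel)
      U V N hUV hN
  · exfalso
    obtain rfl : c1 = -784179 := by omega
    exact excl11 (-89) (-71289) (by norm_num) (by norm_num) U V N hUV (by rw [hN]; ring)
  · exfalso
    obtain rfl : c1 = 261393 := by omega
    exact exclMod 5 1 5 rfl (by norm_num) (by norm_num) 2937 145158 261393 (by decide +kernel)
      U V N hUV hN
  · exfalso
    obtain rfl : c1 = -261393 := by omega
    exact exclMod 5 1 5 rfl (by norm_num) (by norm_num) (-2937) 145158 (-261393) (by decide +kernel)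
      U V N hUV hN

lemma class2 (d c1 : ℤ) (hd : Squarefree d) (hd0 : 0 < d) (hc : (1125000000:ℤ) = d * c1)
    (U V N : ℤ)
    (hUV : IsCoprime U V) (hN : N^2 = d*U^4 + (-72579)*U^2*V^2 + c1*V^4) : d = 1 ∨ d = 5 := by
  have h1 : d ∣ 30 := by
    have h2 : d ∣ 30^9 := by
      have : (30:ℤ)^9 = 1125000000 * 17496 := by norm_num
      rw [this]
      exact Dvd.dvd.mul_right ⟨c1, hc⟩ _
    exact (hd.dvd_pow_iff_dvd (by norm_num)).mp h2
  have h3 : d.natAbs ∣ 30 := by
    have := Int.natAbs_dvd_natAbs.mpr h1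
    simpa using this
  have h4 := divs30 _ h3
  have h5 : d = d.natAbs := by omega
  generalize d.natAbs = n at h4 h5
  rcases h4 with rfl | rfl | rfl | rfl | rfl | rfl | rfl | rfl <;>
    push_cast at h5 <;> subst h5
  · left; rfl
  · exfalso
    obtain rfl : c1 = 562500000 := by omega
    exact excl64 2 (-72579) 562500000 (by decide +kernel) U V N hUV hN
  · exfalso
    obtain rfl : c1 = 375000000 := by omega
    exact exclMod 9 3 3 rfl (by norm_num) (by norm_num) 3 (-72579) 375000000 (by decide +kernel)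
      U V N hUV hN
  · right; rfl
  · exfalso
    obtain rfl : c1 = 187500000 := by omega
    exact exclMod 9 3 3 rfl (by norm_num) (by norm_num) 6 (-72579) 187500000 (by decide +kernel)
      U V N hUV hN
  · exfalso
    obtain rfl : c1 = 112500000 := by omega
    exact excl64 10 (-72579) 112500000 (by decide +kernel) U V N hUV hN
  · exfalso
    obtain rfl : c1 = 75000000 := by omega
    exact exclMod 9 3 3 rfl (by norm_num) (by norm_num) 15 (-72579) 75000000 (by decide +kernel)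
      U V N hUV hN
  · exfalso
    obtain rfl : c1 = 37500000 := by omega
    exact exclMod 9 3 3 rfl (by norm_num) (by norm_num) 30 (-72579) 37500000 (by decide +kernel)
      U V N hUV hN

end Run7.h928.Shift
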