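import Pool.Agent.Run7.h928.ShiftB

set_option autoImplicit false

namespace Run7.h928.Shift

/-- first half of the descent -/
lemma step1 (M e w : ℤ) (hM : 0 < M) (he : 0 < e)
    (hw : w^2 = M^4 - 72579*M^2*e^2 + 1125000000*e^4) :
    ∃ U V : ℤ, 0 < U ∧ 0 < V ∧ IsCoprime U V ∧
      e^2*(U^4+145158*U^2*V^2+767711241*V^4) = 4*M^2*U^2*V^2 := by
  have hMq : (M:ℚ) ≠ 0 := by exact_mod_cast hM.ne'
  have heq : (e:ℚ) ≠ 0 := by exact_mod_cast he.ne'
  have hwq : (w:ℚ)^2 = M^4 - 72579*M^2*e^2 + 1125000000*e^4 := by exact_mod_cast hw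
  set x : ℚ := (2*M^2 - 72579*e^2 + 2*w)/e^2 with hx
  set x' : ℚ := (2*M^2 - 72579*e^2 - 2*w)/e^2 with hx'
  have hxx : x * x' = 767711241 := by
    rw [hx, hx']
    field_simp
    linear_combination (-4) * hwq
  have hx0 : x ≠ 0 := by
    intro h0; rw [h0, zero_mul] at hxx; norm_num at hxx
  have hx'0 : x' ≠ 0 := by
    intro h0; rw [h0, mul_zero] at hxx; norm_num at hxx
  have hsum : x + x' = 4*M^2/e^2 - 145158 := by
    rw [hx, hx']; field_simp; ring
  have hE : x^2 + ((145158:ℤ):ℚ)*x + ((767711241:ℤ):ℚ) = (2*M/e)^2 * x := by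
    push_cast
    have : x' = 4*M^2/e^2 - 145158 - x := by linarith
    rw [this] at hxx
    linear_combination (-1) * hxx
  obtain ⟨d, c1, U, V, N, hd, hc, hUV, hU, hV, hxd, hN, hNρ⟩ :=
    classLemma 145158 767711241 (by norm_num) x (2*M/e) hx0 hE
  have hUq : (U:ℚ) ≠ 0 := by exact_mod_cast hU.ne'
  have hVq : (V:ℚ) ≠ 0 := by exact_mod_cast hV.ne'
  rcases class1 d c1 hd hc U V N hUV hN with h1 | h89
  · refine ⟨U, V, hU, hV, hUV, ?_⟩
    subst h1
    have hc1 : c1 = 767711241 := by omega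
    subst hc1
    have h2 : (N:ℚ)^2 * e^2 = 4*M^2*U^2*V^2 := by
      rw [hNρ]; field_simp; ring
    have h3 : N^2 * e^2 = 4*M^2*U^2*V^2 := by exact_mod_cast h2
    rw [hN] at h3
    linear_combination h3
  · -- use the other root
    subst h89
    have hE' : x'^2 + ((145158:ℤ):ℚ)*x' + ((767711241:ℤ):ℚ) = (2*M/e)^2 * x' := by
      push_cast
      have : x = 4*M^2/e^2 - 145158 - x' := by linarith
      rw [this] at hxx
      linear_combination (-1) * hxx
    have hx'd : x' = (2937*V/U)^2 := by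
      have : x' = 767711241 / x := by
        rw [eq_div_iff hx0]; linear_combination hxx
      rw [this, hxd]; push_cast; field_simp; norm_num
    obtain ⟨d2, c2, U2, V2, N2, hd2, hc2, hUV2, hU2, hV2, hxd2, hN2, hNρ2⟩ :=
      classLemma 145158 767711241 (by norm_num) x' (2*M/e) hx'0 hE'
    have hU2q : (U2:ℚ) ≠ 0 := by exact_mod_cast hU2.ne'
    have hV2q : (V2:ℚ) ≠ 0 := by exact_mod_cast hV2.ne'
    -- d2 = 1
    have hd21 : d2 = 1 := by
      rcases class1 d2 c2 hd2 hc2 U2 V2 N2 hUV2 hN2 with h | h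
      · exact h
      · exfalso
        subst h
        rw [hx'd] at hxd2
        have h3 : IsSquare ((89:ℤ):ℚ) := by
          refine ⟨2937*V/U*V2/U2, ?_⟩
          push_cast at hxd2 ⊢
          field_simp at hxd2 ⊢
          linear_combination (-1) * hxd2
        rw [Rat.isSquare_intCast_iff] at h3
        have : ¬ IsSquare (89:ℤ) := by decide +kernel
        exact this h3
    subst hd21
    refine ⟨U2, V2, hU2, hV2, hUV2, ?_⟩
    have hc1 : c2 = 767711241 := by omega
    subst hc1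
    have h2 : (N2:ℚ)^2 * e^2 = 4*M^2*U2^2*V2^2 := by
      rw [hNρ2]; field_simp; ring
    have h3 : N2^2 * e^2 = 4*M^2*U2^2*V2^2 := by exact_mod_cast h2
    rw [hN2] at h3
    linear_combination h3

/-- second half of the descent -/
lemma step2 (U V N : ℤ) (hU : 0 < U) (hV : 0 < V)
    (hN : N^2 = U^4+145158*U^2*V^2+767711241*V^4) :
    ∃ M e : ℤ, 0 < M ∧ 0 < e ∧ IsCoprime M e ∧
      V^2*(M^4-72579*M^2*e^2+1125000000*e^4) = U^2*M^2*e^2 := by
  have hUq : (U:ℚ) ≠ 0 := by exact_mod_cast hU.ne'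
  have hVq : (V:ℚ) ≠ 0 := by exact_mod_cast hV.ne'
  have hUp : (0:ℚ) < U := by exact_mod_cast hU
  have hVp : (0:ℚ) < V := by exact_mod_cast hV
  have hNq : (N:ℚ)^2 = U^4+145158*U^2*V^2+767711241*V^4 := by exact_mod_cast hN
  set x : ℚ := (U^2+72579*V^2+N)/(2*V^2) with hx
  set x' : ℚ := (U^2+72579*V^2-N)/(2*V^2) with hx'
  have hxx : x * x' = 1125000000 := by
    rw [hx, hx']
    field_simp
    linear_combination (-1) * hNq
  have hsum : x + x' = (U/V)^2 + 72579 := by
    rw [hx, hx']; field_simp; ring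
  have hpos : 0 < x ∧ 0 < x' := by
    have hs : 0 < x + x' := by rw [hsum]; positivity
    have hp : 0 < x * x' := by rw [hxx]; norm_num
    constructor
    · by_contra hcon
      push Not at hcon
      nlinarith
    · by_contra hcon
      push Not at hcon
      nlinarith
  obtain ⟨hx0, hx'0⟩ := hpos
  have hE : x^2 + ((-72579:ℤ):ℚ)*x + ((1125000000:ℤ):ℚ) = (U/V)^2 * x := by
    push_cast
    have : x' = (U/V)^2 + 72579 - x := by linarith
    rw [this] at hxx
    linear_combination (-1) * hxx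
  have hE' : x'^2 + ((-72579:ℤ):ℚ)*x' + ((1125000000:ℤ):ℚ) = (U/V)^2 * x' := by
    push_cast
    have : x = (U/V)^2 + 72579 - x' := by linarith
    rw [this] at hxx
    linear_combination (-1) * hxx
  have dpos : ∀ (y : ℚ) (d U V : ℤ), 0 < y → 0 < U → 0 < V → y = d*U^2/V^2 → 0 < d := by
    intro y d U V hy hU hV h
    have hVp : (0:ℚ) < V := by exact_mod_cast hV
    have hUp : (0:ℚ) < U := by exact_mod_cast hU
    by_contra hcon
    push Not at hcon
    have : (d:ℚ) ≤ 0 := by exact_mod_cast hcon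
    have : (d:ℚ)*U^2/V^2 ≤ 0 := by
      apply div_nonpos_of_nonpos_of_nonneg
      · exact mul_nonpos_of_nonpos_of_nonneg this (by positivity)
      · positivity
    linarith
  obtain ⟨d, c1, M, e, w, hd, hc, hMe, hM, he, hxd, hw, hwρ⟩ :=
    classLemma (-72579) 1125000000 (by norm_num) x (U/V) hx0.ne' hE
  have hMq : (M:ℚ) ≠ 0 := by exact_mod_cast hM.ne'
  have heq : (e:ℚ) ≠ 0 := by exact_mod_cast he.ne'
  rcases class2 d c1 hd (dpos x d M e hx0 hM he hxd) hc M e w hMe hw with h1 | h5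
  · refine ⟨M, e, hM, he, hMe, ?_⟩
    subst h1
    have hc1 : c1 = 1125000000 := by omega
    subst hc1
    have h2 : (w:ℚ)^2 * V^2 = U^2*M^2*e^2 := by
      rw [hwρ]; field_simp
    have h3 : w^2 * V^2 = U^2*M^2*e^2 := by exact_mod_cast h2
    rw [hw] at h3
    linear_combination h3
  · subst h5
    have hx'd : x' = (15000*e/M)^2 := by
      have : x' = 1125000000 / x := by
        rw [eq_div_iff hx0.ne']; linear_combination hxx
      rw [this, hxd]; push_cast; field_simp; norm_num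
    obtain ⟨d2, c2, M2, e2, w2, hd2, hc2, hMe2, hM2, he2, hxd2, hw2, hwρ2⟩ :=
      classLemma (-72579) 1125000000 (by norm_num) x' (U/V) hx'0.ne' hE'
    have hM2q : (M2:ℚ) ≠ 0 := by exact_mod_cast hM2.ne'
    have he2q : (e2:ℚ) ≠ 0 := by exact_mod_cast he2.ne'
    have hd21 : d2 = 1 := by
      rcases class2 d2 c2 hd2 (dpos x' d2 M2 e2 hx'0 hM2 he2 hxd2) hc2 M2 e2 w2 hMe2 hw2 with h | h
      · exact h
      · exfalso
        subst h
        rw [hx'd] at hxd2
        have h3 : IsSquare ((5:ℤ):ℚ) := by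
          refine ⟨15000*e/M*e2/M2, ?_⟩
          push_cast at hxd2 ⊢
          field_simp at hxd2 ⊢
          linear_combination (-1) * hxd2
        rw [Rat.isSquare_intCast_iff] at h3
        have : ¬ IsSquare (5:ℤ) := by decide +kernel
        exact this h3
    subst hd21
    refine ⟨M2, e2, hM2, he2, hMe2, ?_⟩
    have hc1 : c2 = 1125000000 := by omega
    subst hc1
    have h2 : (w2:ℚ)^2 * V^2 = U^2*M2^2*e2^2 := by
      rw [hwρ2]; field_simp
    have h3 : w2^2 * V^2 = U^2*M2^2*e2^2 := by exact_mod_cast h2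
    rw [hw2] at h3
    linear_combination h3

end Run7.h928.Shift
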