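import Pool.Agent.Run7.h928.ShiftC

set_option autoImplicit false

namespace Run7.h928.Shift

/-- the positive `M` with `M² ∣ 2⁶·3²·5⁹` -/
def Ms : List ℕ := [1, 2, 3, 4, 5, 6, 8, 10, 12, 15, 20, 24, 25, 30, 40, 50, 60, 75, 100, 120, 125,
  150, 200, 250, 300, 375, 500, 600, 625, 750, 1000, 1250, 1500, 1875, 2500, 3000, 3750, 5000,
  7500, 15000]

/-- the positive `U` with `U² ∣ 3²·11²·89³` -/
def Us : List ℕ := [1, 3, 11, 33, 89, 267, 979, 2937]

set_option maxRecDepth 100000 in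
lemma fin_check : ∀ M ∈ Ms, ∀ U ∈ Us, ∀ e < 121, 0 < e →
    M^4 + 1125000000*e^4 = U^2*M^2 + 72579*M^2*e^2 →
    (M = 250 ∧ e = 1) ∨ (M = 750 ∧ e = 3) := by decide +kernel

lemma mem_Us (U : ℕ) (h : U^2 ∣ 767711241) : U ∈ Us := by
  have h1 : U ∣ 3^1 * 11^1 * 89^2 := by
    have h2 : U^2 ∣ 261393^2 := by
      have : 261393^2 = 767711241 * 89 := by norm_num
      rw [this]; exact Dvd.dvd.mul_right h _
    have : 3^1 * 11^1 * 89^2 = 261393 := by norm_num
    rw [this]
    exact (Nat.pow_dvd_pow_iff (by norm_num)).mp h2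
  obtain ⟨x1, z, hx1, hz, rfl⟩ := (Nat.dvd_mul).mp h1
  obtain ⟨x, y, hx, hy, rfl⟩ := (Nat.dvd_mul).mp hx1
  obtain ⟨i, hi, rfl⟩ := (Nat.dvd_prime_pow (by norm_num : Nat.Prime 3)).mp hx
  obtain ⟨j, hj, rfl⟩ := (Nat.dvd_prime_pow (by norm_num : Nat.Prime 11)).mp hy
  obtain ⟨k, hk, rfl⟩ := (Nat.dvd_prime_pow (by norm_num : Nat.Prime 89)).mp hz
  have key : ∀ i : Fin 2, ∀ j : Fin 2, ∀ k : Fin 3,
      ((3:ℕ)^i.val*11^j.val*89^k.val)^2 ∣ 767711241 → (3:ℕ)^i.val*11^j.val*89^k.val ∈ Us := by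
    decide +kernel
  exact key ⟨i, by omega⟩ ⟨j, by omega⟩ ⟨k, by omega⟩ h

lemma mem_Ms (M : ℕ) (h : M^2 ∣ 1125000000) : M ∈ Ms := by
  have h1 : M ∣ 2^3 * 3^1 * 5^5 := by
    have h2 : M^2 ∣ 75000^2 := by
      have : 75000^2 = 1125000000 * 5 := by norm_num
      rw [this]; exact Dvd.dvd.mul_right h _
    have : 2^3 * 3^1 * 5^5 = 75000 := by norm_num
    rw [this]
    exact (Nat.pow_dvd_pow_iff (by norm_num)).mp h2
  obtain ⟨x1, z, hx1, hz, rfl⟩ := (Nat.dvd_mul).mp h1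
  obtain ⟨x, y, hx, hy, rfl⟩ := (Nat.dvd_mul).mp hx1
  obtain ⟨i, hi, rfl⟩ := (Nat.dvd_prime_pow (by norm_num : Nat.Prime 2)).mp hx
  obtain ⟨j, hj, rfl⟩ := (Nat.dvd_prime_pow (by norm_num : Nat.Prime 3)).mp hy
  obtain ⟨k, hk, rfl⟩ := (Nat.dvd_prime_pow (by norm_num : Nat.Prime 5)).mp hz
  have key : ∀ i : Fin 4, ∀ j : Fin 2, ∀ k : Fin 6,
      ((2:ℕ)^i.val*3^j.val*5^k.val)^2 ∣ 1125000000 → (2:ℕ)^i.val*3^j.val*5^k.val ∈ Ms := by
    decide +kernel
  exact key ⟨i, by omega⟩ ⟨j, by omega⟩ ⟨k, by omega⟩ h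

lemma Ms_le (M : ℕ) (h : M ∈ Ms) : M ≤ 15000 := by
  revert M; decide +kernel

lemma Us_le (M : ℕ) (h : M ∈ Us) : M ≤ 2937 := by
  revert M; decide +kernel

/-- the endgame: `V = e` -/
lemma endgame (M U e : ℤ) (hM : 0 < M) (hU : 0 < U) (he : 0 < e) (hMe : IsCoprime M e)
    (hUe : IsCoprime U e)
    (h1 : M^4-72579*M^2*e^2+1125000000*e^4 = U^2*M^2)
    (h2 : U^2 ∣ U^4+145158*U^2*e^2+767711241*e^4) : M = 250 ∧ e = 1 := by
  have hU2 : U^2 ∣ 767711241 := by
    have h3 : U^2 ∣ 767711241 * e^4 := by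
      have : 767711241 * e^4 = (U^4+145158*U^2*e^2+767711241*e^4) - U^2*(U^2+145158*e^2) := by ring
      rw [this]
      exact dvd_sub h2 ⟨_, rfl⟩
    exact (hUe.pow : IsCoprime (U^2) (e^4)).dvd_of_dvd_mul_right h3
  have hM2 : M^2 ∣ 1125000000 := by
    have h3 : M^2 ∣ 1125000000 * e^4 := by
      refine ⟨U^2 - M^2 + 72579*e^2, ?_⟩
      linear_combination h1
    exact (hMe.pow : IsCoprime (M^2) (e^4)).dvd_of_dvd_mul_right h3
  lift M to ℕ using hM.le
  lift U to ℕ using hU.le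
  lift e to ℕ using he.le
  have hUm := mem_Us U (by exact_mod_cast hU2)
  have hMm := mem_Ms M (by exact_mod_cast hM2)
  have hUl := Us_le U hUm
  have hMl := Ms_le M hMm
  have hM0 : 0 < M := by exact_mod_cast hM
  have he0 : 0 < e := by exact_mod_cast he
  have h1' : M^4 + 1125000000*e^4 = U^2*M^2 + 72579*M^2*e^2 := by
    have : (M:ℤ)^4 + 1125000000*(e:ℤ)^4 = (U:ℤ)^2*(M:ℤ)^2 + 72579*(M:ℤ)^2*(e:ℤ)^2 := by
      linear_combination h1
    exact_mod_cast this
  have hel : e < 121 := by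
    by_contra hcon
    push Not at hcon
    -- 5 M² e⁴ ≤ 1125000000 e⁴ ≤ (U² + 72579 e²) M²
    have a1 : 5 * M^2 ≤ 1125000000 := by nlinarith
    have a2 : 5 * M^2 * e^4 ≤ (U^2 + 72579*e^2) * M^2 := by
      calc 5 * M^2 * e^4 ≤ 1125000000 * e^4 := Nat.mul_le_mul_right _ a1
        _ ≤ M^4 + 1125000000*e^4 := Nat.le_add_left _ _
        _ = (U^2 + 72579*e^2) * M^2 := by rw [h1']; ring
    have a3 : 5 * e^4 ≤ U^2 + 72579*e^2 := by
      have hM2 : 0 < M^2 := by positivity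
      have : 5 * e^4 * M^2 ≤ (U^2 + 72579*e^2) * M^2 := by
        calc 5 * e^4 * M^2 = 5 * M^2 * e^4 := by ring
          _ ≤ _ := a2
      exact Nat.le_of_mul_le_mul_right this hM2
    have a4 : U^2 ≤ 2937^2 := Nat.pow_le_pow_left hUl 2
    have a5 : 121^2 ≤ e^2 := Nat.pow_le_pow_left hcon 2
    have a6 : e^4 = e^2 * e^2 := by ring
    rw [a6] at a3
    nlinarith
  rcases fin_check M hMm U hUm e hel he0 h1' with ⟨h3, h4⟩ | ⟨h3, h4⟩
  · subst h3 h4; exact ⟨rfl, rfl⟩
  · exfalso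
    subst h3 h4
    exact not_both (p := 3) (by norm_num) hMe (by norm_num) (by norm_num)

/-- going back from `(U, V) = (89, 1)` -/
lemma final (M e U V : ℤ) (hM : 0 < M) (he : 0 < e) (hMe : IsCoprime M e) (hU : U = 89)
    (hV : V = 1)
    (hR1 : e^2*(U^4+145158*U^2*V^2+767711241*V^4) = 4*M^2*U^2*V^2) : M = 250 ∧ e = 1 := by
  subst hU hV
  have h1 : M^2 = (250*e)^2 := by
    have : (250*e)^2 = 62500 * e^2 := by ring
    rw [this]
    linarith
  have h2 : M = 250 * e := by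
    have h3 : 0 < 250 * e := by omega
    exact (pow_left_inj₀ hM.le h3.le (by norm_num)).mp h1
  have h3 : IsUnit e := hMe.isUnit_of_dvd' ⟨250, by rw [h2]; ring⟩ (dvd_refl e)
  rcases Int.isUnit_iff.mp h3 with h4 | h4
  · constructor <;> omega
  · omega

/-- The main descent: the only coprime solution. -/
theorem descent : ∀ n : ℕ, ∀ M e w : ℤ, e.natAbs = n → 0 < M → 0 < e → IsCoprime M e →
    w^2 = M^4-72579*M^2*e^2+1125000000*e^4 → M = 250 ∧ e = 1 := by
  intro n
  induction n using Nat.strong_induction_on with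
  | _ n ih =>
    intro M e w hn hM he hMe hw
    obtain ⟨U, V, hU, hV, hUV, hR1⟩ := step1 M e w hM he hw
    set G := U^4+145158*U^2*V^2+767711241*V^4 with hG
    obtain ⟨N, hN⟩ : IsSquare G := by
      rw [← Rat.isSquare_intCast_iff]
      refine ⟨2*M*U*V/e, ?_⟩
      have heq : (e:ℚ) ≠ 0 := by exact_mod_cast he.ne'
      have h2 : (e:ℚ)^2 * (G:ℚ) = 4*M^2*U^2*V^2 := by exact_mod_cast hR1
      field_simp
      linear_combination h2
    have hN' : N^2 = U^4+145158*U^2*V^2+767711241*V^4 := by rw [← hG, hN]; ring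
    obtain ⟨M', e', hM', he', hMe', hR2⟩ := step2 U V N hU hV hN'
    set F := M'^4-72579*M'^2*e'^2+1125000000*e'^4 with hF
    -- e' ∣ V
    have hcF : IsCoprime e' F := by
      have h3 : IsCoprime e' (M'^4) := hMe'.symm.pow_right
      have : F = M'^4 + e' * (-72579*M'^2*e'+1125000000*e'^3) := by rw [hF]; ring
      rw [this]
      exact IsCoprime.add_mul_left_right h3 _
    have heV : e' ∣ V := by
      have h3 : e'^2 ∣ V^2 * F := ⟨U^2*M'^2, by rw [hR2]; ring⟩
      have h4 : e'^2 ∣ V^2 := (hcF.pow_left : IsCoprime (e'^2) F).dvd_of_dvd_mul_right h3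
      exact (Int.pow_dvd_pow_iff (by norm_num)).mp h4
    obtain ⟨V1, hV1⟩ := heV
    have hV1p : 0 < V1 := by
      rw [hV1] at hV
      exact (mul_pos_iff_of_pos_left he').mp hV
    have hUV1 : IsCoprime U V1 := by
      apply IsCoprime.of_isCoprime_of_dvd_right hUV
      exact ⟨e', by rw [hV1]; ring⟩
    have hR3 : V1^2 * F = U^2 * M'^2 := by
      have h3 : e'^2 * (V1^2 * F) = e'^2 * (U^2 * M'^2) := by
        rw [hV1] at hR2
        linear_combination hR2
      exact mul_left_cancel₀ (pow_ne_zero 2 he'.ne') h3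
    have hV1M : V1 ∣ M' := by
      have h3 : V1^2 ∣ U^2 * M'^2 := ⟨F, hR3.symm⟩
      have h4 : V1^2 ∣ M'^2 := (hUV1.symm.pow : IsCoprime (V1^2) (U^2)).dvd_of_dvd_mul_left h3
      exact (Int.pow_dvd_pow_iff (by norm_num)).mp h4
    obtain ⟨g, hg⟩ := hV1M
    have hF2 : F = U^2 * g^2 := by
      have h3 : V1^2 * F = V1^2 * (U^2 * g^2) := by
        rw [hR3, hg]; ring
      exact mul_left_cancel₀ (pow_ne_zero 2 hV1p.ne') h3
    -- V ∣ e
    have hcG : IsCoprime V G := by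
      have h3 : IsCoprime V (U^4) := hUV.symm.pow_right
      have : G = U^4 + V * (145158*U^2*V+767711241*V^3) := by rw [hG]; ring
      rw [this]
      exact IsCoprime.add_mul_left_right h3 _
    have hVe : V ∣ e := by
      have h3 : V^2 ∣ e^2 * G := ⟨4*M^2*U^2, by rw [hR1]; ring⟩
      have h4 : V^2 ∣ e^2 := (hcG.pow_left : IsCoprime (V^2) G).dvd_of_dvd_mul_right h3
      exact (Int.pow_dvd_pow_iff (by norm_num)).mp h4
    obtain ⟨e1, he1⟩ := hVe
    have he1p : 0 < e1 := by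
      rw [he1] at he
      exact (mul_pos_iff_of_pos_left hV).mp he
    have hR4 : e1^2 * G = 4*M^2*U^2 := by
      have h3 : V^2 * (e1^2 * G) = V^2 * (4*M^2*U^2) := by
        rw [he1] at hR1
        linear_combination hR1
      exact mul_left_cancel₀ (pow_ne_zero 2 hV.ne') h3
    have hle : e = e' * (V1 * e1) := by rw [he1, hV1]; ring
    rcases lt_or_ge e' e with hlt | hge
    · -- use the induction hypothesis
      have hIH := ih e'.natAbs (by omega) M' e' (U*g) rfl hM' he' hMe' (by rw [← hF, hF2]; ring)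
      obtain ⟨hM'250, he'1⟩ := hIH
      rw [hM'250, he'1] at hR2 hF
      have hF0 : F = 495062500 := by rw [hF]; norm_num
      rw [hF0] at hR2
      have h89 : U^2 = (89*V)^2 := by
        have : (89*V)^2 = 7921 * V^2 := by ring
        rw [this]
        linarith
      have hU89 : U = 89 * V := by
        have h3 : 0 < 89 * V := by omega
        exact (pow_left_inj₀ hU.le h3.le (by norm_num)).mp h89
      have hV1' : V = 1 := by
        have h3 : IsUnit V := hUV.isUnit_of_dvd' ⟨89, by rw [hU89]; ring⟩ (dvd_refl V)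
        rcases Int.isUnit_iff.mp h3 with h4 | h4 <;> omega
      exact final M e U V hM he hMe (by omega) hV1' hR1
    · have h3 : V1 * e1 = 1 := by
        have h4 : 1 ≤ V1 * e1 := by nlinarith
        have h5 : e' * (V1 * e1) ≤ e' * 1 := by rw [← hle]; linarith
        have := le_of_mul_le_mul_left h5 he'
        omega
      have hV11 : V1 = 1 := by
        rcases Int.mul_eq_one_iff_eq_one_or_neg_one.mp h3 with h | h <;> omega
      have he11 : e1 = 1 := by rw [hV11, one_mul] at h3; exact h3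
      have hVe' : V = e' := by rw [hV1, hV11, mul_one]
      have heV' : e = V := by rw [he1, he11, mul_one]
      subst hVe'
      subst heV'
      have hF3 : F = U^2 * M'^2 := by rw [← hR3, hV11]; ring
      have hG3 : U^2 ∣ G := ⟨4*M^2, by
        have := hR4
        rw [he11] at this
        linear_combination this⟩
      obtain ⟨hM'250, he1'⟩ := endgame M' U e hM' hU he hMe' hUV hF3 hG3
      subst he1'
      rw [hM'250] at hF hF3
      have hF0 : F = 495062500 := by rw [hF]; norm_num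
      rw [hF0] at hF3
      have h89 : U^2 = 89^2 := by linarith
      have hU89 : U = 89 := (pow_left_inj₀ hU.le (by norm_num) (by norm_num)).mp h89
      exact final M 1 U 1 hM he hMe hU89 rfl hR1

end Run7.h928.Shift
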