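import Pool.Agent.Run7.h928.ShiftD

set_option autoImplicit false

namespace Run7.h928.Shift

lemma P_red (z : ℝ) (h : 5*z^2 = 39*z - 36) :
    z*(z^2-13*z+36)^2 = (398736 - 35244*z)/625 := by
  linear_combination (z^3/5 - 91/25*z^2 + 2296/125*z - 11076/625) * h

lemma prod_sq (a b c d e z : ℝ) :
    (z-a^2)*(z-b^2)*(z-c^2)*(z-d^2)*(z-e^2) =
      z*(z^2+(a*b+a*c+a*d+a*e+b*c+b*d+b*e+c*d+c*e+d*e)*z
        +(a*b*c*d+a*b*c*e+a*b*d*e+a*c*d*e+b*c*d*e))^2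
      -((a+b+c+d+e)*z^2+(a*b*c+a*b*d+a*b*e+a*c*d+a*c*e+a*d*e+b*c*d+b*c*e+b*d*e+c*d*e)*z
        +a*b*c*d*e)^2 := by ring

/-- the Vandermonde product -/
def vdm {R : Type*} [CommRing R] (a b c d e : R) : R :=
  (a-b)*(a-c)*(a-d)*(a-e)*(b-c)*(b-d)*(b-e)*(c-d)*(c-e)*(d-e)

lemma vd (u1 u2 u3 u4 u5 u6 u7 u8 u9 u10 : ℝ) : (u1*u2*u3*u4*u5*u6*u7*u8*u9*u10)^2 =
    (u1*u2*u3*u4)*((-u1)*u5*u6*u7)*((-u2)*(-u5)*u8*u9)*((-u3)*(-u6)*(-u8)*u10)*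
      ((-u4)*(-u7)*(-u9)*(-u10)) := by ring

lemma rearr (u1 u2 u3 u4 u5 v1 v2 v3 v4 v5 : ℝ) :
    5*u1*v1*(5*u2*v2)*(5*u3*v3)*(5*u4*v4)*(5*u5*v5) =
      3125*(u1*u2*u3*u4*u5)*(v1*v2*v3*v4*v5) := by ring

lemma disc_identity (a b c d e t : ℝ)
    (h1 : a+b+c+d+e = 0)
    (h2 : a*b+a*c+a*d+a*e+b*c+b*d+b*e+c*d+c*e+d*e = -13)
    (h3 : a*b*c+a*b*d+a*b*e+a*c*d+a*c*e+a*d*e+b*c*d+b*c*e+b*d*e+c*d*e = 0)
    (h4 : a*b*c*d+a*b*c*e+a*b*d*e+a*c*d*e+b*c*d*e = 36)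
    (h5 : a*b*c*d*e = t) :
    (vdm a b c d e)^2 = 3125*t^4 - 2612844*t^2 + 466560000 := by
  set s : ℝ := √89 with hs
  have hs2 : s^2 = 89 := Real.sq_sqrt (by norm_num)
  set z1 : ℝ := (39+3*s)/10 with hz1
  set z2 : ℝ := (39-3*s)/10 with hz2
  have hq1 : 5*z1^2 = 39*z1 - 36 := by rw [hz1]; linear_combination (9/20:ℝ) * hs2
  have hq2 : 5*z2^2 = 39*z2 - 36 := by rw [hz2]; linear_combination (9/20:ℝ) * hs2
  have hsum : z1 + z2 = 39/5 := by rw [hz1, hz2]; ring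
  have hprod : z1 * z2 = 36/5 := by rw [hz1, hz2]; linear_combination (-9/100:ℝ) * hs2
  have hfac : ∀ x : ℝ, 5*x^4 - 39*x^2 + 36 = 5*(x^2-z1)*(x^2-z2) := by
    intro x
    linear_combination (5*x^2) * hsum - 5 * hprod
  have hD : ∀ x y1 y2 y3 y4 : ℝ, x+y1+y2+y3+y4 = 0 →
      x*y1+x*y2+x*y3+x*y4+y1*y2+y1*y3+y1*y4+y2*y3+y2*y4+y3*y4 = -13 →
      x*y1*y2+x*y1*y3+x*y1*y4+x*y2*y3+x*y2*y4+x*y3*y4+y1*y2*y3+y1*y2*y4+y1*y3*y4+y2*y3*y4 = 0 →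
      x*y1*y2*y3+x*y1*y2*y4+x*y1*y3*y4+x*y2*y3*y4+y1*y2*y3*y4 = 36 →
      (x-y1)*(x-y2)*(x-y3)*(x-y4) = 5*(x^2-z1)*(x^2-z2) := by
    intro x y1 y2 y3 y4 k1 k2 k3 k4
    rw [← hfac]
    linear_combination (-4*x^3) * k1 + 3*x^2*k2 - 2*x*k3 + k4
  have Da := hD a b c d e h1 h2 h3 h4
  have Db := hD b a c d e (by linarith) (by linarith) (by linarith) (by linarith)
  have Dc := hD c a b d e (by linarith) (by linarith) (by linarith) (by linarith)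
  have Dd := hD d a b c e (by linarith) (by linarith) (by linarith) (by linarith)
  have De := hD e a b c d (by linarith) (by linarith) (by linarith) (by linarith)
  have hv : (vdm a b c d e)^2 =
      ((a-b)*(a-c)*(a-d)*(a-e)) * ((b-a)*(b-c)*(b-d)*(b-e)) * ((c-a)*(c-b)*(c-d)*(c-e)) *
      ((d-a)*(d-b)*(d-c)*(d-e)) * ((e-a)*(e-b)*(e-c)*(e-d)) := by
    have := vd (a-b) (a-c) (a-d) (a-e) (b-c) (b-d) (b-e) (c-d) (c-e) (d-e)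
    simp only [neg_sub] at this
    exact this
  have p1 := prod_sq a b c d e z1
  have p2 := prod_sq a b c d e z2
  rw [h1, h2, h3, h4, h5] at p1 p2
  have r1 := P_red z1 hq1
  have r2 := P_red z2 hq2
  have p1' : (a^2-z1)*(b^2-z1)*(c^2-z1)*(d^2-z1)*(e^2-z1) = t^2 - (398736 - 35244*z1)/625 := by
    rw [← r1]
    linear_combination (-1)*p1
  have p2' : (a^2-z2)*(b^2-z2)*(c^2-z2)*(d^2-z2)*(e^2-z2) = t^2 - (398736 - 35244*z2)/625 := by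
    rw [← r2]
    linear_combination (-1)*p2
  rw [hv, Da, Db, Dc, Dd, De]
  have : 5*(a^2-z1)*(a^2-z2)*(5*(b^2-z1)*(b^2-z2))*(5*(c^2-z1)*(c^2-z2))*(5*(d^2-z1)*(d^2-z2))
      *(5*(e^2-z1)*(e^2-z2)) =
      3125 * ((a^2-z1)*(b^2-z1)*(c^2-z1)*(d^2-z1)*(e^2-z1)) *
        ((a^2-z2)*(b^2-z2)*(c^2-z2)*(d^2-z2)*(e^2-z2)) := rearr _ _ _ _ _ _ _ _ _ _
  rw [this, p1', p2']
  -- (t² - P1)(t² - P2)
  have q1 : (398736 - 35244*z1)/625 + (398736 - 35244*z2)/625 = 2612844/3125 := by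
    linear_combination (-35244/625:ℝ) * hsum
  have q2 : (398736 - 35244*z1)/625 * ((398736 - 35244*z2)/625) = 466560000/3125 := by
    linear_combination (-398736*35244/625^2:ℝ) * hsum + (35244^2/625^2:ℝ) * hprod
  linear_combination (-3125*t^2) * q1 + 3125 * q2

end Run7.h928.Shift
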