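import Pool.Agent.Run7.h928.ShiftE

set_option autoImplicit false

namespace Run7.h928.Shift

open Polynomial

/-- rational points on `y² = 3125 t⁴ - 2612844 t² + 466560000` -/
lemma points (t y : ℚ) (ht : t ≠ 0) (h : y^2 = 3125*t^4 - 2612844*t^2 + 466560000) :
    t^2 = (72/5)^2 := by
  obtain ⟨M, e, hM, he, hMe, hq⟩ : ∃ M e : ℤ, 0 < M ∧ 0 < e ∧ IsCoprime M e ∧
      |3600/t| = M / e := by
    have hpos : 0 < |3600/t| := abs_pos.mpr (by positivity)
    refine ⟨|3600/t|.num, |3600/t|.den, Rat.num_pos.mpr hpos, by exact_mod_cast Rat.den_pos _,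
      ?_, ?_⟩
    · rw [Int.isCoprime_iff_nat_coprime]
      simpa using (|3600/t|).reduced
    · exact_mod_cast (Rat.num_div_den (|3600/t|)).symm
  have heq : (e:ℚ) ≠ 0 := by exact_mod_cast he.ne'
  have hMq : (M:ℚ) = |3600/t| * e := by rw [hq]; field_simp
  have hM2 : (M:ℚ)^2 * t^2 = 3600^2 * e^2 := by
    rw [hMq, mul_pow, sq_abs]; field_simp
  have hsq : IsSquare (M^4-72579*M^2*e^2+1125000000*e^4 : ℤ) := by
    rw [← Rat.isSquare_intCast_iff]
    refine ⟨600*y*e^2/t^2, ?_⟩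
    push_cast
    have h2 : (M:ℚ)^2 = 3600^2 * e^2/t^2 := by field_simp; exact hM2
    have h4 : (M:ℚ)^4 = (3600^2 * e^2/t^2)^2 := by rw [← h2]; ring
    rw [h4, h2]
    field_simp
    linear_combination (-360000) * h
  obtain ⟨w, hw⟩ := hsq
  obtain ⟨hM250, he1⟩ := descent _ M e w rfl hM he hMe (by rw [hw]; ring)
  rw [hM250, he1] at hM2
  push_cast at hM2
  have : t^2 = 3600^2/250^2 := by
    rw [eq_div_iff (by norm_num)]
    linarith
  rw [this]; norm_num

lemma no_root (a : ℚ) (h : (a^5 - 13*a^3 + 36*a)^2 = (72/5)^2) : False := by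
  obtain ⟨u, v, hv, huv, hq⟩ : ∃ u v : ℤ, 0 < v ∧ IsCoprime u v ∧ a = u / v := by
    refine ⟨a.num, a.den, by exact_mod_cast a.den_pos, ?_, ?_⟩
    · rw [Int.isCoprime_iff_nat_coprime]
      simpa using a.reduced
    · exact_mod_cast (Rat.num_div_den a).symm
  have hvq : (v:ℚ) ≠ 0 := by exact_mod_cast hv.ne'
  have h1 : (5*((u:ℚ)^5 - 13*u^3*v^2 + 36*u*v^4))^2 = (72*v^5)^2 := by
    rw [hq] at h
    field_simp at h
    linear_combination h
  have h2 : (5*(u^5 - 13*u^3*v^2 + 36*u*v^4))^2 = (72*v^5)^2 := by exact_mod_cast h1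
  have h3 : ∀ x y : ZMod 7, (5*(x^5 - 13*x^3*y^2 + 36*x*y^4))^2 = (72*y^5)^2 → x = 0 ∧ y = 0 := by
    decide +kernel
  have h4 := congrArg (fun z : ℤ => (z : ZMod 7)) h2
  push_cast at h4
  obtain ⟨h5, h6⟩ := h3 _ _ h4
  rw [ZMod.intCast_zmod_eq_zero_iff_dvd] at h5 h6
  exact not_both (p := 7) (by norm_num) huv (by exact_mod_cast h5) (by exact_mod_cast h6)

/-- the quintic -/
noncomputable def P : ℝ[X] := X^5 - C 13 * X^3 + C 36 * X

lemma P_eval (x : ℝ) : P.eval x = x^5 - 13*x^3 + 36*x := by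
  simp [P]

lemma P_deg : P.natDegree = 5 := by
  unfold P; compute_degree!

lemma P_sub_monic (t : ℝ) : (P - C t).Monic := by
  unfold P; monicity!

lemma P_sub_deg (t : ℝ) : (P - C t).natDegree = 5 := by
  unfold P; compute_degree!

theorem main (t : ℝ) (ht : t ≠ 0) (s : Finset ℚ) (hs : s.card = 5)
    (hroot : ∀ q ∈ s, (P - C t).eval (q : ℝ) = 0) : False := by
  have e := (Finset.equivFinOfCardEq hs).symm
  set x : Fin 5 → ℚ := fun i => (e i : ℚ) with hx
  have hinj : Function.Injective x := fun i j h => e.injective (Subtype.ext h)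
  have hxs : ∀ i, x i ∈ s := fun i => (e i).2
  have hpoly : P - C t = ∏ i : Fin 5, (X - C ((x i : ℚ) : ℝ)) := by
    have hmon : (∏ i : Fin 5, (X - C ((x i : ℚ) : ℝ))).Monic := monic_prod_X_sub_C _ _
    have hdeg : (∏ i : Fin 5, (X - C ((x i : ℚ) : ℝ))).natDegree = 5 := by
      rw [natDegree_prod_of_monic _ _ (fun i _ => monic_X_sub_C _)]
      simp
    have hlt : ((P - C t) - ∏ i : Fin 5, (X - C ((x i : ℚ) : ℝ))).degree <
        (Finset.univ.image (fun i : Fin 5 => ((x i : ℚ) : ℝ))).card := by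
      have h1 := degree_sub_lt_left (p := P - C t) (q := ∏ i : Fin 5, (X - C ((x i : ℚ) : ℝ)))
        (by rw [degree_eq_natDegree (P_sub_monic t).ne_zero, degree_eq_natDegree hmon.ne_zero,
              P_sub_deg, hdeg])
        (P_sub_monic t).ne_zero
        (by rw [(P_sub_monic t).leadingCoeff, hmon.leadingCoeff])
      rw [degree_eq_natDegree (P_sub_monic t).ne_zero, P_sub_deg] at h1
      rw [Finset.card_image_of_injective _ (fun i j h => hinj (by exact_mod_cast h))]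
      simpa using h1
    refine eq_of_degree_sub_lt_of_eval_finset_eq _ hlt ?_
    intro y hy
    rw [Finset.mem_image] at hy
    obtain ⟨i, -, rfl⟩ := hy
    rw [hroot _ (hxs i), eval_prod]
    symm
    apply Finset.prod_eq_zero (Finset.mem_univ i)
    simp
  have hev : ∀ y : ℝ, y^5 - 13*y^3 + 36*y - t =
      (y - x 0) * (y - x 1) * (y - x 2) * (y - x 3) * (y - x 4) := by
    intro y
    have := congrArg (fun f : ℝ[X] => f.eval y) hpoly
    simp only [eval_sub, eval_C, P_eval, Fin.prod_univ_five, eval_mul, eval_X] at this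
    exact this
  generalize x 0 = a at hev
  generalize x 1 = b at hev
  generalize x 2 = c at hev
  generalize x 3 = d at hev
  generalize x 4 = f at hev
  have k0 := hev 0
  have k1 := hev 1
  have k2 := hev (-1)
  have k3 := hev 2
  have k4 := hev (-2)
  have h1 : (a:ℝ)+b+c+d+f = 0 := by linarith
  have h3 : (a:ℝ)*b*c+a*b*d+a*b*f+a*c*d+a*c*f+a*d*f+b*c*d+b*c*f+b*d*f+c*d*f = 0 := by linarith
  have h5 : (a:ℝ)*b*c*d*f = t := by linarith
  have h2 : (a:ℝ)*b+a*c+a*d+a*f+b*c+b*d+b*f+c*d+c*f+d*f = -13 := by linarith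
  have h4 : (a:ℝ)*b*c*d+a*b*c*f+a*b*d*f+a*c*d*f+b*c*d*f = 36 := by linarith
  have hdisc := disc_identity a b c d f t h1 h2 h3 h4 h5
  -- rational data
  have ht' : (a*b*c*d*f : ℚ) ≠ 0 := by
    intro h0
    apply ht
    rw [← h5]
    exact_mod_cast h0
  have hy : (vdm a b c d f)^2 = 3125*(a*b*c*d*f)^4 - 2612844*(a*b*c*d*f)^2 + 466560000 := by
    have : (((vdm a b c d f)^2 : ℚ) : ℝ) =
        ((3125*(a*b*c*d*f)^4 - 2612844*(a*b*c*d*f)^2 + 466560000 : ℚ) : ℝ) := by
      push_cast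
      rw [h5]
      have hv : ((vdm a b c d f : ℚ) : ℝ) = vdm (a:ℝ) b c d f := by
        unfold vdm; push_cast; ring
      rw [hv]
      exact hdisc
    exact_mod_cast this
  have ht2 := points _ _ ht' hy
  apply no_root a
  rw [← ht2]
  have hroota : (a:ℝ)^5 - 13*a^3 + 36*a = t := by
    have := hev a
    simp at this
    linarith
  have : ((a^5 - 13*a^3 + 36*a : ℚ) : ℝ) = ((a*b*c*d*f : ℚ) : ℝ) := by
    push_cast
    rw [hroota, h5]
  have h6 : a^5 - 13*a^3 + 36*a = a*b*c*d*f := by exact_mod_cast this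
  rw [h6]

end Run7.h928.Shift
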