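import Mathlib

/-!
# A minimal rational solution of a Poincaré recurrence: the series and its certificate

`T n k` is the hypergeometric term
`(7/16)(7/4)^n (7/8)^k (2/3)_n (4/3)_{n+k} n! (n+k)! / ((2n)! (2n+1+k)! k!)`,
and `S n = ∑ k, T n k`.  We prove the recurrence
`S (n+2) = (9/7) S (n+1) - d (n+1) S n`, `d n = (n²-1/9)/(4n²-1)`,
the value `S 0 = 3/2`, `S 1 = 3/7`, positivity of `S`, and `S n → 0`.
-/

set_option autoImplicit false

open Filter Topology

namespace Run7.h928.Zud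

noncomputable section

/-- `(4/3)_m` -/
def g : ℕ → ℝ
  | 0 => 1
  | m + 1 => g m * (m + 4/3)

/-- `(2/3)_m` -/
def h : ℕ → ℝ
  | 0 => 1
  | m + 1 => h m * (m + 2/3)

lemma g_pos (m : ℕ) : 0 < g m := by
  induction m with
  | zero => simp [g]
  | succ m ih => simp only [g]; positivity

lemma h_pos (m : ℕ) : 0 < h m := by
  induction m with
  | zero => simp [h]
  | succ m ih => simp only [h]; positivity

/-- The hypergeometric term. -/
def T (n k : ℕ) : ℝ :=
  (7/16) * (7/4)^n * (7/8)^k * h n * g (n+k) * (n.factorial : ℝ) * ((n+k).factorial : ℝ) /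
    (((2*n).factorial : ℝ) * ((2*n+1+k).factorial : ℝ) * (k.factorial : ℝ))

lemma T_pos (n k : ℕ) : 0 < T n k := by
  unfold T
  have := g_pos (n+k)
  have := h_pos n
  positivity

lemma T_succ_right (n k : ℕ) :
    T n (k+1) = T n k * ((7/8) * (n+k+4/3) * (n+k+1) / ((2*n+2+k) * (k+1))) := by
  have e1 : g (n + (k+1)) = g (n+k) * ((n:ℝ) + k + 4/3) := by
    rw [← add_assoc, g]; push_cast; ring
  have e2 : ((n + (k+1)).factorial : ℝ) = ((n:ℝ)+k+1) * ((n+k).factorial : ℝ) := by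
    rw [← add_assoc, Nat.factorial_succ]; push_cast; ring
  have e3 : ((2*n+1+(k+1)).factorial : ℝ) = (2*(n:ℝ)+2+k) * ((2*n+1+k).factorial : ℝ) := by
    rw [← add_assoc, Nat.factorial_succ]; push_cast; ring
  have e4 : ((k+1).factorial : ℝ) = ((k:ℝ)+1) * (k.factorial : ℝ) := by
    rw [Nat.factorial_succ]; push_cast; ring
  unfold T
  rw [e1, e2, e3, e4, pow_succ]
  have p1 : ((2*n).factorial : ℝ) ≠ 0 := by positivity
  have p2 : ((2*n+1+k).factorial : ℝ) ≠ 0 := by positivity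
  have p3 : (k.factorial : ℝ) ≠ 0 := by positivity
  have p4 : (2*(n:ℝ)+2+k) ≠ 0 := by positivity
  have p5 : ((k:ℝ)+1) ≠ 0 := by positivity
  field_simp

lemma T_succ_left (n k : ℕ) :
    T (n+1) k = T n k * ((7/8) * (n+2/3) * (n+k+4/3) * (n+k+1) /
      ((2*n+1) * (2*n+k+2) * (2*n+k+3))) := by
  have e1 : g (n + 1 + k) = g (n+k) * ((n:ℝ) + k + 4/3) := by
    rw [show n + 1 + k = (n + k) + 1 by ring, g]; push_cast; ring
  have e2 : ((n + 1 + k).factorial : ℝ) = ((n:ℝ)+k+1) * ((n+k).factorial : ℝ) := by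
    rw [show n + 1 + k = (n + k) + 1 by ring, Nat.factorial_succ]; push_cast; ring
  have e3 : ((2*(n+1)+1+k).factorial : ℝ) =
      (2*(n:ℝ)+k+3) * ((2*(n:ℝ)+k+2) * ((2*n+1+k).factorial : ℝ)) := by
    rw [show 2*(n+1)+1+k = (2*n+1+k) + 1 + 1 by ring, Nat.factorial_succ, Nat.factorial_succ]
    push_cast; ring
  have e4 : ((2*(n+1)).factorial : ℝ) =
      (2*(n:ℝ)+2) * ((2*(n:ℝ)+1) * ((2*n).factorial : ℝ)) := by
    rw [show 2*(n+1) = (2*n) + 1 + 1 by ring, Nat.factorial_succ, Nat.factorial_succ]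
    push_cast; ring
  have e5 : ((n+1).factorial : ℝ) = ((n:ℝ)+1) * (n.factorial : ℝ) := by
    rw [Nat.factorial_succ]; push_cast; ring
  unfold T
  rw [e1, e2, e3, e4, e5, pow_succ, h]
  have p1 : ((2*n).factorial : ℝ) ≠ 0 := by positivity
  have p2 : ((2*n+1+k).factorial : ℝ) ≠ 0 := by positivity
  have p3 : (k.factorial : ℝ) ≠ 0 := by positivity
  have p4 : (2*(n:ℝ)+k+3) ≠ 0 := by positivity
  have p5 : (2*(n:ℝ)+k+2) ≠ 0 := by positivity
  have p6 : (2*(n:ℝ)+2) ≠ 0 := by positivity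
  have p7 : (2*(n:ℝ)+1) ≠ 0 := by positivity
  field_simp
  ring

/-- `d n = (n²-1/9)/(4n²-1)`. -/
def d (n : ℕ) : ℝ := ((n:ℝ)^2 - 1/9) / (4 * (n:ℝ)^2 - 1)

/-- The certificate for the general relation. -/
def G (n k : ℕ) : ℝ :=
  (k * (9*(31*(n:ℝ)+18)*k^2 + (846*(n:ℝ)^2+993*n+278)*k + (639*(n:ℝ)^3+1071*(n:ℝ)^2+494*n+48)) /
    (63*(2*(n:ℝ)+1)*(n+k)*(n+k+1/3)*(2*n+k+2))) * T n k

lemma cert (n k : ℕ) :
    T (n+2) k - (9/7) * T (n+1) k + d (n+1) * T n k = G (n+1) (k+1) - G (n+1) k := by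
  have a1 := T_succ_left (n+1) k
  have a2 := T_succ_left n k
  have a3 := T_succ_right (n+1) k
  unfold G d
  rw [show n + 2 = n + 1 + 1 by ring, a1, a3, a2]
  push_cast
  have q1 : (2*(n:ℝ)+1) ≠ 0 := by positivity
  have q2 : (2*(n:ℝ)+k+2) ≠ 0 := by positivity
  have q3 : (2*(n:ℝ)+k+3) ≠ 0 := by positivity
  have q4 : (2*((n:ℝ)+1)+1) ≠ 0 := by positivity
  have q5 : (2*((n:ℝ)+1)+k+2) ≠ 0 := by positivity
  have q6 : (2*((n:ℝ)+1)+k+3) ≠ 0 := by positivity
  have q7 : (2*((n:ℝ)+1)+2+k) ≠ 0 := by positivity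
  have q8 : ((k:ℝ)+1) ≠ 0 := by positivity
  have q9 : (n:ℝ)+1+k ≠ 0 := by positivity
  have q10 : (n:ℝ)+1+k+1/3 ≠ 0 := by positivity
  have q11 : (n:ℝ)+1+(k+1) ≠ 0 := by positivity
  have q12 : (n:ℝ)+1+(k+1)+1/3 ≠ 0 := by positivity
  have q13 : (2*((n:ℝ)+1)+(k+1)+2) ≠ 0 := by positivity
  have q14 : (4 * ((n:ℝ)+1)^2 - 1) ≠ 0 := by
    have : (4 * ((n:ℝ)+1)^2 - 1) = (2*(n:ℝ)+1) * (2*((n:ℝ)+1)+1) := by ring
    rw [this]; positivity
  have q14' : (4 * ((n:ℝ)+1)^2 - 1) = (2*(n:ℝ)+1) * (2*((n:ℝ)+1)+1) := by ring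
  rw [q14']
  field_simp
  ring

/-- The certificate at `n = 0`. -/
def G0 (k : ℕ) : ℝ := ((96 + 62 * (k:ℝ)) / (21 * (k+2))) * T 0 k

lemma T_zero_zero : T 0 0 = 7/16 := by
  simp [T, g, h]

lemma G0_zero : G0 0 = 1 := by
  rw [G0, T_zero_zero]; norm_num

lemma cert0 (k : ℕ) : T 1 k - (20/21) * T 0 k = G0 (k+1) - G0 k := by
  have a2 := T_succ_left 0 k
  have a3 := T_succ_right 0 k
  unfold G0
  rw [show 1 = 0 + 1 by ring, a3, a2]
  push_cast
  have q2 : (2*(0:ℝ)+k+2) ≠ 0 := by positivity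
  have q3 : (2*(0:ℝ)+k+3) ≠ 0 := by positivity
  have q8 : ((k:ℝ)+1) ≠ 0 := by positivity
  have q9 : (k:ℝ)+2 ≠ 0 := by positivity
  have q10 : (k:ℝ)+1+2 ≠ 0 := by positivity
  have q11 : (2*(0:ℝ)+2+k) ≠ 0 := by positivity
  field_simp
  ring

lemma norm_r : ‖(7/8 : ℝ)‖ < 1 := by
  rw [Real.norm_eq_abs, abs_of_pos (by norm_num)]; norm_num

/-- The geometric-type bound on `T`. -/
lemma T_le (n k : ℕ) : T n k ≤ T n 0 * ((k + (n+1)).choose (n+1) * (7/8 : ℝ)^k) := by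
  induction k with
  | zero => simp
  | succ k ih =>
    rw [T_succ_right]
    have hT := T_pos n 0
    have e1 : (((k + 1 + (n+1)).choose (n+1) : ℕ) : ℝ) * (k+1) =
        ((k + (n+1)).choose (n+1) : ℕ) * ((k:ℝ) + n + 2) := by
      have h1 := Nat.add_one_mul_choose_eq (k + (n+1)) k
      -- (m+1) * C(m,k) = C(m+1,k+1) * (k+1), m = k+(n+1)
      have h2 : (k + (n+1)).choose k = (k + (n+1)).choose (n+1) := by
        rw [Nat.choose_symm_add]
      have h3 : (k + (n+1) + 1).choose (k+1) = (k + 1 + (n+1)).choose (n+1) := by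
        rw [show k + (n+1) + 1 = (k+1) + (n+1) by ring, Nat.choose_symm_add]
      rw [h2, h3] at h1
      have := congrArg (fun x : ℕ => (x : ℝ)) h1
      push_cast at this

      linarith
    have e2 : (((k + 1 + (n+1)).choose (n+1) : ℕ) : ℝ) =
        ((k + (n+1)).choose (n+1) : ℕ) * (((k:ℝ) + n + 2) / (k+1)) := by
      have : (k:ℝ)+1 ≠ 0 := by positivity
      field_simp
      linarith
    rw [e2, pow_succ]
    have hr : ((7/8) * ((n:ℝ)+k+4/3) * (n+k+1) / ((2*n+2+k) * (k+1))) ≤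
        (((k:ℝ) + n + 2) / (k+1)) * (7/8) := by
      have : ((n:ℝ)+k+4/3) * (n+k+1) ≤ ((k:ℝ)+n+2) * (2*n+2+k) := by
        have hn : (0:ℝ) ≤ n := by positivity
        have hk : (0:ℝ) ≤ k := by positivity
        nlinarith
      have hk1 : (0:ℝ) < (k:ℝ)+1 := by positivity
      have e : (((k:ℝ) + n + 2) / (k+1)) * (7/8) =
          ((7/8) * (((k:ℝ)+n+2) * (2*n+2+k))) / ((2*n+2+k) * (k+1)) := by
        field_simp
      rw [e]
      apply div_le_div_of_nonneg_right _ (by positivity)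
      nlinarith
    have hr0 : 0 ≤ ((7/8) * ((n:ℝ)+k+4/3) * (n+k+1) / ((2*n+2+k) * (k+1))) := by positivity
    calc T n k * ((7/8) * ((n:ℝ)+k+4/3) * (n+k+1) / ((2*n+2+k) * (k+1)))
        ≤ (T n 0 * ((k + (n+1)).choose (n+1) * (7/8 : ℝ)^k)) *
          ((((k:ℝ) + n + 2) / (k+1)) * (7/8)) := by
          apply mul_le_mul ih hr hr0
          positivity
      _ = _ := by ring

lemma summable_T (n : ℕ) : Summable (T n) := by
  have hs : Summable (fun k : ℕ => T n 0 * ((k + (n+1)).choose (n+1) * (7/8 : ℝ)^k)) :=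
    (summable_choose_mul_geometric_of_norm_lt_one (n+1) norm_r).mul_left _
  exact Summable.of_nonneg_of_le (fun k => (T_pos n k).le) (fun k => T_le n k) hs

/-- The sum. -/
def S (n : ℕ) : ℝ := ∑' k, T n k

lemma S_pos (n : ℕ) : 0 < S n :=
  (summable_T n).tsum_pos (fun k => (T_pos n k).le) 0 (T_pos n 0)

lemma S_le (n : ℕ) : S n ≤ T n 0 * 8^(n+2) := by
  have hs : Summable (fun k : ℕ => T n 0 * ((k + (n+1)).choose (n+1) * (7/8 : ℝ)^k)) :=
    (summable_choose_mul_geometric_of_norm_lt_one (n+1) norm_r).mul_left _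
  calc S n ≤ ∑' k : ℕ, T n 0 * ((k + (n+1)).choose (n+1) * (7/8 : ℝ)^k) :=
        (summable_T n).tsum_le_tsum (fun k => T_le n k) hs
    _ = T n 0 * 8^(n+2) := by
        rw [tsum_mul_left, tsum_choose_mul_geometric_of_norm_lt_one (n+1) norm_r]
        congr 1
        rw [show (1 - 7/8 : ℝ) = 1/8 by norm_num]
        rw [one_div_pow]
        simp

lemma telescoping {f F : ℕ → ℝ} (hF : Tendsto F atTop (𝓝 0)) (hf : Summable f)
    (hfF : ∀ k, f k = F (k+1) - F k) : ∑' k, f k = - F 0 := by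
  have h1 := hf.hasSum.tendsto_sum_nat
  have h2 : (fun n : ℕ => ∑ i ∈ Finset.range n, f i) = fun n => F n - F 0 := by
    funext n
    simp_rw [hfF]
    exact Finset.sum_range_sub F n
  rw [h2] at h1
  have h3 : Tendsto (fun n => F n - F 0) atTop (𝓝 (0 - F 0)) := hF.sub_const _
  have := tendsto_nhds_unique h1 h3
  linarith

lemma G0_tendsto : Tendsto G0 atTop (𝓝 0) := by
  have hT := (summable_T 0).tendsto_atTop_zero
  have h1 : Tendsto (fun k => 7 * T 0 k) atTop (𝓝 0) := by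
    simpa using hT.const_mul 7
  refine squeeze_zero (fun k => ?_) (fun k => ?_) h1
  · have := T_pos 0 k
    unfold G0; positivity
  · unfold G0
    apply mul_le_mul_of_nonneg_right _ (T_pos 0 k).le
    rw [div_le_iff₀ (by positivity)]
    have : (0:ℝ) ≤ k := by positivity
    nlinarith

lemma G_tendsto (n : ℕ) : Tendsto (G (n+1)) atTop (𝓝 0) := by
  have hT := (summable_T (n+1)).tendsto_atTop_zero
  set N : ℝ := ((n+1 : ℕ) : ℝ) with hN
  have hN1 : 1 ≤ N := by rw [hN]; push_cast; linarith [Nat.cast_nonneg (α := ℝ) n]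
  set C : ℝ := 9*(31*N+18) + (846*N^2+993*N+278) + (639*N^3+1071*N^2+494*N+48) with hC
  have h1 : Tendsto (fun k => C * T (n+1) k) atTop (𝓝 0) := by
    simpa using hT.const_mul C
  refine squeeze_zero (fun k => ?_) (fun k => ?_) h1
  · have := T_pos (n+1) k
    unfold G; positivity
  · unfold G
    apply mul_le_mul_of_nonneg_right _ (T_pos (n+1) k).le
    rw [← hN]
    have hk : (0:ℝ) ≤ k := by positivity
    have hP : 0 ≤ C := by rw [hC]; positivity
    have hA : 0 ≤ 9*(31*N+18) := by positivity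
    have hB : 0 ≤ (846*N^2+993*N+278) := by positivity
    have hD : 0 ≤ (639*N^3+1071*N^2+494*N+48) := by positivity
    rw [div_le_iff₀ (by positivity)]
    -- numerator ≤ k * C * ((N+k+1/3)*(2N+k+2)), and k ≤ 63 (2N+1)(N+k)
    have s1 : 9*(31*N+18)*(k:ℝ)^2 + (846*N^2+993*N+278)*k + (639*N^3+1071*N^2+494*N+48) ≤
        C * ((N+k+1/3)*(2*N+k+2)) := by
      have t1 : (k:ℝ)^2 ≤ (N+k+1/3)*(2*N+k+2) := by nlinarith
      have t2 : (k:ℝ) ≤ (N+k+1/3)*(2*N+k+2) := by nlinarith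
      have t3 : 1 ≤ (N+k+1/3)*(2*N+k+2) := by nlinarith
      rw [hC]
      nlinarith [mul_le_mul_of_nonneg_left t1 hA, mul_le_mul_of_nonneg_left t2 hB,
        mul_le_mul_of_nonneg_left t3 hD]
    have s2 : (k:ℝ) ≤ 63*(2*N+1)*(N+k) := by nlinarith
    calc (k:ℝ) * (9*(31*N+18)*(k:ℝ)^2 + (846*N^2+993*N+278)*k + (639*N^3+1071*N^2+494*N+48))
        ≤ (63*(2*N+1)*(N+k)) * (C * ((N+k+1/3)*(2*N+k+2))) := by
          apply mul_le_mul s2 s1 (by positivity) (by positivity)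
      _ = _ := by ring

lemma S_rec (n : ℕ) : S (n+2) = (9/7) * S (n+1) - d (n+1) * S n := by
  have h0 := summable_T n
  have h1 := summable_T (n+1)
  have h2 := summable_T (n+2)
  have hs : Summable (fun k => T (n+2) k - (9/7) * T (n+1) k + d (n+1) * T n k) :=
    (h2.sub (h1.mul_left _)).add (h0.mul_left _)
  have h3 := telescoping (G_tendsto n) hs (cert n)
  have h4 : G (n+1) 0 = 0 := by simp [G]
  rw [(h2.sub (h1.mul_left _)).tsum_add (h0.mul_left _), h2.tsum_sub (h1.mul_left _),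
    tsum_mul_left, tsum_mul_left, h4] at h3
  unfold S
  linarith

lemma S_one : S 1 = (20/21) * S 0 - 1 := by
  have h0 := summable_T 0
  have h1 := summable_T 1
  have hs : Summable (fun k => T 1 k - (20/21) * T 0 k) := h1.sub (h0.mul_left _)
  have h3 := telescoping G0_tendsto hs cert0
  rw [h1.tsum_sub (h0.mul_left _), tsum_mul_left, G0_zero] at h3
  unfold S
  linarith

end

end Run7.h928.Zud
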