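import Pool.Agent.Run7.h928.ZudMain

set_option autoImplicit false

open Filter Topology

namespace Run7.h928.Zud

noncomputable section

/-- rational version of `d` -/
def dq (n : ℕ) : ℚ := ((n:ℚ)^2 - 1/9) / (4 * (n:ℚ)^2 - 1)

lemma dq_cast (n : ℕ) : ((dq n : ℚ) : ℝ) = d n := by
  unfold dq d; push_cast; ring

/-- the minimal rational solution -/
def v : ℕ → ℚ
  | 0 => 3/2
  | 1 => 3/7
  | n + 2 => (9/7) * v (n+1) - dq (n+1) * v n

/-- a dominant rational solution -/
def w : ℕ → ℚ
  | 0 => 1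
  | 1 => 1
  | n + 2 => (9/7) * w (n+1) - dq (n+1) * w n

lemma v_cast (n : ℕ) : ((v n : ℚ) : ℝ) = S n ∧ ((v (n+1) : ℚ) : ℝ) = S (n+1) := by
  induction n with
  | zero =>
    refine ⟨?_, ?_⟩
    · rw [S_zero, v]; norm_num
    · rw [S_one', v]; norm_num
  | succ n ih =>
    refine ⟨ih.2, ?_⟩
    rw [show n + 1 + 1 = n + 2 by ring, v, S_rec, ← ih.1, ← ih.2, ← dq_cast]
    push_cast; ring

/-- real version of `w` -/
def W (n : ℕ) : ℝ := ((w n : ℚ) : ℝ)

lemma W_rec (n : ℕ) : W (n+2) = (9/7) * W (n+1) - d (n+1) * W n := by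
  unfold W
  rw [w, ← dq_cast]; push_cast; ring

lemma W_key (n : ℕ) : 0 < W n ∧ 0.9 * W n ≤ W (n+1) := by
  induction n with
  | zero =>
    have h0 : W 0 = 1 := by simp [W, w]
    have h1 : W 1 = 1 := by simp [W, w]
    rw [h0, h1]; norm_num
  | succ n ih =>
    obtain ⟨h1, h2⟩ := ih
    have hp : 0 < W (n+1) := by norm_num at h2; linarith
    refine ⟨hp, ?_⟩
    rw [W_rec]
    rcases Nat.eq_zero_or_pos n with rfl | hn
    · have h0 : W 0 = 1 := by simp [W, w]
      have h1 : W 1 = 1 := by simp [W, w]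
      have hd : d 1 = 8/27 := by unfold d; norm_num
      simp only [zero_add]
      rw [h0, h1, hd]; norm_num
    · obtain ⟨m, rfl⟩ : ∃ m, n = m + 1 := ⟨n - 1, by omega⟩
      have hd := d_le m
      have hd0 := d_pos (m+1)
      rw [show m + 1 + 1 = m + 2 by ring] at *
      norm_num at h2 ⊢
      nlinarith

lemma W_pos (n : ℕ) : 0 < W n := (W_key n).1

/-- ratio of the dominant solution -/
def sig (n : ℕ) : ℝ := W (n+1) / W n

lemma sig_ge (n : ℕ) : 0.9 ≤ sig n := by
  unfold sig
  rw [le_div_iff₀ (W_pos n)]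
  exact (W_key n).2

lemma sig_rec (n : ℕ) : sig (n+1) = 9/7 - d (n+1) / sig n := by
  unfold sig
  have h0 := (W_pos n).ne'
  have h1 := (W_pos (n+1)).ne'
  have hr := W_rec n
  rw [show n+1+1 = n+2 by ring, hr]
  field_simp

lemma sig_le (n : ℕ) : sig n ≤ 9/7 := by
  cases n with
  | zero =>
    have h0 : W 0 = 1 := by simp [W, w]
    have h1 : W 1 = 1 := by simp [W, w]
    unfold sig
    simp only [zero_add]
    rw [h0, h1]; norm_num
  | succ n =>
    rw [sig_rec]
    have h1 := sig_ge n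
    have h2 : 0 < sig n := by norm_num at h1; linarith
    have h3 := d_pos n
    have : 0 < d (n+1) / sig n := by positivity
    linarith

lemma sig_tendsto : Tendsto sig atTop (𝓝 Lam) := by
  obtain ⟨hl1, hl2⟩ := lam_bounds
  obtain ⟨hL1, hL2⟩ := Lam_bounds
  have hx : Tendsto (fun n => |sig n - Lam|) atTop (𝓝 0) := by
    refine forward (δ := fun n => (10/9) * |d (n+1) - 1/4|) (θ := 0.3) (M := 1)
      (by norm_num) (by norm_num) (fun n => abs_nonneg _) (fun n => ?_) (fun n => ?_) ?_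
    · have h1 := sig_ge n
      have h2 := sig_le n
      rw [abs_le]
      norm_num at hL1 hL2 h1
      constructor <;> linarith
    · have h1 := sig_rec n
      have h2 := sig_ge n
      set r := sig (n+1) with hr
      set s := sig n with hs
      have hps : 0 < s := by norm_num at h2; linarith
      have hL0 : 0 < Lam := by norm_num at hL1; linarith
      have e : r - Lam = (1/4) * (s - Lam) / (s * Lam) - (d (n+1) - 1/4) / s := by
        have e3 : Lam = 9/7 - (1/4) / Lam := by
          have : (1/4) / Lam = lam := by rw [div_eq_iff hL0.ne']; exact lam_mul.symm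
          rw [this]; linarith [lam_add]
        rw [h1]
        conv_lhs => rw [e3]
        have ht := hps.ne'
        have hL0' := hL0.ne'
        field_simp
        ring
      have b1 : |(d (n+1) - 1/4) / s| ≤ (10/9) * |d (n+1) - 1/4| := by
        rw [abs_div, abs_of_pos hps, div_le_iff₀ hps]
        have := abs_nonneg (d (n+1) - 1/4)
        norm_num at h2
        nlinarith
      have b2 : |(1/4) * (s - Lam) / (s * Lam)| ≤ 0.3 * |s - Lam| := by
        have hp : 0 < s * Lam := by positivity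
        rw [abs_div, abs_of_pos hp, div_le_iff₀ hp, abs_mul]
        have h14 : |(1/4:ℝ)| = 1/4 := by norm_num
        rw [h14]
        have h0 := abs_nonneg (s - Lam)
        have hL1' : (1.046:ℝ) ≤ Lam := hL1.le
        have : (1/4 : ℝ) ≤ 0.3 * (s * Lam) := by
          have : (0.9 : ℝ) * 1.046 ≤ s * Lam :=
            mul_le_mul h2 hL1' (by norm_num) hps.le
          norm_num at this ⊢
          linarith
        nlinarith
      calc |r - Lam| ≤ |(1/4) * (s - Lam) / (s * Lam)| + |(d (n+1) - 1/4) / s| := by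
            rw [e]; exact abs_sub _ _
        _ ≤ _ := by linarith
    · have h1 := (tendsto_add_atTop_iff_nat 1).mpr d_tendsto
      have h2 : Tendsto (fun n => d (n+1) - 1/4) atTop (𝓝 0) := by
        simpa using h1.sub_const (1/4)
      have h3 := h2.abs.const_mul (10/9)
      simpa using h3
  rw [← tendsto_sub_nhds_zero_iff]
  exact (tendsto_zero_iff_abs_tendsto_zero _).mpr hx

lemma indep (c e : ℚ) (hce : ∀ᶠ n in atTop, c * v n + e * w n = 0) : c = 0 ∧ e = 0 := by
  obtain ⟨hL1, hL2⟩ := Lam_bounds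
  have hs : ∀ᶠ n in atTop, 1 < sig n := by
    apply sig_tendsto.eventually_const_lt
    norm_num at hL1; linarith
  have hce1 : ∀ᶠ n in atTop, c * v (n+1) + e * w (n+1) = 0 :=
    (tendsto_add_atTop_nat 1).eventually hce
  obtain ⟨n, hn, hn1, hn2, hn3⟩ := (hce.and (hce1.and (hs.and (eventually_ge_atTop 1)))).exists
  obtain ⟨m, rfl⟩ : ∃ m, n = m + 1 := ⟨n - 1, by omega⟩
  have r1 : (c:ℝ) * S (m+1) + e * W (m+1) = 0 := by
    have := congrArg (fun x : ℚ => (x : ℝ)) hn
    push_cast at this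
    rw [(v_cast (m+1)).1] at this
    exact this
  have r2 : (c:ℝ) * S (m+2) + e * W (m+2) = 0 := by
    have := congrArg (fun x : ℚ => (x : ℝ)) hn1
    push_cast at this
    rw [(v_cast (m+1)).2] at this
    exact this
  have hW : W (m+1) < W (m+2) := by
    unfold sig at hn2
    rwa [lt_div_iff₀ (W_pos _), one_mul] at hn2
  have hS := S_succ_lt m
  have pS1 := S_pos (m+1)
  have pS2 := S_pos (m+2)
  have pW1 := W_pos (m+1)
  -- c (S1 W2 - S2 W1) = 0
  have hc : (c:ℝ) * (S (m+1) * W (m+2) - S (m+2) * W (m+1)) = 0 := by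
    linear_combination W (m+2) * r1 - W (m+1) * r2
  have hpos : 0 < S (m+1) * W (m+2) - S (m+2) * W (m+1) := by nlinarith
  have hc0 : (c:ℝ) = 0 := by
    rcases mul_eq_zero.mp hc with h | h
    · exact h
    · exact absurd h hpos.ne'
  have he0 : (e:ℝ) = 0 := by
    rw [hc0, zero_mul, zero_add] at r1
    rcases mul_eq_zero.mp r1 with h | h
    · exact h
    · exact absurd h pW1.ne'
  exact ⟨by exact_mod_cast hc0, by exact_mod_cast he0⟩

/-- evaluation of an explicit fraction -/
lemma eval_div (p q : Polynomial ℚ) (x : ℚ) (hq : q.eval x ≠ 0) :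
    RatFunc.eval (RingHom.id ℚ) x
      (algebraMap (Polynomial ℚ) (RatFunc ℚ) p / algebraMap (Polynomial ℚ) (RatFunc ℚ) q)
      = p.eval x / q.eval x := by
  set y : RatFunc ℚ := algebraMap (Polynomial ℚ) (RatFunc ℚ) p /
    algebraMap (Polynomial ℚ) (RatFunc ℚ) q with hy
  have hq0 : q ≠ 0 := by rintro rfl; simp at hq
  have h1 : y.num * q = p * y.denom := (RatFunc.num_mul_eq_mul_denom_iff hq0).mpr hy
  have h2 : y.denom ∣ q := RatFunc.denom_div_dvd p q
  have h3 : y.denom.eval x ≠ 0 := by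
    obtain ⟨r, hr⟩ := h2
    rw [hr, Polynomial.eval_mul] at hq
    exact left_ne_zero_of_mul hq
  have h4 := congrArg (fun f : Polynomial ℚ => f.eval x) h1
  simp only [Polynomial.eval_mul] at h4
  unfold RatFunc.eval
  rw [Polynomial.eval₂_id, Polynomial.eval₂_id, div_eq_div_iff h3 hq]
  exact h4

/-- the coefficient `a(m) = - ((m-1)²-1/9)/(4(m-1)²-1)` -/
def pa : Polynomial ℚ := -((Polynomial.X - 1)^2 - Polynomial.C (1/9))
/-- the denominator -/
def qa : Polynomial ℚ := 4 * (Polynomial.X - 1)^2 - 1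

/-- the rational function `a` -/
def a : RatFunc ℚ :=
  algebraMap (Polynomial ℚ) (RatFunc ℚ) pa / algebraMap (Polynomial ℚ) (RatFunc ℚ) qa

lemma a_eval (n : ℕ) : RatFunc.eval (RingHom.id ℚ) ((n + 1 : ℕ) : ℚ) a = - dq n := by
  have hq : qa.eval ((n + 1 : ℕ) : ℚ) = 4 * (n:ℚ)^2 - 1 := by
    unfold qa; simp
  have hp : pa.eval ((n + 1 : ℕ) : ℚ) = - ((n:ℚ)^2 - 1/9) := by
    unfold pa; simp
  have hq0 : qa.eval ((n + 1 : ℕ) : ℚ) ≠ 0 := by
    rw [hq]
    intro h0
    have h1 : (4 * (n:ℤ)^2 - 1 : ℤ) = 0 := by exact_mod_cast h0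
    omega
  unfold a
  rw [eval_div _ _ _ hq0, hq, hp]
  unfold dq
  rw [neg_div]

end

end Run7.h928.Zud
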