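import Pool.Agent.Run7.h928.ZudCert

set_option autoImplicit false

open Filter Topology

namespace Run7.h928.Zud

noncomputable section

/-- binomial coefficients `(1/3)_n / n!` -/
def c (n : ℕ) : ℝ := Ring.choose ((1/3 : ℝ) + n - 1) n

lemma c_mul (n : ℕ) : (n.factorial : ℝ) * c n = (ascPochhammer ℝ n).eval (1/3 : ℝ) := by
  have h := Ring.factorial_nsmul_multichoose_eq_ascPochhammer (1/3 : ℝ) n
  rw [Ring.multichoose_eq, Polynomial.ascPochhammer_smeval_eq_eval, nsmul_eq_mul] at h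
  exact h

lemma asc_eq (k : ℕ) : (ascPochhammer ℝ (k+1)).eval (1/3 : ℝ) = (1/3) * g k := by
  induction k with
  | zero => simp [g]
  | succ k ih =>
    rw [ascPochhammer_succ_eval, ih, g]; push_cast; ring

lemma T_zero (k : ℕ) : T 0 k = (3/2) * (c (k+1) * (7/8)^(k+1)) := by
  have h1 := c_mul (k+1)
  rw [asc_eq] at h1
  have e : T 0 k = (7/16) * (7/8)^k * g k / ((k+1).factorial : ℝ) := by
    unfold T
    have p3 : (k.factorial : ℝ) ≠ 0 := by positivity
    rw [show 2*0+1+k = k+1 by ring, show 0+k = k by ring]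
    simp only [h, pow_zero, Nat.factorial_zero, Nat.cast_one, mul_zero]
    field_simp
  rw [e]
  have p : ((k+1).factorial : ℝ) ≠ 0 := by positivity
  rw [div_eq_iff p, pow_succ]
  linear_combination (-(3/2) * ((7/8:ℝ)^k * (7/8))) * h1

lemma S_zero : S 0 = 3/2 := by
  have hb := Real.one_div_one_sub_rpow_hasFPowerSeriesOnBall_zero (1/3)
  have hy : (7/8 : ℝ) ∈ Metric.eball (0:ℝ) 1 := by
    simp only [Metric.mem_eball, edist_zero_right]
    rw [← ofReal_norm, ENNReal.ofReal_lt_one]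
    exact norm_r
  have hs := hb.hasSum hy
  have h2 : (1:ℝ) / (1 - (0 + 7/8)) ^ (1/3 : ℝ) = 2 := by
    have : (1 - (0 + 7/8) : ℝ) = (1/2)^(3:ℝ) := by norm_num
    rw [this, ← Real.rpow_mul (by norm_num)]
    norm_num
  rw [h2] at hs
  have h3 : HasSum (fun n : ℕ => c n * (7/8 : ℝ)^n) 2 := by
    have e : (fun n : ℕ => c n * (7/8 : ℝ)^n) = fun n =>
        (FormalMultilinearSeries.ofScalars ℝ
          (fun n : ℕ => Ring.choose ((1/3 : ℝ) + n - 1) n) n) fun _ => (7/8 : ℝ) := by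
      funext n
      rw [FormalMultilinearSeries.ofScalars_apply_eq, smul_eq_mul]
      rfl
    rw [e]
    exact hs
  have h4 : c 0 = 1 := by
    have := c_mul 0
    simpa using this
  have h5 : HasSum (fun n : ℕ => c (n+1) * (7/8 : ℝ)^(n+1)) 1 := by
    have := (hasSum_nat_add_iff' 1).mpr h3
    simp only [Finset.range_one, Finset.sum_singleton, h4, pow_zero, mul_one] at this
    have e : (2:ℝ) - 1 = 1 := by norm_num
    rw [e] at this
    exact this
  have h6 : HasSum (T 0) (3/2 * 1) := by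
    have hf : T 0 = fun k : ℕ => (3/2) * (c (k+1) * (7/8 : ℝ)^(k+1)) := funext T_zero
    rw [hf]
    exact h5.mul_left (3/2)
  unfold S
  rw [h6.tsum_eq]
  norm_num

lemma S_one' : S 1 = 3/7 := by
  rw [S_one, S_zero]; norm_num

/-! ### `S n → 0` -/

lemma A_succ (n : ℕ) : T (n+2) 0 * 8^(n+4) ≤ (49/54) * (T (n+1) 0 * 8^(n+3)) := by
  have a := T_succ_left (n+1) 0
  have hT := T_pos (n+1) 0
  have h8 : (0:ℝ) < 8^(n+3) := by positivity
  have hP : 0 < T (n+1) 0 * 8^(n+3) := by positivity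
  have hn : (0:ℝ) ≤ n := by positivity
  have key : (7/8) * (((n+1 : ℕ) : ℝ)+2/3) * (((n+1 : ℕ) : ℝ)+((0:ℕ):ℝ)+4/3) *
      (((n+1 : ℕ) : ℝ)+((0:ℕ):ℝ)+1) /
      ((2*((n+1 : ℕ) : ℝ)+1) * (2*((n+1 : ℕ) : ℝ)+((0:ℕ):ℝ)+2) *
        (2*((n+1 : ℕ) : ℝ)+((0:ℕ):ℝ)+3)) ≤ 49/432 := by
    push_cast
    rw [div_le_iff₀ (by positivity)]
    have e1 : (0:ℝ) ≤ (n:ℝ)+1+1 := by positivity
    nlinarith [mul_nonneg e1 (by nlinarith : 0 ≤ 49/432*((2*((n:ℝ)+1)+1)*2*(2*((n:ℝ)+1)+3)) -
      (7/8)*((n:ℝ)+1+2/3)*((n:ℝ)+1+4/3))]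
  obtain ⟨X, hX, hXle⟩ : ∃ X : ℝ, T (n+2) 0 = T (n+1) 0 * X ∧ X ≤ 49/432 := ⟨_, a, key⟩
  calc T (n+2) 0 * 8^(n+4) = (T (n+1) 0 * 8^(n+3)) * (8 * X) := by
        rw [hX, show n + 4 = (n+3) + 1 by ring, pow_succ]; ring
    _ ≤ (T (n+1) 0 * 8^(n+3)) * (8 * (49/432)) := by
        apply mul_le_mul_of_nonneg_left _ hP.le
        exact mul_le_mul_of_nonneg_left hXle (by norm_num)
    _ = _ := by ring

lemma A_le (n : ℕ) : T (n+1) 0 * 8^(n+3) ≤ (49/54)^n * (T 1 0 * 8^3) := by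
  induction n with
  | zero => simp
  | succ n ih =>
    calc T (n+2) 0 * 8^(n+4) ≤ (49/54) * (T (n+1) 0 * 8^(n+3)) := A_succ n
      _ ≤ (49/54) * ((49/54)^n * (T 1 0 * 8^3)) :=
          mul_le_mul_of_nonneg_left ih (by norm_num)
      _ = _ := by ring

lemma S_tendsto : Tendsto S atTop (𝓝 0) := by
  rw [← tendsto_add_atTop_iff_nat 1]
  have h1 : Tendsto (fun n : ℕ => (49/54 : ℝ)^n * (T 1 0 * 8^3)) atTop (𝓝 0) := by
    have := (tendsto_pow_atTop_nhds_zero_of_lt_one (r := (49/54 : ℝ)) (by norm_num)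
      (by norm_num)).mul_const (T 1 0 * 8^3)
    simpa using this
  refine squeeze_zero (fun n => (S_pos _).le) (fun n => ?_) h1
  exact (S_le (n+1)).trans (A_le n)

/-! ### bounds for `d` -/

lemma d_eq (n : ℕ) : d (n+1) = 1/4 + (5/36) / (4 * ((n:ℝ)+1)^2 - 1) := by
  unfold d
  push_cast
  have hq : (4 * ((n:ℝ)+1)^2 - 1) = (2*(n:ℝ)+1) * (2*(n:ℝ)+3) := by ring
  have h1 : (2*(n:ℝ)+1) ≠ 0 := by positivity
  have h2 : (2*(n:ℝ)+3) ≠ 0 := by positivity
  rw [hq]
  field_simp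
  ring

lemma d_pos (n : ℕ) : 1/4 < d (n+1) := by
  rw [d_eq]
  have : 0 < (4 * ((n:ℝ)+1)^2 - 1) := by
    have : (4 * ((n:ℝ)+1)^2 - 1) = (2*(n:ℝ)+1) * (2*((n:ℝ)+1)+1) := by ring
    rw [this]; positivity
  have : 0 < (5/36 : ℝ) / (4 * ((n:ℝ)+1)^2 - 1) := by positivity
  linarith

lemma d_le (n : ℕ) : d (n+2) ≤ 7/27 := by
  rw [show n + 2 = (n+1) + 1 by ring, d_eq]
  push_cast
  have h1 : (15:ℝ) ≤ (4 * ((n:ℝ)+1+1)^2 - 1) := by
    have : (0:ℝ) ≤ n := by positivity
    nlinarith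
  have : (5/36 : ℝ) / (4 * ((n:ℝ)+1+1)^2 - 1) ≤ (5/36)/15 := by
    apply div_le_div_of_nonneg_left (by norm_num) (by norm_num) h1
  linarith

lemma d_tendsto : Tendsto d atTop (𝓝 (1/4)) := by
  rw [← tendsto_add_atTop_iff_nat 1]
  have h1 : Tendsto (fun n : ℕ => (4 * ((n:ℝ)+1)^2 - 1)) atTop atTop := by
    have h0 : Tendsto (fun n : ℕ => (n:ℝ)) atTop atTop := tendsto_natCast_atTop_atTop
    refine tendsto_atTop_mono (fun n => ?_) h0
    have : (0:ℝ) ≤ n := by positivity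
    nlinarith
  have h2 : Tendsto (fun n : ℕ => 1/4 + (5/36 : ℝ) / (4 * ((n:ℝ)+1)^2 - 1)) atTop
      (𝓝 (1/4 + 0)) := by
    apply Tendsto.const_add
    exact h1.const_div_atTop _
  rw [add_zero] at h2
  refine h2.congr (fun n => (d_eq n).symm)

/-! ### the minimal solution -/

lemma S_succ_lt (N : ℕ) : S (N+2) < S (N+1) := by
  by_contra hcon
  push Not at hcon
  -- increasing from N+1 on
  have h1 : ∀ m, S (N+1+m) ≤ S (N+1+m+1) := by
    intro m
    induction m with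
    | zero => simpa using hcon
    | succ m ih =>
      have hr := S_rec (N+1+m)
      have hd : d (N+1+m+1) ≤ 7/27 := by
        have := d_le (N+m)
        rwa [show N+m+2 = N+1+m+1 by ring] at this
      have hp := S_pos (N+1+m)
      have hp1 := S_pos (N+1+m+1)
      have hd0 := d_pos (N+1+m)
      rw [show N+1+(m+1) = N+1+m+1 by ring, show N+1+m+1+1 = N+1+m+2 by ring, hr]
      nlinarith
  have h2 : ∀ m, S (N+1) ≤ S (N+1+m) := by
    intro m
    induction m with
    | zero => simp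
    | succ m ih => exact ih.trans (h1 m)
  have h3 : Tendsto (fun m => S (N+1+m)) atTop (𝓝 0) := by
    have := (tendsto_add_atTop_iff_nat (N+1)).mpr S_tendsto
    refine this.congr (fun m => by rw [add_comm])
  have h4 : S (N+1) ≤ 0 := ge_of_tendsto' h3 h2
  linarith [S_pos (N+1)]

/-- the ratio `ρ n = S (n+1) / S n` -/
def rho (n : ℕ) : ℝ := S (n+1) / S n

lemma rho_pos (n : ℕ) : 0 < rho n := div_pos (S_pos _) (S_pos _)

lemma rho_lt (n : ℕ) : rho (n+1) < 1 := by
  unfold rho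
  rw [div_lt_one (S_pos _)]
  exact S_succ_lt n

lemma rho_rec (n : ℕ) : rho n * (9/7 - rho (n+1)) = d (n+1) := by
  unfold rho
  have h0 := (S_pos n).ne'
  have h1 := (S_pos (n+1)).ne'
  have hr := S_rec n
  rw [show n+1+1 = n+2 by ring]
  field_simp
  rw [hr]; ring

/-- a backward contraction lemma -/
lemma backward {x δ : ℕ → ℝ} {θ M : ℝ} (h0 : 0 ≤ θ) (h1 : θ < 1) (hx0 : ∀ n, 0 ≤ x n)
    (hM : ∀ n, x n ≤ M) (h : ∀ n, x n ≤ δ n + θ * x (n+1)) (hδ : Tendsto δ atTop (𝓝 0)) :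
    Tendsto x atTop (𝓝 0) := by
  rw [Metric.tendsto_atTop]
  intro ε hε
  have hε' : 0 < ε * (1 - θ) / 2 := by
    have : 0 < 1 - θ := by linarith
    positivity
  rw [Metric.tendsto_atTop] at hδ
  obtain ⟨N, hN⟩ := hδ _ hε'
  refine ⟨N, fun n hn => ?_⟩
  have key : ∀ m, ∀ n, N ≤ n → x n ≤ ε/2 + θ^m * M := by
    intro m
    induction m with
    | zero => intro n hn; have := hM n; simp; linarith
    | succ m ih =>
      intro n hn
      have a1 := h n
      have a2 := ih (n+1) (by omega)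
      have a3 := hN n hn
      rw [Real.dist_eq, sub_zero] at a3
      have a4 : δ n < ε * (1 - θ) / 2 := (le_abs_self _).trans_lt a3
      have a5 : θ * x (n+1) ≤ θ * (ε/2 + θ^m * M) := mul_le_mul_of_nonneg_left a2 h0
      have : θ^(m+1) * M = θ * (θ^m * M) := by ring
      rw [this]
      nlinarith
  have lim : Tendsto (fun m : ℕ => ε/2 + θ^m * M) atTop (𝓝 (ε/2 + 0 * M)) :=
    ((tendsto_pow_atTop_nhds_zero_of_lt_one h0 h1).mul_const M).const_add _
  have := ge_of_tendsto' lim (fun m => key m n hn)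
  rw [Real.dist_eq, sub_zero, abs_of_nonneg (hx0 n)]
  linarith

/-- a forward contraction lemma -/
lemma forward {x δ : ℕ → ℝ} {θ M : ℝ} (h0 : 0 ≤ θ) (h1 : θ < 1) (hx0 : ∀ n, 0 ≤ x n)
    (hM : ∀ n, x n ≤ M) (h : ∀ n, x (n+1) ≤ δ n + θ * x n) (hδ : Tendsto δ atTop (𝓝 0)) :
    Tendsto x atTop (𝓝 0) := by
  rw [Metric.tendsto_atTop]
  intro ε hε
  have hε' : 0 < ε * (1 - θ) / 2 := by
    have : 0 < 1 - θ := by linarith
    positivity
  rw [Metric.tendsto_atTop] at hδ
  obtain ⟨N, hN⟩ := hδ _ hε'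
  have key : ∀ m, x (N+m) ≤ ε/2 + θ^m * M := by
    intro m
    induction m with
    | zero => have := hM N; simp; linarith
    | succ m ih =>
      have a1 := h (N+m)
      have a3 := hN (N+m) (by omega)
      rw [Real.dist_eq, sub_zero] at a3
      have a4 : δ (N+m) < ε * (1 - θ) / 2 := (le_abs_self _).trans_lt a3
      have a5 : θ * x (N+m) ≤ θ * (ε/2 + θ^m * M) := mul_le_mul_of_nonneg_left ih h0
      have : θ^(m+1) * M = θ * (θ^m * M) := by ring
      rw [this, show N + (m+1) = N + m + 1 by ring]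
      nlinarith
  have lim : Tendsto (fun m : ℕ => θ^m * M) atTop (𝓝 (0 * M)) :=
    (tendsto_pow_atTop_nhds_zero_of_lt_one h0 h1).mul_const M
  rw [zero_mul, Metric.tendsto_atTop] at lim
  obtain ⟨K, hK⟩ := lim (ε/2) (by linarith)
  refine ⟨N + K, fun n hn => ?_⟩
  obtain ⟨m, rfl⟩ : ∃ m, n = N + m := ⟨n - N, by omega⟩
  have b1 := key m
  have b2 := hK m (by omega)
  rw [Real.dist_eq, sub_zero] at b2
  have b3 := (le_abs_self _).trans_lt b2
  rw [Real.dist_eq, sub_zero, abs_of_nonneg (hx0 _)]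
  linarith

/-- the small root -/
def lam : ℝ := (9 - 4 * √2) / 14
/-- the large root -/
def Lam : ℝ := (9 + 4 * √2) / 14

lemma sqrt2_bounds : 1.414 < √2 ∧ √2 < 1.415 := by
  constructor
  · rw [Real.lt_sqrt (by norm_num)]; norm_num
  · rw [Real.sqrt_lt' (by norm_num)]; norm_num

lemma lam_add : lam + Lam = 9/7 := by unfold lam Lam; ring

lemma lam_mul : lam * Lam = 1/4 := by
  unfold lam Lam
  have : √2 * √2 = 2 := Real.mul_self_sqrt (by norm_num)
  have e : (9 - 4 * √2) / 14 * ((9 + 4 * √2) / 14) = (81 - 16 * (√2 * √2)) / 196 := by ring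
  rw [e, this]; norm_num

lemma lam_bounds : 0.238 < lam ∧ lam < 0.239 := by
  obtain ⟨h1, h2⟩ := sqrt2_bounds
  unfold lam
  constructor <;> norm_num at h1 h2 ⊢ <;> linarith

lemma Lam_bounds : 1.046 < Lam ∧ Lam < 1.048 := by
  obtain ⟨h1, h2⟩ := sqrt2_bounds
  unfold Lam
  constructor <;> norm_num at h1 h2 ⊢ <;> linarith

lemma lam_irr : Irrational lam := by
  unfold lam
  have h := irrational_sqrt_two
  have h1 : Irrational (((4 : ℕ) : ℝ) * √2) := h.natCast_mul (by norm_num)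
  have h2 : Irrational (((9 : ℕ) : ℝ) - ((4 : ℕ) : ℝ) * √2) := h1.natCast_sub 9
  have h3 := h2.div_natCast (m := 14) (by norm_num)
  simpa using h3

lemma rho_tendsto : Tendsto rho atTop (𝓝 lam) := by
  obtain ⟨hl1, hl2⟩ := lam_bounds
  obtain ⟨hL1, hL2⟩ := Lam_bounds
  rw [← tendsto_add_atTop_iff_nat 1]
  have hx : Tendsto (fun n => |rho (n+1) - lam|) atTop (𝓝 0) := by
    refine backward (δ := fun n => (7/2) * |d (n+2) - 1/4|) (θ := 0.84) (M := 1)
      (by norm_num) (by norm_num) (fun n => abs_nonneg _) (fun n => ?_) (fun n => ?_) ?_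
    · have h1 := rho_pos (n+1)
      have h2 := rho_lt n
      rw [abs_le]
      norm_num at hl1 hl2
      constructor <;> linarith
    · have h1 := rho_rec (n+1)
      have h2 := rho_lt (n+1)
      have h2' := rho_pos (n+1+1)
      set r := rho (n+1) with hr
      set s := rho (n+1+1) with hs
      have hps : 0 < 9/7 - s := by linarith
      have hLam : 9/7 - lam = Lam := by linarith [lam_add]
      have hL0 : 0 < Lam := by norm_num at hL1; linarith
      -- r - lam = (d-1/4)/(9/7-s) + (1/4)(s-lam)/((9/7-s) Lam)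
      have e : r - lam = (d (n+2) - 1/4) / (9/7 - s) +
          (1/4) * (s - lam) / ((9/7 - s) * Lam) := by
        have e1 : r = d (n+2) / (9/7 - s) := by
          rw [eq_div_iff hps.ne']; exact h1
        have e2 : lam = (1/4) / Lam := by
          rw [eq_div_iff hL0.ne']; exact lam_mul
        have e3 : s - lam = Lam - (9/7 - s) := by linarith [lam_add]
        rw [e1, e3]
        conv_lhs => rw [e2]
        generalize 9/7 - s = t at hps
        have ht := hps.ne'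
        have hL0' := hL0.ne'
        field_simp
        ring
      have h27 : 2/7 ≤ 9/7 - s := by linarith
      have b1 : |(d (n+2) - 1/4) / (9/7 - s)| ≤ (7/2) * |d (n+2) - 1/4| := by
        rw [abs_div, abs_of_pos hps, div_le_iff₀ hps]
        have := abs_nonneg (d (n+2) - 1/4)
        nlinarith
      have b2 : |(1/4) * (s - lam) / ((9/7 - s) * Lam)| ≤ 0.84 * |s - lam| := by
        have hp : 0 < (9/7 - s) * Lam := by positivity
        rw [abs_div, abs_of_pos hp, div_le_iff₀ hp, abs_mul]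
        have h14 : |(1/4:ℝ)| = 1/4 := by norm_num
        rw [h14]
        have h0 := abs_nonneg (s - lam)
        have hL1' : (1.046:ℝ) ≤ Lam := hL1.le
        have : (1/4 : ℝ) ≤ 0.84 * ((9/7 - s) * Lam) := by
          have : (2/7 : ℝ) * 1.046 ≤ (9/7 - s) * Lam :=
            mul_le_mul h27 hL1' (by norm_num) hps.le
          norm_num at this ⊢
          linarith
        nlinarith
      calc |r - lam| ≤ |(d (n+2) - 1/4) / (9/7 - s)| +
            |(1/4) * (s - lam) / ((9/7 - s) * Lam)| := by rw [e]; exact abs_add_le _ _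
        _ ≤ _ := add_le_add b1 b2
    · have h1 := (tendsto_add_atTop_iff_nat 2).mpr d_tendsto
      have h2 : Tendsto (fun n => d (n+2) - 1/4) atTop (𝓝 0) := by
        simpa using h1.sub_const (1/4)
      have h3 := h2.abs.const_mul (7/2)
      simpa using h3
  rw [← tendsto_sub_nhds_zero_iff]
  exact (tendsto_zero_iff_abs_tendsto_zero _).mpr hx

end

end Run7.h928.Zud
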